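import Pool.Agent.Work.MP_9d1ffa_al.G2.TrB

/-! Descent to the trace field. -/

namespace Pool.Agent.Work.MP_9d1ffa_al.G2

open Matrix

/-- The special linear group of the plane. -/
abbrev S2 (K : Type) [Field K] : Type := Matrix.SpecialLinearGroup (Fin 2) K

variable {K : Type} [Field K]

theorem s2_smul (g : S2 K) (y : V K) : g • y = g.1 *ᵥ y := rfl

theorem sub_smul_eq (H : Subgroup (S2 K)) (g : H) (y : V K) : g • y = g.1.1 *ᵥ y := rfl

instance s2_faithful : FaithfulSMul (S2 K) (V K) := by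
  refine ⟨fun {g h} e => Subtype.ext (Matrix.ext fun i j => ?_)⟩
  have := congrFun (e (Pi.single j 1)) i
  simpa [s2_smul] using this

instance sub_faithful (H : Subgroup (S2 K)) : FaithfulSMul H (V K) := by
  exact ⟨fun {g h} e => Subtype.ext (FaithfulSMul.eq_of_smul_eq_smul (α := V K) e)⟩

theorem Dsc_c (g : S2 K) (y : V K) (i : Fin 2) : (g • y) i = g.1 i 0 * y 0 + g.1 i 1 * y 1 := by
  simp [s2_smul, Matrix.mulVec, dotProduct, Fin.sum_univ_two]

theorem Dsc_det (g : S2 K) : g.1 0 0 * g.1 1 1 - g.1 0 1 * g.1 1 0 = 1 := by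
  rw [← Matrix.det_fin_two]
  exact g.2

theorem s2_det1 : Det1 (S2 K) K := by
  intro g x y
  simp only [dt, Dsc_c]
  linear_combination (x 0 * y 1 - x 1 * y 0) * Dsc_det g

theorem sub_det1 (H : Subgroup (S2 K)) : Det1 H K := by
  exact fun g x y => s2_det1 g.1 x y

theorem sub_trc (H : Subgroup (S2 K)) (g : H) : trc K g = g.1.1.trace := by
  simp [trc, sub_smul_eq, ee, Matrix.trace_fin_two]

theorem pluecker (w w' p q : V K) : dt p q * dt w w' = dt w p * dt w' q - dt w q * dt w' p := by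
  simp only [dt]
  ring

theorem Dsc_ne {a b : K} (h : a ≠ 0 ∨ b ≠ 0) : (![a, b] : V K) ≠ 0 := by
  intro e
  rcases h with h | h
  · exact h (congrFun e 0)
  · exact h (congrFun e 1)

/-- A nonzero matrix of determinant zero has rank one. -/
theorem Dsc_rank {p q r s : K} (h : p * s = q * r) (hne : ¬(p = 0 ∧ q = 0 ∧ r = 0 ∧ s = 0)) :
    ∃ x w : V K, x ≠ 0 ∧ w ≠ 0 ∧ p = -w 1 * x 0 ∧ q = w 0 * x 0 ∧ r = -w 1 * x 1 ∧
      s = w 0 * x 1 := by
  by_cases hp : p = 0
  · by_cases hr : r = 0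
    · refine ⟨![q, s], ![1, 0], Dsc_ne ?_, Dsc_ne (Or.inl one_ne_zero), by simp [hp], by simp,
        by simp [hr], by simp⟩
      by_contra hc
      rw [not_or, not_not, not_not] at hc
      exact hne ⟨hp, hc.1, hr, hc.2⟩
    · have hq : q = 0 := by
        rw [hp, zero_mul] at h
        exact (mul_eq_zero.1 h.symm).resolve_right hr
      exact ⟨![0, r], ![s / r, -1], Dsc_ne (Or.inr hr), Dsc_ne (Or.inr (by simp)), by simp [hp],
        by simp [hq], by simp, by simp [hr]⟩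
  · refine ⟨![p, r], ![q / p, -1], Dsc_ne (Or.inl hp), Dsc_ne (Or.inr (by simp)), by simp,
      by simp [hp], by simp, ?_⟩
    change s = q / p * r
    field_simp
    linear_combination h

theorem Dsc_line {v u : V K} (hv : v ≠ 0) (h : dt v u = 0) : ∃ l : K, u = l • v := by
  unfold dt at h
  by_cases h0 : v 0 = 0
  · have h1 : v 1 ≠ 0 := fun h1 => hv (funext fun i => by fin_cases i <;> assumption)
    refine ⟨u 1 / v 1, funext fun i => ?_⟩
    fin_cases i
    · change u 0 = u 1 / v 1 * v 0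
      field_simp
      linear_combination -h
    · change u 1 = u 1 / v 1 * v 1
      field_simp
  · refine ⟨u 0 / v 0, funext fun i => ?_⟩
    fin_cases i
    · change u 0 = u 0 / v 0 * v 0
      field_simp
    · change u 1 = u 0 / v 0 * v 1
      field_simp
      linear_combination h

theorem Dsc_move (H : Subgroup (S2 K)) {v : V K} (hv : v ≠ 0) :
    IsSolvable H ∨ ∃ b ∈ H, dt v (b • v) ≠ 0 := by
  by_cases h : ∀ b ∈ H, dt v (b • v) = 0
  · exact Or.inl (sol_line s2_det1 H hv fun g hg => Dsc_line hv (h g hg))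
  · push Not at h
    exact Or.inr h

/-- Matrices in a basis of determinant one. -/
theorem Dsc_conj {x x' : V K} (h : dt x x' = 1) : ∃ M : S2 K, ∀ g : S2 K,
    (M⁻¹ * g * M).1 0 0 = dt (g • x) x' ∧ (M⁻¹ * g * M).1 0 1 = dt (g • x') x' ∧
      (M⁻¹ * g * M).1 1 0 = dt x (g • x) ∧ (M⁻¹ * g * M).1 1 1 = dt x (g • x') := by
  refine ⟨⟨!![x 0, x' 0; x 1, x' 1], ?_⟩, fun g => ?_⟩
  · rw [Matrix.det_fin_two_of, ← h, dt]
    ring
  · simp only [Matrix.SpecialLinearGroup.coe_mul, Matrix.SpecialLinearGroup.coe_inv,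
      Matrix.adjugate_fin_two_of, Matrix.mul_apply, Fin.sum_univ_two, dt, Dsc_c]
    simp only [Matrix.of_apply, Matrix.cons_val', Matrix.cons_val_zero, Matrix.cons_val_one,
      Matrix.cons_val_fin_one]
    exact ⟨by ring, by ring, by ring, by ring⟩

theorem Dsc_root {k Ω : Type} [Field k] [Field Ω] [Algebra k Ω] [IsAlgClosed Ω] {t : Ω}
    (ht : t ∈ algebraicClosure k Ω) : ∃ l ∈ algebraicClosure k Ω, l ^ 2 - t * l + 1 = 0 := by
  have : IsAlgClosed (algebraicClosure k Ω) := IsAlgClosure.isAlgClosed k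
  obtain ⟨l, hl⟩ := IsAlgClosed.exists_root (k := algebraicClosure k Ω)
    (Polynomial.C 1 * Polynomial.X ^ 2 + Polynomial.C (-⟨t, ht⟩) * Polynomial.X + Polynomial.C 1)
    (by rw [Polynomial.degree_quadratic one_ne_zero]; decide)
  refine ⟨l, l.2, ?_⟩
  have e := congrArg (fun z : algebraicClosure k Ω => (z : Ω)) hl
  simp only [Polynomial.eval_add, Polynomial.eval_mul, Polynomial.eval_C, Polynomial.eval_pow,
    Polynomial.eval_X] at e
  push_cast at e
  linear_combination e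

/-- Either all elements are scalar or there is a matrix coefficient with algebraic values. -/
theorem Dsc_coef {k Ω : Type} [Field k] [Field Ω] [Algebra k Ω] [IsAlgClosed Ω]
    (H : Subgroup (S2 Ω)) (h : ∀ g ∈ H, g.1.trace ∈ algebraicClosure k Ω) :
    IsSolvable H ∨ ∃ x w : V Ω, x ≠ 0 ∧ w ≠ 0 ∧ ∀ g ∈ H, dt w (g • x) ∈ algebraicClosure k Ω := by
  by_cases hs : ∀ g ∈ H, g.1 1 0 = 0
  · refine Or.inl (sol_line s2_det1 H (ee_ne 0) fun g hg => Dsc_line (ee_ne 0) ?_)
    simp [dt, Dsc_c, ee, hs g hg]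
  · push Not at hs
    obtain ⟨g, hg, hc⟩ := hs
    obtain ⟨l, hl, e⟩ := Dsc_root (h g hg)
    rw [Matrix.trace_fin_two] at e
    obtain ⟨x, w, hx, hw, e1, e2, e3, e4⟩ := Dsc_rank (p := g.1 0 0 - l) (q := g.1 0 1)
      (r := g.1 1 0) (s := g.1 1 1 - l) (by linear_combination e + Dsc_det g) fun hh => hc hh.2.2.1
    refine Or.inr ⟨x, w, hx, hw, fun b hb => ?_⟩
    have : dt w (b • x) = (g * b).1.trace - l * b.1.trace := by
      simp only [Matrix.SpecialLinearGroup.coe_mul, Matrix.trace_fin_two, Matrix.mul_apply,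
        Fin.sum_univ_two, dt, Dsc_c]
      linear_combination -b.1 0 0 * e1 - b.1 1 0 * e2 - b.1 0 1 * e3 - b.1 1 1 * e4
    rw [this]
    exact sub_mem (h _ (H.mul_mem hg hb)) (mul_mem hl (h b hb))

/-- If all elements are scalar, `sol_line` applies with `v = ee 0`. Otherwise let `g ∈ H` be
non-scalar, `l` a root of `X ^ 2 - tr g * X + 1` (algebraic over `k`), `E = g - l ≠ 0` of determinant
`0`; write `E y = dt w y • x` with `x, w ≠ 0`. For `h ∈ H`,
`dt w (h • x) = tr (E h) = tr (g h) - l * tr h` is algebraic. If `H` preserves the line of `x` or of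
`w` use `sol_line`. Otherwise there are `b, d ∈ H` with `x' = b • x`, `w' = d • w`, `dt x x' ≠ 0`,
`dt w w' ≠ 0`; `dt w' p = dt w (d⁻¹ • p)`. By `pluecker`, `dt p q * dt w w'` is algebraic for `p, q`
in the orbit of `x`. The matrix of `h` in the basis `x, x'` has entries `dt (h • x) x' / dt x x'`,
`dt x (h • x) / dt x x'` and the same with `h • x'`; it is `M⁻¹ * h * M` for the matrix `M` with
columns `x, x'`. -/
theorem descent {k Ω : Type} [Field k] [Field Ω] [Algebra k Ω] [IsAlgClosed Ω]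
    (H : Subgroup (S2 Ω)) (h : ∀ g ∈ H, IsAlgebraic k g.1.trace) :
    IsSolvable H ∨ ∃ φ : H →* S2 Ω, Function.Injective φ ∧
      ∀ g i j, IsAlgebraic k ((φ g).1 i j) := by
  obtain hs | ⟨x, w, hx, hw, hA⟩ :=
    Dsc_coef (k := k) H fun g hg => mem_algebraicClosure_iff.2 (h g hg)
  · exact Or.inl hs
  obtain hs | ⟨b, hb, hbx⟩ := Dsc_move H hx
  · exact Or.inl hs
  obtain hs | ⟨d, hd, hdw⟩ := Dsc_move H hw
  · exact Or.inl hs
  have hB : ∀ g ∈ H, dt (d • w) (g • x) ∈ algebraicClosure k Ω := fun g hg => by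
    rw [← s2_det1 d⁻¹, inv_smul_smul, ← mul_smul]
    exact hA _ (H.mul_mem (H.inv_mem hd) hg)
  have hC : ∀ g ∈ H, ∀ g' ∈ H, dt (g • x) (g' • x) * dt w (d • w) ∈ algebraicClosure k Ω :=
    fun g hg g' hg' => by
      rw [pluecker]
      exact sub_mem (mul_mem (hA g hg) (hB g' hg')) (mul_mem (hA g' hg') (hB g hg))
  obtain ⟨s, hs⟩ := IsAlgClosed.exists_eq_mul_self (dt x (b • x))⁻¹
  have hsc : ∀ p q : V Ω, dt (s • p) (s • q) = dt p q / dt x (b • x) := fun p q => by
    rw [div_eq_mul_inv, hs]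
    simp only [dt, Pi.smul_apply, smul_eq_mul]
    ring
  have hD : ∀ g ∈ H, ∀ g' ∈ H, IsAlgebraic k (dt (g • s • x) (g' • s • x)) := fun g hg g' hg' => by
    have e := hC 1 H.one_mem b hb
    rw [one_smul] at e
    rw [smul_comm g, smul_comm g', hsc, ← mem_algebraicClosure_iff,
      ← mul_div_mul_right _ _ hdw]
    exact div_mem (hC g hg g' hg') e
  obtain ⟨M, hM⟩ := Dsc_conj (x := s • x) (x' := b • s • x)
    (by rw [smul_comm b, hsc, div_self hbx])
  refine Or.inr ⟨(MulAut.conj M⁻¹).toMonoidHom.comp H.subtype,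
    (MulAut.conj M⁻¹).injective.comp H.subtype_injective, fun g i j => ?_⟩
  have e : ((MulAut.conj M⁻¹).toMonoidHom.comp H.subtype) g = M⁻¹ * g.1 * M := by simp
  obtain ⟨e1, e2, e3, e4⟩ := hM g.1
  have a1 := hD _ g.2 b hb
  have a2 := hD _ (H.mul_mem g.2 hb) b hb
  have a3 := hD 1 H.one_mem _ g.2
  have a4 := hD 1 H.one_mem _ (H.mul_mem g.2 hb)
  rw [mul_smul] at a2 a4
  rw [one_smul] at a3 a4
  rw [← e1] at a1
  rw [← e2] at a2
  rw [← e3] at a3
  rw [← e4] at a4
  rw [e]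
  fin_cases i <;> fin_cases j
  exacts [a1, a2, a3, a4]

end Pool.Agent.Work.MP_9d1ffa_al.G2
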