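import Pool.Agent.Work.MP_9d1ffa_al.G2.Defs
import Pool.Agent.Work.MP_9d1ffa_al.G2.Dsc

/-! Algebraic extensions of prime fields; passage to subfields. -/

namespace Pool.Agent.Work.MP_9d1ffa_al.G2

variable {P : (G : Type) → [Group G] → Prop}

theorem Closed.finite (hP : Closed P) (G : Type) [Group G] [Finite G] : P G := by
  exact hP.fin G ⊥ inferInstance (hP.sol _ (inferInstanceAs (Group.IsSolvable _)))

theorem Closed.sub (hP : Closed P) {G : Type} [Group G] (h : P G) (H : Subgroup G) : P H := by
  exact hP.inj H G H.subtype H.subtype_injective h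

/-- It suffices to treat the closures of finite subsets (`Subgroup.fg_iff`, map along
`H.subtype`). -/
theorem Closed.loc_sub (hP : Closed P) {G : Type} [Group G] (H : Subgroup G)
    (h : ∀ S : Finset G, (∀ s ∈ S, s ∈ H) → P (Subgroup.closure (S : Set G))) : P H := by
  classical
  refine hP.loc H fun L hL => ?_
  obtain ⟨T, hT⟩ := hL
  have e : Subgroup.closure (T.image H.subtype : Set G) = L.map H.subtype := by
    rw [Finset.coe_image, ← MonoidHom.map_closure, hT]
  have h1 := h (T.image H.subtype) fun s hs => by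
    obtain ⟨t, -, rfl⟩ := Finset.mem_image.1 hs
    exact t.2
  rw [e] at h1
  exact hP.inj _ _ (L.equivMapOfInjective _ H.subtype_injective).toMonoidHom
    (MulEquiv.injective _) h1

/-- The elements with all entries in a subring form a subgroup
(`Matrix.SpecialLinearGroup.SL2_inv_expl`). -/
theorem closure_entries {Ω : Type} [Field Ω] (A : Subring Ω) {S : Set (S2 Ω)}
    (h : ∀ s ∈ S, ∀ i j, s.1 i j ∈ A) : ∀ g ∈ Subgroup.closure S, ∀ i j, g.1 i j ∈ A := by
  intro g hg
  induction hg using Subgroup.closure_induction with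
  | mem s hs => exact h s hs
  | one =>
    intro i j
    rw [Matrix.SpecialLinearGroup.coe_one, Matrix.one_apply]
    split_ifs
    exacts [A.one_mem, A.zero_mem]
  | mul x y _ _ hx hy =>
    intro i j
    rw [Matrix.SpecialLinearGroup.coe_mul, Matrix.mul_apply]
    exact A.sum_mem fun k _ => A.mul_mem (hx i k) (hy k j)
  | inv x _ hx =>
    intro i j
    rw [Matrix.SpecialLinearGroup.SL2_inv_expl]
    fin_cases i <;> fin_cases j
    exacts [hx 1 1, A.neg_mem (hx 0 1), A.neg_mem (hx 1 0), hx 0 0]

/-- A group of matrices with entries in the image of a subfield comes from the subfield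
(`Matrix.SpecialLinearGroup.map`, which is injective; `MonoidHom.ofInjective`). -/
theorem exists_lift {K Ω : Type} [Field K] [Field Ω] (f : K →+* Ω) (H : Subgroup (S2 Ω))
    (h : ∀ g ∈ H, ∀ i j, g.1 i j ∈ f.range) :
    ∃ φ : H →* S2 K, Function.Injective φ ∧ ∀ g i j, f ((φ g).1 i j) = g.1.1 i j := by
  let m : S2 K →* S2 Ω := Matrix.SpecialLinearGroup.map f
  have hm : Function.Injective m := fun x y e => Subtype.ext (Matrix.ext fun i j =>
    f.injective (congrFun (congrFun (congrArg Subtype.val e) i) j))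
  have hr : H ≤ m.range := fun g hg => by
    choose a ha using h g hg
    have e : f.mapMatrix (Matrix.of a) = g.1 := Matrix.ext ha
    exact ⟨⟨Matrix.of a, f.injective (by rw [f.map_det, e, g.2, map_one])⟩, Subtype.ext e⟩
  refine ⟨(MonoidHom.ofInjective hm).symm.toMonoidHom.comp (Subgroup.inclusion hr),
    (MonoidHom.ofInjective hm).symm.injective.comp (Subgroup.inclusion_injective hr), fun g i j => ?_⟩
  exact congrFun (congrFun (congrArg Subtype.val
    (MonoidHom.apply_ofInjective_symm hm (Subgroup.inclusion hr g))) i) j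

/-- The faithful action on the finite dimensional `ℚ`-space `V K` (`LinearMap.toMatrixAlgEquiv`,
`Module.finBasis`, `MonoidHom.toHomUnits`). -/
theorem Closed.s2_number (hP : Closed P) (K : Type) [Field K] [CharZero K]
    [FiniteDimensional ℚ K] : P (S2 K) := by
  let φ : S2 K →* Matrix _ _ ℚ :=
    (LinearMap.toMatrixAlgEquiv (Module.finBasis ℚ (V K))).toMonoidHom.comp
      (DistribMulAction.toModuleEnd ℚ (V K))
  refine hP.inj _ _ φ.toHomUnits (fun x y e => ?_) (hP.lin _)
  have h1 := (LinearMap.toMatrixAlgEquiv (Module.finBasis ℚ (V K))).injective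
    (congrArg Units.val e)
  exact eq_of_smul_eq_smul (α := V K) fun v => DFunLike.congr_fun h1 v

theorem Base_prime (hP : Closed P) {k Ω : Type} [Field k] [Field Ω] [Algebra k Ω]
    (hk : (⊥ : Subfield Ω) = (algebraMap k Ω).fieldRange)
    (hE : ∀ E : IntermediateField k Ω, FiniteDimensional k E → P (S2 E)) (H : Subgroup (S2 Ω))
    (h : ∀ g ∈ H, ∀ i j, IsAlgebraic (⊥ : Subfield Ω) (g.1 i j)) : P H := by
  refine hP.loc_sub H fun S hS => ?_
  let T : Set Ω := Set.range fun q : S × Fin 2 × Fin 2 => q.1.1.1 q.2.1 q.2.2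
  have hT : ∀ x ∈ T, IsIntegral k x := by
    rintro _ ⟨⟨s, i, j⟩, rfl⟩
    have h1 := h s (hS s s.2) i j
    rw [hk] at h1
    exact (IsAlgebraic.of_ringHom_of_comp_eq (algebraMap k Ω).rangeRestrictField (RingHom.id Ω) h1
      (RingHom.rangeRestrictField_bijective _).2 Function.injective_id rfl).isIntegral
  obtain ⟨φ, hφ, -⟩ := exists_lift (algebraMap (IntermediateField.adjoin k T) Ω)
    (Subgroup.closure (S : Set (S2 Ω))) (closure_entries _ fun s hs i j =>
      ⟨⟨_, IntermediateField.subset_adjoin k T ⟨(⟨s, hs⟩, i, j), rfl⟩⟩, rfl⟩)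
  exact hP.inj _ _ φ hφ (hE _ (IntermediateField.finiteDimensional_adjoin hT))

/-- `loc_sub`; adjoin the entries of the generators to the prime field (`ℚ`, or `ZMod p` with
`ZMod.algebra`; `Subfield.bot_eq_of_charZero`, `Subfield.bot_eq_of_zMod_algebra`), which gives a
finite extension (`IntermediateField.finiteDimensional_adjoin`); `closure_entries`, `exists_lift`,
then `s2_number` or `finite`. -/
theorem Closed.base (hP : Closed P) {Ω : Type} [Field Ω] (H : Subgroup (S2 Ω))
    (h : ∀ g ∈ H, ∀ i j, IsAlgebraic (⊥ : Subfield Ω) (g.1 i j)) : P H := by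
  obtain ⟨p, hp⟩ := CharP.exists Ω
  rcases CharP.char_is_prime_or_zero Ω p with h0 | rfl
  · haveI := Fact.mk h0
    letI := ZMod.algebra Ω p
    refine Base_prime hP (Subfield.bot_eq_of_zMod_algebra p) (fun E _ => ?_) H h
    haveI : Finite E := Module.finite_of_finite (ZMod p)
    exact hP.finite _
  · haveI := CharP.charP_to_charZero Ω
    exact Base_prime hP Subfield.bot_eq_of_charZero (fun E _ => hP.s2_number E) H h

end Pool.Agent.Work.MP_9d1ffa_al.G2
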