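import Pool.Agent.Work.MP_9d1ffa_al.G2.TrB

/-! Boxes and their clusters. -/

namespace Pool.Agent.Work.MP_9d1ffa_al.G2

open Real

variable {K : Type} [Field K] {I : Type}
variable {G : Type} [Group G] [DistribMulAction G (V K)] [SMulCommClass G K (V K)]

/-- Two classes at every place. -/
abbrev Box (I K : Type) : Type := I → Cls K × Cls K

/-- The box of `c` at depths `t`. -/
noncomputable def bx (av : I → AbsoluteValue K ℝ) (L : ℝ) (c : I → V K → ℝ) (t : I → ℝ) :
    Box I K := fun i => (cl (pt (av i) (c i) (t i)), cl (pt (av i) (c i) (t i + L)))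

/-- Explicit boxes. -/
noncomputable def be (av : I → AbsoluteValue K ℝ) (L : ℝ) (x : I → V K) (t : I → ℝ) :
    Box I K := fun i => (cl (bt (av i) (x i) (t i)), cl (bt (av i) (x i) (t i + L)))

/-- Close boxes in one orbit. -/
def BR (G : Type) [Group G] [DistribMulAction G (V K)] (r : ℝ) (β β' : Box I K) : Prop :=
  (∃ g : G, β' = g • β) ∧ ∀ i, Near r (β i).1 (β' i).1 ∧ Near r (β i).2 (β' i).2

/-- Sets of boxes. -/
def UC (I K : Type) : Type := Set (Box I K)

instance : Membership (Box I K) (UC I K) := inferInstanceAs (Membership (Box I K) (Set (Box I K)))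

instance : MulAction G (UC I K) where
  smul g U := {β : Box I K | g⁻¹ • β ∈ U}
  one_smul U := by
    refine Set.ext fun β => ?_
    change (1 : G)⁻¹ • β ∈ U ↔ β ∈ U
    simp only [inv_one, one_smul]
  mul_smul g h U := by
    refine Set.ext fun β => ?_
    change (g * h)⁻¹ • β ∈ U ↔ h⁻¹ • g⁻¹ • β ∈ U
    simp only [mul_inv_rev, mul_smul]

theorem mem_smul_uc (g : G) (U : UC I K) (β : Box I K) : β ∈ g • U ↔ g⁻¹ • β ∈ U := Iff.rfl

theorem uc_ext {U U' : UC I K} (h : ∀ β, β ∈ U ↔ β ∈ U') : U = U' := Set.ext h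

/-- The cluster of a box. -/
def uc (G : Type) [Group G] [DistribMulAction G (V K)] (r : ℝ) (β : Box I K) : UC I K :=
  {β' : Box I K | Relation.EqvGen (BR G r) β β'}

theorem mem_uc (r : ℝ) (β β' : Box I K) : β' ∈ uc G r β ↔ Relation.EqvGen (BR G r) β β' := Iff.rfl

theorem BR_smul {r : ℝ} {β β' : Box I K} (h : BR G r β β') (g : G) : BR G r (g • β) (g • β') := by
  obtain ⟨⟨k, hk⟩, h2⟩ := h
  refine ⟨⟨g * k * g⁻¹, ?_⟩, fun i => ⟨near_smul (h2 i).1 g, near_smul (h2 i).2 g⟩⟩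
  rw [hk, mul_smul, mul_smul, inv_smul_smul]

theorem BxA_eqv {r : ℝ} {β β' : Box I K} (h : Relation.EqvGen (BR G r) β β') (g : G) :
    Relation.EqvGen (BR G r) (g • β) (g • β') := by
  induction h with
  | rel x y h => exact .rel _ _ (BR_smul h g)
  | refl x => exact .refl _
  | symm x y _ ih => exact .symm _ _ ih
  | trans x y z _ _ ih1 ih2 => exact .trans _ _ _ ih1 ih2

theorem uc_smul (r : ℝ) (β : Box I K) (g : G) : uc G r (g • β) = g • uc G r β := by
  refine uc_ext fun β' => ?_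
  rw [mem_smul_uc, mem_uc, mem_uc]
  constructor
  · intro h
    have h1 := BxA_eqv h g⁻¹
    rwa [inv_smul_smul] at h1
  · intro h
    have h1 := BxA_eqv h g
    rwa [smul_inv_smul] at h1

theorem uc_eq {r : ℝ} {β β' : Box I K} (h : BR G r β β') : uc G r β = uc G r β' := by
  refine uc_ext fun β'' => ?_
  rw [mem_uc, mem_uc]
  exact ⟨fun h1 => .trans _ _ _ (.symm _ _ (.rel _ _ h)) h1, fun h1 => .trans _ _ _ (.rel _ _ h) h1⟩

theorem BxA_key {r : ℝ} {β : Box I K} (hβ : BR G r β β) {β1 β2 : Box I K}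
    (h : Relation.EqvGen (BR G r) β1 β2) :
    ((∃ g : G, β1 = g • β) ↔ ∃ g : G, β2 = g • β) ∧ ∀ g1 g2 : G, β1 = g1 • β → β2 = g2 • β →
      g1⁻¹ * g2 ∈ Subgroup.closure {h : G | BR G r β (h • β)} := by
  induction h with
  | rel x y h =>
    refine ⟨?_, fun g1 g2 h1 h2 => Subgroup.subset_closure ?_⟩
    · obtain ⟨k, hk⟩ := h.1
      constructor
      · rintro ⟨g, rfl⟩
        exact ⟨k * g, by rw [hk, mul_smul]⟩
      · rintro ⟨g, hg⟩
        exact ⟨k⁻¹ * g, by rw [mul_smul, ← hg, hk, inv_smul_smul]⟩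
    · have h3 := BR_smul h g1⁻¹
      rw [h1, h2, inv_smul_smul, ← mul_smul] at h3
      exact h3
  | refl x =>
    refine ⟨Iff.rfl, fun g1 g2 h1 h2 => Subgroup.subset_closure ?_⟩
    change BR G r β ((g1⁻¹ * g2) • β)
    rw [mul_smul, ← h2, h1, inv_smul_smul]
    exact hβ
  | symm x y _ ih =>
    refine ⟨ih.1.symm, fun g1 g2 h1 h2 => ?_⟩
    have h3 := Subgroup.inv_mem _ (ih.2 g2 g1 h2 h1)
    rwa [mul_inv_rev, inv_inv] at h3
  | trans x y z _ _ ih1 ih2 =>
    refine ⟨ih1.1.trans ih2.1, fun g1 g2 h1 h2 => ?_⟩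
    obtain ⟨g, hg⟩ := ih1.1.1 ⟨g1, h1⟩
    have h3 := Subgroup.mul_mem _ (ih1.2 g1 g h1 hg) (ih2.2 g g2 hg h2)
    rwa [mul_assoc, mul_inv_cancel_left] at h3

/-- Let `H` be the set of `h` with `BR G r β (h • β)`. By induction on `Relation.EqvGen` from `β1` to
`β2`: (`β1` is in the orbit of `β` iff `β2` is) and `β1 = g1 • β`, `β2 = g2 • β` imply
`g1⁻¹ * g2 ∈ closure H` (`BR_smul`; `hβ` for the reflexive case). If `g` fixes `uc G r β` then
`g • β ∈ uc G r (g • β) = uc G r β`. -/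
theorem stab_uc_le {r : ℝ} {β : Box I K} (hβ : BR G r β β) :
    MulAction.stabilizer G (uc G r β) ≤ Subgroup.closure {h : G | BR G r β (h • β)} := by
  intro g hg
  have h1 : g • β ∈ uc G r (g • β) := (mem_uc _ _ _).2 (.refl _)
  rw [uc_smul, MulAction.mem_stabilizer_iff.1 hg, mem_uc] at h1
  have h2 := (BxA_key hβ h1).2 1 g (one_smul _ _).symm rfl
  rwa [inv_one, one_mul] at h2

/-- `stab_uc_le` (`near_refl`), `det_lemma` gives the bound `exp r` for `h ∈ H` and `exp (2 r)` for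
products, `dl_small` gives `av i (dl ..) ≤ exp (4 r - L) < 1`, then `sol_delta`; subgroups of
solvable groups are solvable (`solvable_of_solvable_injective`, `Subgroup.inclusion`). -/
theorem uc_solv [FaithfulSMul G (V K)] {av : I → AbsoluteValue K ℝ} (ha : ∀ i, Pl (av i))
    (hd : Det1 G K) (hL : ∀ g h k : G, (∀ i, av i (dl K g h k) < 1) → dl K g h k = 0) {r L : ℝ}
    (hr : 0 ≤ r) (hrL : 4 * r < L) {x : I → V K} (hx : ∀ i, x i ≠ 0) {t : I → ℝ}
    (ht : ∀ i, 0 ≤ t i) : IsSolvable (MulAction.stabilizer G (uc G r (be av L x t))) := by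
  have hL0 : 0 ≤ L := by linarith
  have hβ : BR G r (be av L x t) (be av L x t) :=
    ⟨⟨1, (one_smul _ _).symm⟩, fun i =>
      ⟨near_refl hr (bt_isSn (ha i) _ _).nn, near_refl hr (bt_isSn (ha i) _ _).nn⟩⟩
  have hb : ∀ g ∈ {h : G | BR G r (be av L x t) (h • be av L x t)}, ∀ i y,
      bt (av i) (x i) (t i) (g • y) ≤ exp r * bt (av i) (x i) (t i) y ∧
      bt (av i) (x i) (t i + L) (g • y) ≤ exp r * bt (av i) (x i) (t i + L) y := fun g hg i y =>
    ⟨(det_lemma (ha i) hd (hx i) (ht i) (hg.2 i).1 y).1,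
      (det_lemma (ha i) hd (hx i) (add_nonneg (ht i) hL0) (hg.2 i).2 y).1⟩
  have : Group.IsSolvable (Subgroup.closure {h : G | BR G r (be av L x t) (h • be av L x t)}) :=
    sol_delta (K := K) hd {h : G | BR G r (be av L x t) (h • be av L x t)}
    (fun g hg h hh k hk => hL g h k fun i => by
      refine (dl_small (ha i) (hx i) (ht i) hL0 (hb g hg i) (hb h hh i) (hb k hk i)).trans_lt ?_
      rw [← exp_add, ← exp_add, ← exp_add, exp_lt_one_iff]
      linarith)
    (fun g hg h hh => hL g h (g * h) fun i => by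
      refine (dl_small (ha i) (hx i) (ht i) hL0 (hb g hg i) (hb h hh i) (ρ3 := exp r * exp r)
        fun y => ?_).trans_lt ?_
      · rw [mul_smul, mul_assoc, mul_assoc]
        exact ⟨(hb g hg i _).1.trans (mul_le_mul_of_nonneg_left (hb h hh i y).1 (exp_pos r).le),
          (hb g hg i _).2.trans (mul_le_mul_of_nonneg_left (hb h hh i y).2 (exp_pos r).le)⟩
      · rw [← exp_add, ← exp_add, ← exp_add, exp_lt_one_iff]
        linarith)
  exact Group.isSolvable_of_isSolvable_injective (Subgroup.inclusion_injective (stab_uc_le hβ))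

end Pool.Agent.Work.MP_9d1ffa_al.G2
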