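import Pool.Agent.Work.MP_9d1ffa_al.G2.MkA

/-! Weights on labels from marker sets, and the choice of parameters. -/

namespace Pool.Agent.Work.MP_9d1ffa_al.G2

/-- The set whose supremum is the weight of a label. -/
def MkB_S {I Ω : Type} (q : ℕ) (M : Set (I → ℤ)) (lab : (I → ℤ) → Ω) (t0 : I → ℤ) (ω : Ω) :
    Set ℝ :=
  {l | l = 0 ∨ (l ≤ 1 ∧ ∃ s ∈ M, lab s = ω ∧ ∀ i, l ≤ 1 - ((|s i - t0 i| : ℤ) : ℝ) / (2 * q))}

section
variable {I Ω : Type} {q : ℕ} {M : Set (I → ℤ)} {lab : (I → ℤ) → Ω} {t0 : I → ℤ} {ω : Ω}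

theorem MkB_zero : (0 : ℝ) ∈ MkB_S q M lab t0 ω := Or.inl rfl

theorem MkB_le_one {l : ℝ} (h : l ∈ MkB_S q M lab t0 ω) : l ≤ 1 := by
  rcases h with h | h
  · rw [h]; exact zero_le_one
  · exact h.1

theorem MkB_bdd : BddAbove (MkB_S q M lab t0 ω) := ⟨1, fun _ h => MkB_le_one h⟩

theorem MkB_nonneg : 0 ≤ sSup (MkB_S q M lab t0 ω) := le_csSup MkB_bdd MkB_zero

theorem MkB_lt (hq : 0 < q) {l : ℝ} (hl : 0 < l) {z : ℤ} (h : l ≤ 1 - (z : ℝ) / (2 * q)) :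
    z < 2 * q := by
  have hq' : (0 : ℝ) < 2 * q := by positivity
  have h1 : (z : ℝ) / (2 * q) < 1 := by linarith
  rw [div_lt_one hq'] at h1
  exact_mod_cast h1

theorem MkB_pos (hq : 0 < q) (h : sSup (MkB_S q M lab t0 ω) ≠ 0) :
    ∃ s ∈ M, lab s = ω ∧ ∀ i, |s i - t0 i| < 2 * q := by
  have h0 : 0 < sSup (MkB_S q M lab t0 ω) := lt_of_le_of_ne MkB_nonneg h.symm
  obtain ⟨l, hl, hl0⟩ := exists_lt_of_lt_csSup ⟨0, MkB_zero⟩ h0
  rcases hl with hl | ⟨-, s, hs, hlab, hi⟩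
  · exact absurd hl hl0.ne'
  · exact ⟨s, hs, hlab, fun i => MkB_lt hq hl0 (hi i)⟩

end

theorem MkB_nb {I : Type} {q : ℕ} {s t0 : I → ℤ} (h : ∀ i, |s i - t0 i| < 2 * q) :
    nb (2 * q) s t0 := fun i => by
  push_cast
  exact (h i).le

theorem MkB_div {q x y : ℤ} (hq : 0 < q) (h : x / q = y / q) : |x - y| ≤ q := by
  have h1 := Int.mul_ediv_add_emod x q
  have h2 := Int.mul_ediv_add_emod y q
  have h3 := Int.emod_nonneg x hq.ne'
  have h4 := Int.emod_nonneg y hq.ne'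
  have h5 := Int.emod_lt_of_pos x hq
  have h6 := Int.emod_lt_of_pos y hq
  rw [h] at h1
  rw [abs_le]
  constructor <;> linarith

theorem MkB_pow (D k : ℕ) : ∃ N : ℕ, ∀ n, N ≤ n → D * n ^ k ≤ 2 ^ n := by
  have h := tendsto_pow_const_div_const_pow_of_one_lt k (show (1 : ℝ) < 2 by norm_num)
  have hD : (0 : ℝ) < 1 / (D + 1) := by positivity
  obtain ⟨N, hN⟩ := Filter.eventually_atTop.1 (h.eventually (gt_mem_nhds hD))
  refine ⟨N, fun n hn => ?_⟩
  have h1 := hN n hn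
  rw [div_lt_div_iff₀ (by positivity) (by positivity)] at h1
  have h2 : (0 : ℝ) ≤ (n : ℝ) ^ k := by positivity
  have h3 : (D : ℝ) * (n : ℝ) ^ k ≤ 2 ^ n := by linarith
  exact_mod_cast h3

/-- With `M` from `exists_mark`: `mw c lab t0 ω` is the supremum of `0` and of the set of `l ≤ 1`
such that some `s ∈ M c` has `lab s = ω` and `l ≤ 1 - |s i - t0 i| / (2 q)` for all `i`.
A positive weight comes from a marker `s` with `|s i - t0 i| < 2 q`. For the count send such a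
marker to `fun i => (s i - t0 i + 2 q) / q`, a function with values in `{0, 1, 2, 3}`; markers with
the same image are within `q`, so they have the same `c` and the same label (for example
`Set.ncard_le_ncard_of_injOn` into `I → Fin 4`, choosing one marker for every label). -/
theorem exists_mw (I Ω : Type) [Fintype I] (b : ℕ) {q : ℕ} (hq : 0 < q) :
    ∃ mw : ((I → ℤ) → ℕ) → ((I → ℤ) → Ω) → (I → ℤ) → Ω → ℝ,
      (∀ c lab t0 ω, 0 ≤ mw c lab t0 ω ∧ mw c lab t0 ω ≤ 1) ∧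
      (∀ c lab t0, ∃ ω, 1 / 2 ≤ mw c lab t0 ω) ∧
      (∀ c lab t0 ω, mw c lab t0 ω ≠ 0 → ∃ s, nb (2 * q) s t0 ∧ lab s = ω) ∧
      (∀ c lab t0, (∀ t, c t < 2 ^ b) →
        (∀ s t, nb (2 * q) s t0 → nb (2 * q) t t0 → nb q s t → c s = c t → lab s = lab t) →
        (Function.support (mw c lab t0)).ncard ≤ 4 ^ Fintype.card I) ∧
      ∀ c c' lab lab' t0 (δ : I → ℤ) ω ω' (d : ℕ), (∀ i, |δ i| ≤ (d : ℤ)) →
        (∀ s, nb ((KK b q (Fintype.card I) + 4) * q) s t0 → c' (s + δ) = c s) →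
        (∀ s, nb (2 * q) s t0 → lab s = ω → lab' (s + δ) = ω') →
        mw c lab t0 ω ≤ mw c' lab' t0 ω' + d / (2 * q) := by
  classical
  obtain ⟨M, hM1, hM2, hM3⟩ := exists_mark I b q
  have hq' : (0 : ℝ) < 2 * q := by positivity
  have hqz : (0 : ℤ) < q := by exact_mod_cast hq
  refine ⟨fun c lab t0 ω => sSup (MkB_S q (M c) lab t0 ω), fun c lab t0 ω =>
    ⟨MkB_nonneg, csSup_le ⟨0, MkB_zero⟩ fun _ h => MkB_le_one h⟩, fun c lab t0 => ?_,
    fun c lab t0 ω h => ?_, fun c lab t0 hc hlab => ?_,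
    fun c c' lab lab' t0 δ ω ω' d hδ hc hlab => ?_⟩
  · obtain ⟨s, hs, hn⟩ := hM1 c t0
    refine ⟨lab s, le_csSup MkB_bdd (Or.inr ⟨by norm_num, s, hs, rfl, fun i => ?_⟩)⟩
    have h1 : ((|s i - t0 i| : ℤ) : ℝ) ≤ q := by exact_mod_cast hn i
    have h2 : ((|s i - t0 i| : ℤ) : ℝ) / (2 * q) ≤ 1 / 2 := by
      rw [div_le_iff₀ hq']; linarith
    linarith
  · obtain ⟨s, -, h1, h2⟩ := MkB_pos hq h
    exact ⟨s, MkB_nb h2, h1⟩
  · have key : ∀ ω, ∃ s : I → ℤ, sSup (MkB_S q (M c) lab t0 ω) ≠ 0 →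
        s ∈ M c ∧ lab s = ω ∧ ∀ i, |s i - t0 i| < 2 * q := fun ω => by
      by_cases h : sSup (MkB_S q (M c) lab t0 ω) = 0
      · exact ⟨t0, fun h' => absurd h h'⟩
      · obtain ⟨s, hs⟩ := MkB_pos hq h
        exact ⟨s, fun _ => hs⟩
    choose f hf using key
    have h := Set.ncard_le_ncard_of_injOn
      (s := Function.support fun ω => sSup (MkB_S q (M c) lab t0 ω))
      (t := ((Fintype.piFinset fun _ : I => Finset.Ico (0 : ℤ) 4 : Finset (I → ℤ)) : Set (I → ℤ)))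
      (fun ω i => (f ω i - t0 i + 2 * q) / q) ?_ ?_ (Finset.finite_toSet _)
    · rw [Set.ncard_coe_finset, Fintype.card_piFinset, Finset.prod_const] at h
      simpa using h
    · intro ω hω
      obtain ⟨-, -, h3⟩ := hf ω hω
      rw [Finset.mem_coe, Fintype.mem_piFinset]
      intro i
      have h4 := abs_lt.1 (h3 i)
      rw [Finset.mem_Ico]
      exact ⟨Int.ediv_nonneg (by linarith [h4.1]) hqz.le,
        Int.ediv_lt_of_lt_mul hqz (by linarith [h4.2])⟩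
    · intro ω hω ω' hω' he
      obtain ⟨a1, a2, a3⟩ := hf ω hω
      obtain ⟨b1, b2, b3⟩ := hf ω' hω'
      have hn : nb q (f ω) (f ω') := fun i => by
        have h1 := MkB_div hqz (congrFun he i)
        rwa [show f ω i - t0 i + 2 * q - (f ω' i - t0 i + 2 * q) = f ω i - f ω' i by ring] at h1
      rw [← a2, ← b2]
      exact hlab _ _ (MkB_nb a3) (MkB_nb b3) hn (hM2 c hc _ a1 _ b1 hn)
  · have hd : (0 : ℝ) ≤ d / (2 * q) := by positivity
    refine csSup_le ⟨0, MkB_zero⟩ fun l hl => ?_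
    rcases le_or_gt l 0 with hl0 | hl0
    · exact hl0.trans (add_nonneg MkB_nonneg hd)
    rcases hl with hl | ⟨hl1, s, hs, hs1, hi⟩
    · exact absurd hl hl0.ne'
    have hlt : ∀ i, |s i - t0 i| < 2 * q := fun i => MkB_lt hq hl0 (hi i)
    have hmem : s + δ ∈ M c' := by
      refine hM3 c c' s δ (fun u hu => hc u fun i => ?_) hs
      have h1 := hu i
      have h2 := hlt i
      have h3 := abs_sub_le (u i) (s i) (t0 i)
      push_cast at h1 ⊢
      linarith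
    have hl' : l - d / (2 * q) ∈ MkB_S q (M c') lab' t0 ω' := by
      refine Or.inr ⟨by linarith, s + δ, hmem, hlab s (MkB_nb hlt) hs1, fun i => ?_⟩
      have h1 : |(s + δ) i - t0 i| ≤ |s i - t0 i| + d := by
        rw [Pi.add_apply, show s i + δ i - t0 i = s i - t0 i + δ i by ring]
        exact (abs_add_le _ _).trans (by linarith [hδ i])
      have h2 : ((|(s + δ) i - t0 i| : ℤ) : ℝ) ≤ ((|s i - t0 i| : ℤ) : ℝ) + d := by
        exact_mod_cast h1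
      have h3 := div_le_div_of_nonneg_right h2 hq'.le
      rw [add_div] at h3
      linarith [hi i]
    linarith [le_csSup MkB_bdd hl']

/-- Take `T = 2 ^ n`, `b = C * 2 ^ n` with `C = m * ((E + 1) * σ * (J + 1) + 2)` or larger
(`σ ≤ 2 ^ σ`, `T + 1 ≤ 2 ^ T`, `T + J ≤ (J + 1) * T`). Then `log 2 (2 b) ≤ n + C + 1`, so the left
side of the second inequality is bounded by a polynomial in `n`, and `n ^ k / 2 ^ n → 0`
(`tendsto_pow_const_div_const_pow_of_one_lt`). -/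
theorem exists_par (σ E J m q A : ℕ) : ∃ T b : ℕ,
    (2 * σ ^ ((E + 1) * (T + J)) * (T + 1)) ^ m ≤ 2 ^ b ∧ A + 2 * ((KK b q m + 4) * q) ≤ T := by
  obtain ⟨C, hC⟩ : ∃ C, C = m * (σ * ((E + 1) * (J + 1)) + 2) := ⟨_, rfl⟩
  obtain ⟨k, hk⟩ : ∃ k, k = (2 * q + 1) ^ m := ⟨_, rfl⟩
  obtain ⟨N, hN⟩ := MkB_pow (A + 8 * q + 2 * q * 3 ^ k) k
  obtain ⟨n, hn1, hn2⟩ : ∃ n, N ≤ n ∧ 2 * C + 5 ≤ n := ⟨N + (2 * C + 5), by omega, by omega⟩
  refine ⟨2 ^ n, C * 2 ^ n, ?_, ?_⟩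
  · obtain ⟨T, hT⟩ : ∃ T, T = 2 ^ n := ⟨_, rfl⟩
    rw [← hT]
    have hT1 : 1 ≤ T := by rw [hT]; exact Nat.one_le_two_pow
    have h1 : T + J ≤ (J + 1) * T := by nlinarith
    have h2 : σ ^ ((E + 1) * (T + J)) ≤ 2 ^ (σ * ((E + 1) * (J + 1)) * T) :=
      calc σ ^ ((E + 1) * (T + J)) ≤ (2 ^ σ) ^ ((E + 1) * (T + J)) :=
            Nat.pow_le_pow_left Nat.lt_two_pow_self.le _
        _ = 2 ^ (σ * ((E + 1) * (T + J))) := by rw [← pow_mul]
        _ ≤ 2 ^ (σ * ((E + 1) * (J + 1)) * T) := by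
            refine Nat.pow_le_pow_right (by norm_num) ?_
            rw [mul_assoc σ, mul_assoc (E + 1)]
            exact Nat.mul_le_mul_left _ (Nat.mul_le_mul_left _ h1)
    have h3 : T + 1 ≤ 2 ^ T := Nat.lt_two_pow_self
    have h4 : 2 ≤ 2 ^ T := by
      calc 2 = 2 ^ 1 := rfl
        _ ≤ 2 ^ T := Nat.pow_le_pow_right (by norm_num) hT1
    have h5 : 2 * σ ^ ((E + 1) * (T + J)) * (T + 1) ≤ 2 ^ ((σ * ((E + 1) * (J + 1)) + 2) * T) :=
      calc 2 * σ ^ ((E + 1) * (T + J)) * (T + 1)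
          ≤ 2 ^ T * 2 ^ (σ * ((E + 1) * (J + 1)) * T) * 2 ^ T :=
            Nat.mul_le_mul (Nat.mul_le_mul h4 h2) h3
        _ = 2 ^ ((σ * ((E + 1) * (J + 1)) + 2) * T) := by
            rw [← pow_add, ← pow_add]; congr 1; ring
    calc (2 * σ ^ ((E + 1) * (T + J)) * (T + 1)) ^ m
        ≤ (2 ^ ((σ * ((E + 1) * (J + 1)) + 2) * T)) ^ m := Nat.pow_le_pow_left h5 m
      _ = 2 ^ (C * T) := by rw [← pow_mul, hC]; congr 1; ring
  · have h1 : 2 * (C * 2 ^ n) ≤ 2 ^ (n + C + 1) := by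
      have := (Nat.lt_two_pow_self (n := C)).le
      calc 2 * (C * 2 ^ n) ≤ 2 * (2 ^ C * 2 ^ n) :=
            Nat.mul_le_mul_left _ (Nat.mul_le_mul_right _ this)
        _ = 2 ^ (n + C + 1) := by ring
    have h2 : Nat.log 2 (2 * (C * 2 ^ n)) ≤ n + C + 1 := by
      have := Nat.log_mono_right (b := 2) h1
      rwa [Nat.log_pow (by norm_num)] at this
    have h3 : KK (C * 2 ^ n) q m ≤ 3 ^ k * n ^ k := by
      rw [KK, ← hk, ← mul_pow]
      exact Nat.pow_le_pow_left (by omega) k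
    have h4 : 1 ≤ n ^ k := Nat.one_le_pow _ _ (by omega)
    have h5 := hN n hn1
    have h6 := Nat.mul_le_mul_left (A + 8 * q) h4
    have h7 := Nat.mul_le_mul_left (2 * q) h3
    calc A + 2 * ((KK (C * 2 ^ n) q m + 4) * q)
        = (A + 8 * q) * 1 + 2 * q * KK (C * 2 ^ n) q m := by ring
      _ ≤ (A + 8 * q) * n ^ k + 2 * q * (3 ^ k * n ^ k) := Nat.add_le_add h6 h7
      _ = (A + 8 * q + 2 * q * 3 ^ k) * n ^ k := by ring
      _ ≤ 2 ^ n := h5

end Pool.Agent.Work.MP_9d1ffa_al.G2
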