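import Pool.Agent.Work.MP_9d1ffa_al.G2.SnB

/-! The compact space `X a`, the action on it, and the MERGE lemma. -/

namespace Pool.Agent.Work.MP_9d1ffa_al.G2

open Real Topology

variable {K : Type} [Field K] {a : AbsoluteValue K ℝ}
variable {G : Type} [Group G] [DistribMulAction G (V K)] [SMulCommClass G K (V K)]

instance (a : AbsoluteValue K ℝ) [Countable K] : TopologicalSpace.MetrizableSpace (X a) :=
  inferInstanceAs (TopologicalSpace.MetrizableSpace {c : V K → ℝ | IsSn a c ∧ nr c = 1})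

theorem X.le_g0 (c : X a) (y : V K) : c.1 y ≤ g0 a y := by
  have h := c.2.1.le_nr y
  rwa [c.2.2, one_mul] at h

theorem X.cont_eval (y : V K) : Continuous fun c : X a => c.1 y :=
  (continuous_apply y).comp continuous_subtype_val

/-- Closed subset of the product of the intervals `[0, g0 a y]` (`isCompact_univ_pi`,
`IsCompact.of_isClosed_subset`, `isCompact_iff_compactSpace`). -/
theorem X.compactSpace : CompactSpace (X a) := by
  have hcl : IsClosed {c : V K → ℝ | IsSn a c ∧ nr c = 1} := by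
    have e : {c : V K → ℝ | IsSn a c ∧ nr c = 1} =
        (((⋂ y, {c : V K → ℝ | 0 ≤ c y}) ∩
          (⋂ t : K, ⋂ y, {c : V K → ℝ | c (t • y) = a t * c y})) ∩
          (⋂ y, ⋂ z, {c : V K → ℝ | c (y + z) ≤ max (c y) (c z)})) ∩
          {c : V K → ℝ | max (c (ee 0)) (c (ee 1)) = 1} := by
      ext c
      simp only [Set.mem_inter_iff, Set.mem_iInter, Set.mem_ofPred_eq]
      exact ⟨fun h => ⟨⟨⟨h.1.nn, h.1.sm⟩, h.1.ad⟩, h.2⟩,
        fun h => ⟨⟨h.1.1.1, h.1.1.2, h.1.2⟩, h.2⟩⟩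
    rw [e]
    refine IsClosed.inter (IsClosed.inter (IsClosed.inter ?_ ?_) ?_) ?_
    · exact isClosed_iInter fun y => isClosed_le continuous_const (continuous_apply y)
    · exact isClosed_iInter fun t => isClosed_iInter fun y =>
        isClosed_eq (continuous_apply _) (continuous_const.mul (continuous_apply y))
    · exact isClosed_iInter fun y => isClosed_iInter fun z =>
        isClosed_le (continuous_apply _) ((continuous_apply y).max (continuous_apply z))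
    · exact isClosed_eq ((continuous_apply (ee 0)).max (continuous_apply (ee 1))) continuous_const
  have hK : IsCompact (Set.univ.pi fun y : V K => Set.Icc (0 : ℝ) (g0 a y)) :=
    isCompact_univ_pi fun _ => isCompact_Icc
  have hc : IsCompact {c : V K → ℝ | IsSn a c ∧ nr c = 1} :=
    hK.of_isClosed_subset hcl fun c hc y _ => ⟨hc.1.nn y, X.le_g0 ⟨c, hc⟩ y⟩
  exact isCompact_iff_compactSpace.1 hc

theorem X.nonempty (ha : Pl a) : Nonempty (X a) := by
  refine ⟨⟨g0 a, g0_isSn ha, ?_⟩⟩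
  rw [nr, g0_ee, g0_ee, max_self]

theorem Sp_nr_mul (c : V K → ℝ) {t : ℝ} (ht : 0 ≤ t) : nr (fun y => t * c y) = t * nr c :=
  (mul_max_of_nonneg _ _ ht).symm

theorem Sp_le_al (s : G) (c : X a) (y : V K) : c.1 y ≤ al s c.1 * g0 a (s • y) := by
  have h := (mv_isSn c.2.1 s).le_nr (s • y)
  change c.1 (s⁻¹ • s • y) ≤ _ at h
  rwa [inv_smul_smul] at h

omit [SMulCommClass G K (V K)] in
theorem Sp_smul_ne (s : G) {x : V K} (hx : x ≠ 0) : s • x ≠ 0 := fun h =>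
  hx (by rw [← inv_smul_smul s x, h, smul_zero])

omit [SMulCommClass G K (V K)] in
theorem Sp_quot_le {κ : ℕ} {s : G} (hs : Bd a κ s) {x : V K} (hx : x ≠ 0) :
    g0 a x / g0 a (s • x) ≤ exp κ := by
  have h := (hs (s • x)).2
  rw [inv_smul_smul] at h
  rwa [div_le_iff₀ (g0_pos (Sp_smul_ne s hx))]

/-- If `al s c = 0` then `mv s c = 0` by `IsSn.le_nr`, so `c = 0`. -/
theorem al_pos (s : G) (c : X a) : 0 < al s c.1 := by
  by_contra h
  have h0 : al s c.1 ≤ 0 := not_lt.1 h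
  have h1 : ∀ y, c.1 y ≤ 0 := fun y =>
    (Sp_le_al s c y).trans (mul_nonpos_of_nonpos_of_nonneg h0 (g0_nonneg _))
  have h2 : nr c.1 ≤ 0 := max_le (h1 _) (h1 _)
  rw [c.2.2] at h2
  linarith

theorem act_mem (s : G) (c : X a) :
    IsSn a (fun y => (al s c.1)⁻¹ * mv s c.1 y) ∧ nr (fun y => (al s c.1)⁻¹ * mv s c.1 y) = 1 := by
  have h := al_pos s c
  refine ⟨(mv_isSn c.2.1 s).const_mul (inv_nonneg.2 h.le), ?_⟩
  rw [Sp_nr_mul _ (inv_nonneg.2 h.le)]
  exact inv_mul_cancel₀ h.ne'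

/-- The renormalised action. -/
noncomputable def act (s : G) (c : X a) : X a := ⟨fun y => (al s c.1)⁻¹ * mv s c.1 y, act_mem s c⟩

theorem act_one (c : X a) : act (1 : G) c = c := by
  refine Subtype.ext (funext fun y => ?_)
  change (al (1 : G) c.1)⁻¹ * mv (1 : G) c.1 y = c.1 y
  rw [al, mv_one, c.2.2, inv_one, one_mul]

/-- Both sides are normalised and positive multiples of `mv (s * t) c.1` (`cl_inj`). -/
theorem act_mul (s t : G) (c : X a) : act (s * t) c = act s (act t c) := by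
  refine Subtype.ext (funext fun y => ?_)
  have ht := al_pos t c
  have hst := al_pos (s * t) c
  have e : mv s (act t c).1 = fun y => (al t c.1)⁻¹ * mv (s * t) c.1 y := by
    rw [mv_mul]; rfl
  have e2 : al s (act t c).1 = (al t c.1)⁻¹ * al (s * t) c.1 := by
    rw [al, e, Sp_nr_mul _ (inv_nonneg.2 ht.le)]; rfl
  change (al (s * t) c.1)⁻¹ * mv (s * t) c.1 y = (al s (act t c).1)⁻¹ * mv s (act t c).1 y
  rw [e2, e]
  field_simp

noncomputable instance : MulAction G (X a) where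
  smul := act
  one_smul := act_one
  mul_smul := act_mul

theorem smul_val (s : G) (c : X a) (y : V K) : (s • c).1 y = (al s c.1)⁻¹ * c.1 (s⁻¹ • y) := rfl

theorem al_mul_smul (s : G) (c : X a) (y : V K) : al s c.1 * (s • c).1 y = c.1 (s⁻¹ • y) := by
  rw [smul_val, mul_inv_cancel_left₀ (al_pos s c).ne']

theorem smul_cont (s : G) : Continuous fun c : X a => s • c := by
  refine continuous_induced_rng.2 (continuous_pi fun y => ?_)
  have h1 : Continuous fun c : X a => al s c.1 :=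
    (X.cont_eval (s⁻¹ • ee 0)).max (X.cont_eval (s⁻¹ • ee 1))
  exact (h1.inv₀ fun c => (al_pos s c).ne').mul (X.cont_eval (s⁻¹ • y))

theorem al_le {κ : ℕ} {s : G} (hs : Bd a κ s) (c : X a) : al s c.1 ≤ exp κ := by
  have h : ∀ j : Fin 2, c.1 (s⁻¹ • ee j) ≤ exp κ := fun j => by
    have h1 := (hs (ee j)).2
    rw [g0_ee, mul_one] at h1
    exact (X.le_g0 c _).trans h1
  exact max_le (h 0) (h 1)

/-- `c y = mv s c (s • y) ≤ al s c * g0 a (s • y)`. -/
theorem le_al {κ : ℕ} {s : G} (hs : Bd a κ s) (c : X a) : exp (-(κ : ℝ)) ≤ al s c.1 := by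
  have hp := al_pos s c
  have h : ∀ j : Fin 2, c.1 (ee j) ≤ al s c.1 * exp κ := fun j => by
    have h1 := (hs (ee j)).1
    rw [g0_ee, mul_one] at h1
    exact (Sp_le_al s c _).trans (mul_le_mul_of_nonneg_left h1 hp.le)
  have h2 : nr c.1 ≤ al s c.1 * exp κ := max_le (h 0) (h 1)
  rw [c.2.2] at h2
  rw [exp_neg, inv_eq_one_div, div_le_iff₀ (exp_pos _)]
  exact h2

theorem al_inv (s : G) (c : X a) : al s⁻¹ (s • c).1 * al s c.1 = 1 := by
  have hp := al_pos s c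
  have e : mv s⁻¹ (s • c).1 = fun y => (al s c.1)⁻¹ * c.1 y := by
    funext y
    change (s • c).1 (s⁻¹⁻¹ • y) = _
    rw [smul_val, inv_inv, inv_smul_smul]
  have e2 : al s⁻¹ (s • c).1 = (al s c.1)⁻¹ := by
    change nr (mv s⁻¹ (s • c).1) = _
    rw [e, Sp_nr_mul _ (inv_nonneg.2 hp.le), c.2.2, mul_one]
  rw [e2]
  exact inv_mul_cancel₀ hp.ne'

/-- `al s c = c y` for `y = s⁻¹ • ee j`; `c y ≥ exp (-κ)` and `exp (-D) * g0 a y < exp (-κ)`, so by
`pt_eq_bt` (evaluate at `y`) `c y = a (dt x y) / g0 a x`, with `dt x y ≠ 0`. -/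
theorem al_exp (ha : Pl a) {κ : ℕ} {s : G} (hs : Bd a κ s) (c : X a) {x : V K} (hx : x ≠ 0)
    {D : ℝ} (hc : c.1 x ≤ exp (-D) * g0 a x) (hD : 2 * (κ : ℝ) < D) :
    ∃ n : ℤ, al s c.1 = exp n := by
  have hκ : (0 : ℝ) ≤ κ := Nat.cast_nonneg κ
  obtain ⟨j, hj⟩ : ∃ j : Fin 2, al s c.1 = c.1 (s⁻¹ • ee j) := by
    rcases max_choice (c.1 (s⁻¹ • ee 0)) (c.1 (s⁻¹ • ee 1)) with h | h
    · exact ⟨0, h⟩
    · exact ⟨1, h⟩
  set y : V K := s⁻¹ • ee j with hy
  have h1 : g0 a y ≤ exp κ := by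
    have h1 := (hs (ee j)).2
    rwa [g0_ee, mul_one] at h1
  have h2 : exp (-D) * g0 a y < c.1 y := by
    calc exp (-D) * g0 a y ≤ exp (-D) * exp κ := mul_le_mul_of_nonneg_left h1 (exp_pos _).le
      _ = exp (-D + κ) := (exp_add _ _).symm
      _ < exp (-(κ : ℝ)) := exp_lt_exp.2 (by linarith)
      _ ≤ al s c.1 := le_al hs c
      _ = c.1 y := hj
  have h3 := congrFun (pt_eq_bt ha c.2.1 c.2.2 hx (by linarith) hc) y
  change max (c.1 y) (exp (-D) * g0 a y) = max (a (dt x y) / g0 a x) (exp (-D) * g0 a y) at h3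
  rw [max_eq_left h2.le] at h3
  have h4 : c.1 y = a (dt x y) / g0 a x := by
    rcases max_choice (a (dt x y) / g0 a x) (exp (-D) * g0 a y) with h | h
    · rw [h3, h]
    · rw [h] at h3
      exact absurd h3 h2.ne'
  have h5 : dt x y ≠ 0 := by
    intro h0
    have hp := al_pos s c
    rw [hj, h4, h0, map_zero, zero_div] at hp
    exact lt_irrefl _ hp
  obtain ⟨n1, hn1⟩ := ha.val _ h5
  obtain ⟨n2, hn2⟩ := g0_exp ha hx
  refine ⟨n1 - n2, ?_⟩
  rw [hj, h4, hn1, hn2, Int.cast_sub, exp_sub]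

/-- Put `τ = t - 2 κ > 2 κ`. The quotient `γ = g0 a x / g0 a (s • x)` is at most `exp κ` and
`g0 a (s • z) ≤ exp κ * g0 a z`, so both `exp (-t) * (γ * g0 a (s • z))` and `exp (-t) * g0 a z` are
at most `exp (-τ) * g0 a z`. If `exp (-τ) * g0 a z ≤ c z` both sides equal `c z`. Otherwise
`pt_eq_bt` at depth `τ` (note `τ ≤ D`) evaluated at `z` gives
`a (dt x z) ≤ exp (-τ) * (g0 a x * g0 a z)`, and `cone` gives `γ * g0 a (s • z) = g0 a z`. -/
theorem merge_val (ha : Pl a) {κ : ℕ} {s : G} (hs : Bd a κ s) (c : X a) {x : V K} (hx : x ≠ 0)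
    {D : ℝ} (hc : c.1 x ≤ exp (-D) * g0 a x) {t : ℝ} (ht : 4 * (κ : ℝ) + 1 ≤ t) (htD : t ≤ D)
    (z : V K) :
    max (c.1 z) (exp (-t) * (g0 a x / g0 a (s • x) * g0 a (s • z))) = pt a c.1 t z := by
  have hκ : (0 : ℝ) ≤ κ := Nat.cast_nonneg κ
  have hsx : 0 < g0 a (s • x) := g0_pos (Sp_smul_ne s hx)
  have hx0 : 0 < g0 a x := g0_pos hx
  have hz : 0 ≤ g0 a z := g0_nonneg z
  have hγ := Sp_quot_le hs hx
  have hA : exp (-t) * (g0 a x / g0 a (s • x) * g0 a (s • z)) ≤ exp (-(t - 2 * κ)) * g0 a z := by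
    calc exp (-t) * (g0 a x / g0 a (s • x) * g0 a (s • z))
        ≤ exp (-t) * (exp κ * (exp κ * g0 a z)) :=
          mul_le_mul_of_nonneg_left (mul_le_mul hγ (hs z).1 (g0_nonneg _) (exp_pos _).le)
            (exp_pos _).le
      _ = exp (-(t - 2 * κ)) * g0 a z := by
          rw [show -(t - 2 * (κ : ℝ)) = -t + (κ + κ) by ring, exp_add, exp_add]; ring
  have hB : exp (-t) * g0 a z ≤ exp (-(t - 2 * κ)) * g0 a z :=
    mul_le_mul_of_nonneg_right (exp_le_exp.2 (by linarith)) hz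
  change _ = max (c.1 z) (exp (-t) * g0 a z)
  rcases le_or_gt (exp (-(t - 2 * κ)) * g0 a z) (c.1 z) with h | h
  · rw [max_eq_left (hA.trans h), max_eq_left (hB.trans h)]
  · have hc' : c.1 x ≤ exp (-(t - 2 * κ)) * g0 a x :=
      hc.trans (mul_le_mul_of_nonneg_right (exp_le_exp.2 (by linarith)) hx0.le)
    have h3 := congrFun (pt_eq_bt ha c.2.1 c.2.2 hx (by linarith) hc') z
    change max (c.1 z) (exp (-(t - 2 * κ)) * g0 a z) =
      max (a (dt x z) / g0 a x) (exp (-(t - 2 * κ)) * g0 a z) at h3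
    rw [max_eq_right h.le] at h3
    have h4 : a (dt x z) / g0 a x ≤ exp (-(t - 2 * κ)) * g0 a z := by
      rw [h3]; exact le_max_left _ _
    have h5 : a (dt x z) ≤ exp (-(t - 2 * κ)) * (g0 a x * g0 a z) := by
      rw [div_le_iff₀ hx0] at h4
      linarith
    have h6 := cone ha hs hx (τ := t - 2 * κ) (by linarith) h5
    have h7 : g0 a x / g0 a (s • x) * g0 a (s • z) = g0 a z := by
      rw [div_mul_eq_mul_div, div_eq_iff hsx.ne']
      linarith
    rw [h7]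

/-- MERGE. `α = al s c = exp n` (`al_exp`), `γ = g0 a x / g0 a (s • x) = exp n'` (`g0_exp`),
`|n|, |n'| ≤ κ`; `δ = n - n'`. Then `α * pt a (s • c) (t + δ) (s • z)` is the left side of
`merge_val`, so `pt a (s • c) (t + δ) = α⁻¹ * mv s (pt a c t)`; `cl_mul`, `smul_cl`. -/
theorem merge (ha : Pl a) {κ : ℕ} {s : G} (hs : Bd a κ s) (c : X a) {x : V K} (hx : x ≠ 0)
    {D : ℝ} (hc : c.1 x ≤ exp (-D) * g0 a x) (hD : 4 * (κ : ℝ) + 1 ≤ D) :
    ∃ δ : ℤ, |δ| ≤ 2 * κ ∧ ∀ t : ℝ, 4 * (κ : ℝ) + 1 ≤ t → t ≤ D →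
      cl (pt a (s • c).1 (t + δ)) = s • cl (pt a c.1 t) := by
  have hκ : (0 : ℝ) ≤ κ := Nat.cast_nonneg κ
  have hsx : 0 < g0 a (s • x) := g0_pos (Sp_smul_ne s hx)
  obtain ⟨n, hn⟩ := al_exp ha hs c hx hc (by linarith)
  obtain ⟨n1, hn1⟩ := g0_exp ha hx
  obtain ⟨n2, hn2⟩ := g0_exp ha (Sp_smul_ne s hx)
  have hγ : g0 a x / g0 a (s • x) = exp ((n1 : ℝ) - n2) := by rw [hn1, hn2, exp_sub]
  have b1 : (n : ℝ) ≤ κ := exp_le_exp.1 (hn ▸ al_le hs c)
  have b2 : -(κ : ℝ) ≤ n := exp_le_exp.1 (hn ▸ le_al hs c)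
  have b3 : (n1 : ℝ) - n2 ≤ κ := exp_le_exp.1 (hγ ▸ Sp_quot_le hs hx)
  have b4 : (n2 : ℝ) ≤ κ + n1 := by
    have h := (hs x).1
    rw [hn1, hn2, ← exp_add] at h
    exact exp_le_exp.1 h
  refine ⟨n - (n1 - n2), ?_, fun t ht htD => ?_⟩
  · have h : |((n - (n1 - n2) : ℤ) : ℝ)| ≤ ((2 * (κ : ℤ) : ℤ) : ℝ) := by
      push_cast
      exact abs_le.2 ⟨by linarith, by linarith⟩
    rw [← Int.cast_abs] at h
    exact_mod_cast h
  · have hp := al_pos s c
    have e : pt a (s • c).1 (t + ((n - (n1 - n2) : ℤ) : ℝ)) =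
        fun w => (al s c.1)⁻¹ * mv s (pt a c.1 t) w := by
      funext w
      obtain ⟨z, rfl⟩ : ∃ z, w = s • z := ⟨s⁻¹ • w, (smul_inv_smul s w).symm⟩
      have h1 : mv s (pt a c.1 t) (s • z) = pt a c.1 t z := by
        change pt a c.1 t (s⁻¹ • s • z) = _
        rw [inv_smul_smul]
      rw [h1, ← merge_val ha hs c hx hc ht htD z, mul_max_of_nonneg _ _ (inv_nonneg.2 hp.le)]
      change max ((s • c).1 (s • z)) (exp (-(t + ((n - (n1 - n2) : ℤ) : ℝ))) * g0 a (s • z)) = _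
      rw [smul_val, inv_smul_smul, hγ]
      congr 1
      rw [hn, ← exp_neg, ← mul_assoc, ← mul_assoc, ← exp_add, ← exp_add]
      congr 2
      push_cast
      ring
    rw [e, cl_mul _ (inv_pos.2 hp), smul_cl]

end Pool.Agent.Work.MP_9d1ffa_al.G2
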