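import Pool.Agent.Work.MP_9d1ffa_al.G2.BxA
import Pool.Agent.Work.MP_9d1ffa_al.G2.Sp
import Pool.Agent.Work.MP_9d1ffa_al.G2.MkB

/-! Regime A: weights on clusters of boxes when all places are deep. -/

namespace Pool.Agent.Work.MP_9d1ffa_al.G2

open Real Topology Filter

variable {K : Type} [Field K] {I : Type} [Fintype I]
variable {G : Type} [Group G] [DistribMulAction G (V K)] [SMulCommClass G K (V K)]

/-- An invariant colouring that separates the orbits of finitely many boxes: `c0 β` is the least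
index (`sInf`, under `Fintype.equivFin J`) of a `j` with `β` in the orbit of `e j`, and `0` if there
is none. -/
theorem exists_c0 {B J : Type} [MulAction G B] [Fintype J] (e : J → B) {b : ℕ}
    (hb : Fintype.card J ≤ 2 ^ b) :
    ∃ c0 : B → ℕ, (∀ β, c0 β < 2 ^ b) ∧ (∀ (g : G) β, c0 (g • β) = c0 β) ∧
      ∀ j j', c0 (e j) = c0 (e j') → ∃ g : G, e j' = g • e j := by
  let S : B → Set ℕ := fun β => {n | ∃ j, (Fintype.equivFin J j : ℕ) = n ∧ ∃ g : G, β = g • e j}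
  have hS : ∀ j, sInf (S (e j)) ∈ S (e j) := fun j =>
    Nat.sInf_mem ⟨_, j, rfl, 1, (one_smul _ _).symm⟩
  refine ⟨fun β => sInf (S β), fun β => ?_, fun g β => congrArg sInf ?_, fun j j' h => ?_⟩
  · rcases (S β).eq_empty_or_nonempty with h | h
    · simp only [h, Nat.sInf_empty]
      positivity
    · obtain ⟨j, hj, -⟩ := Nat.sInf_mem h
      exact hj.symm.trans_lt ((Fin.is_lt _).trans_le hb)
  · refine Set.ext fun n => exists_congr fun j => and_congr_right fun _ => ⟨?_, ?_⟩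
    · rintro ⟨g', h⟩
      exact ⟨g⁻¹ * g', by rw [mul_smul, ← h, inv_smul_smul]⟩
    · rintro ⟨g', h⟩
      exact ⟨g * g', by rw [mul_smul, ← h]⟩
  · obtain ⟨k, hk, g, hg⟩ := hS j
    obtain ⟨k', hk', g', hg'⟩ := hS j'
    obtain rfl : k = k' := (Fintype.equivFin J).injective (Fin.ext (hk.trans (h.trans hk'.symm)))
    exact ⟨g' * g⁻¹, by rw [mul_smul, hg, inv_smul_smul, ← hg']⟩

/-- Coordinatewise `pt_eq_bt`. -/
theorem bx_eq_be {av : I → AbsoluteValue K ℝ} (ha : ∀ i, Pl (av i)) (c : ∀ i, X (av i))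
    {x : I → V K} (hx : ∀ i, x i ≠ 0) {T L : ℝ} (hL : 0 ≤ L)
    (hc : ∀ i, (c i).1 (x i) ≤ exp (-T) * g0 (av i) (x i)) {t : I → ℝ}
    (ht : ∀ i, 0 ≤ t i ∧ t i + L ≤ T) : bx av L (fun i => (c i).1) t = be av L x t := by
  funext i
  have h : ∀ D : ℝ, 0 ≤ D → D ≤ T → pt (av i) (c i).1 D = bt (av i) (x i) D := fun D h0 h1 =>
    pt_eq_bt (ha i) (c i).2.1 (c i).2.2 (hx i) h0 ((hc i).trans
      (mul_le_mul_of_nonneg_right (exp_le_exp.2 (neg_le_neg h1)) (g0_nonneg _)))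
  simp only [bx, be]
  rw [h _ (ht i).1 (by linarith [(ht i).2]), h _ (add_nonneg (ht i).1 hL) (ht i).2]

/-- Coordinatewise `merge`. -/
theorem bx_merge {av : I → AbsoluteValue K ℝ} (ha : ∀ i, Pl (av i)) (c : ∀ i, X (av i))
    {x : I → V K} (hx : ∀ i, x i ≠ 0) {T L : ℝ} (hL : 0 ≤ L)
    (hc : ∀ i, (c i).1 (x i) ≤ exp (-T) * g0 (av i) (x i)) {κ : ℕ} {s : G}
    (hs : ∀ i, Bd (av i) κ s) (hT : 4 * (κ : ℝ) + 1 ≤ T) :
    ∃ δ : I → ℤ, (∀ i, |δ i| ≤ ((2 * κ : ℕ) : ℤ)) ∧ ∀ t : I → ℝ,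
      (∀ i, 4 * (κ : ℝ) + 1 ≤ t i ∧ t i + L ≤ T) →
        bx av L (fun i => ((s • c) i).1) (fun i => t i + δ i) =
          s • bx av L (fun i => (c i).1) t := by
  choose δ h1 h2 using fun i => merge (ha i) (hs i) (c i) (hx i) (hc i) hT
  refine ⟨δ, fun i => by push_cast; exact h1 i, fun t ht => funext fun i => Prod.ext ?_ ?_⟩
  · exact h2 i _ (ht i).1 (by linarith [(ht i).2])
  · have h := h2 i (t i + L) (by linarith [(ht i).1]) (ht i).2
    rw [add_right_comm] at h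
    exact h

/-- Put `L = 4 q + 1`, `ρ = (KK .. + 4) q`, `t0 i = 4 κ + 1 + ρ`, `Ω = UC I K`,
`J = I → Φ × Fin (T + 1)`, `e j = be av L (fun i => (j i).1) (fun i => (j i).2)`, `c0` from
`exists_c0`, `A = range (uc G q ∘ e)` (`uc_solv`), `β c t = bx av L c (fun i => (t i : ℝ))` for
`t : I → ℤ`, `W c = mw (c0 ∘ β c) (uc G q ∘ β c) t0` with `mw` from `exists_mw`. If `c` is deep with
vectors `x i` and `nb ρ t t0`, then `4 κ + 1 ≤ t i`, `t i + L ≤ T`, so `β c t = e j` (`bx_eq_be`).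
Count: `near_pt`, `uc_eq`. Local constancy: the strict inequalities at the `x i` persist near `c`,
so `β c' t = β c t` for `nb ρ t t0`; use the last clause of `exists_mw` with `δ = 0`, `d = 0` in both
directions. Last clause: `bx_merge`, `uc_smul`, `d = 2 κ`. -/
theorem regA [FaithfulSMul G (V K)] {av : I → AbsoluteValue K ℝ} (ha : ∀ i, Pl (av i))
    (hd : Det1 G K) (hL : ∀ g h k : G, (∀ i, av i (dl K g h k) < 1) → dl K g h k = 0)
    {Φ : Finset (V K)} (hΦ : (0 : V K) ∉ Φ) {κ q b T : ℕ} (hq : 0 < q)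
    (hb : (Φ.card * (T + 1)) ^ Fintype.card I ≤ 2 ^ b)
    (hT : 4 * κ + 1 + (4 * q + 1) + 2 * ((KK b q (Fintype.card I) + 4) * q) ≤ T) :
    ∃ (Ω : Type) (_ : MulAction G Ω) (A : Set Ω) (W : (∀ i, X (av i)) → Ω → ℝ), A.Finite ∧
      (∀ ω ∈ A, IsSolvable (MulAction.stabilizer G ω)) ∧ (∀ c ω, 0 ≤ W c ω ∧ W c ω ≤ 1) ∧
      (∀ c, ∃ ω, 1 / 2 ≤ W c ω) ∧
      ∀ c : ∀ i, X (av i), (∀ i, ∃ x ∈ Φ, (c i).1 x < exp (-(T : ℝ)) * g0 (av i) x) →
        (∀ ω, W c ω ≠ 0 → ω ∈ A) ∧ (Function.support (W c)).ncard ≤ 4 ^ Fintype.card I ∧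
        (∀ᶠ c' in 𝓝 c, W c' = W c) ∧
        ∀ s : G, (∀ i, Bd (av i) κ s) → ∀ ω, W c ω ≤ W (s • c) (s • ω) + κ / q := by
  classical
  obtain ⟨mw, m1, m2, m3, m4, m5⟩ := exists_mw I (UC I K) b hq
  generalize hρ : (KK b q (Fintype.card I) + 4) * q = ρ at hT m5
  have hρ2 : 2 * q ≤ ρ := hρ ▸ Nat.mul_le_mul_right _ (by omega)
  have hq0 : (0 : ℝ) < q := by exact_mod_cast hq
  have hL0 : (0 : ℝ) ≤ 4 * q + 1 := by positivity
  let e : (I → Φ × Fin (T + 1)) → Box I K := fun j =>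
    be av (4 * q + 1) (fun i => (j i).1) fun i => (((j i).2 : ℕ) : ℝ)
  obtain ⟨c0, a1, a2, a3⟩ := exists_c0 (G := G) e (b := b) (by simpa using hb)
  let β : (∀ i, X (av i)) → (I → ℤ) → Box I K := fun c t =>
    bx av (4 * q + 1) (fun i => (c i).1) fun i => (t i : ℝ)
  let t0 : I → ℤ := fun _ => 4 * κ + 1 + ρ
  have hz : ∀ t, nb ρ t t0 → ∀ i, 4 * (κ : ℤ) + 1 ≤ t i ∧ t i + (4 * q + 1) ≤ T := fun t ht i => by
    have := abs_le.1 (ht i)
    simp only [t0] at this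
    omega
  have hr : ∀ t, nb ρ t t0 → ∀ i, 4 * (κ : ℝ) + 1 ≤ t i ∧ (t i : ℝ) + (4 * q + 1) ≤ T :=
    fun t ht i => by exact_mod_cast hz t ht i
  have hmono : ∀ t, nb (2 * q) t t0 → nb ρ t t0 := fun t ht i =>
    (ht i).trans (by exact_mod_cast hρ2)
  refine ⟨UC I K, inferInstance, Set.range fun j => uc G q (e j),
    fun c => mw (fun t => c0 (β c t)) (fun t => uc G q (β c t)) t0, Set.finite_range _, ?_,
    fun c ω => m1 _ _ _ _, fun c => m2 _ _ _, fun c hc => ?_⟩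
  · rintro _ ⟨j, rfl⟩
    exact uc_solv ha hd hL hq0.le (by linarith) (fun i h => hΦ (h ▸ (j i).1.2))
      fun i => Nat.cast_nonneg _
  choose x hxΦ hx using hc
  have hx0 : ∀ i, x i ≠ 0 := fun i h => hΦ (h ▸ hxΦ i)
  have hbe : ∀ c' : ∀ i, X (av i), (∀ i, (c' i).1 (x i) < exp (-(T : ℝ)) * g0 (av i) (x i)) →
      ∀ t, nb ρ t t0 → β c' t = be av (4 * q + 1) x fun i => (t i : ℝ) := fun c' h t ht =>
    bx_eq_be ha c' hx0 hL0 (fun i => (h i).le) fun i =>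
      ⟨le_trans (by positivity) (hr t ht i).1, (hr t ht i).2⟩
  have he : ∀ t, nb ρ t t0 → ∃ j, β c t = e j := fun t ht => by
    refine ⟨fun i => (⟨x i, hxΦ i⟩, ⟨(t i).toNat, by have := hz t ht i; omega⟩),
      (hbe c hx t ht).trans (congrArg _ (funext fun i => ?_))⟩
    have h : ((t i).toNat : ℤ) = t i := Int.toNat_of_nonneg (by have := hz t ht i; omega)
    exact_mod_cast h.symm
  refine ⟨fun ω hω => ?_, m4 _ _ _ (fun t => a1 _) fun s t hs ht hst h => ?_, ?_,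
    fun s hs ω => ?_⟩
  · obtain ⟨t, ht, rfl⟩ := m3 _ _ _ _ hω
    obtain ⟨j, hj⟩ := he t (hmono t ht)
    exact ⟨j, congrArg _ hj.symm⟩
  · obtain ⟨j, hj⟩ := he s (hmono s hs)
    obtain ⟨j', hj'⟩ := he t (hmono t ht)
    refine uc_eq ⟨?_, fun i => ?_⟩
    · rw [hj, hj'] at h ⊢
      exact a3 j j' h
    · have h1 : |(s i : ℝ) - t i| ≤ q := by exact_mod_cast hst i
      exact ⟨near_pt h1 (c i).2.1.nn,
        near_pt (by rwa [add_sub_add_right_eq_sub]) (c i).2.1.nn⟩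
  · have key : ∀ c₁ c₂ : ∀ i, X (av i), (∀ t, nb ρ t t0 → β c₂ t = β c₁ t) → ∀ ω,
        mw (fun t => c0 (β c₁ t)) (fun t => uc G q (β c₁ t)) t0 ω ≤
          mw (fun t => c0 (β c₂ t)) (fun t => uc G q (β c₂ t)) t0 ω := fun c₁ c₂ h ω => by
      simpa using m5 (fun t => c0 (β c₁ t)) (fun t => c0 (β c₂ t)) (fun t => uc G q (β c₁ t))
        (fun t => uc G q (β c₂ t)) t0 0 ω ω 0 (fun i => by simp)
        (fun t ht => by rw [add_zero, h t ht]) fun t ht h' => by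
          rw [add_zero, h t (hmono t ht), h']
    have ev : ∀ᶠ c' : ∀ i, X (av i) in 𝓝 c,
        ∀ i, (c' i).1 (x i) < exp (-(T : ℝ)) * g0 (av i) (x i) :=
      eventually_all.2 fun i => ((X.cont_eval (x i)).comp
        (continuous_apply i)).continuousAt.eventually_lt continuousAt_const (hx i)
    refine ev.mono fun c' h => funext fun ω => le_antisymm (key _ _ (fun t ht => ?_) ω)
      (key _ _ (fun t ht => ?_) ω)
    · rw [hbe c hx t ht, hbe c' h t ht]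
    · rw [hbe c hx t ht, hbe c' h t ht]
  · obtain ⟨δ, h1, h2⟩ := bx_merge ha c hx0 hL0 (fun i => (hx i).le) hs
      (by exact_mod_cast (show 4 * κ + 1 ≤ T by omega))
    have h3 : ∀ t, nb ρ t t0 → β (s • c) (t + δ) = s • β c t := fun t ht => by
      simpa only [β, Pi.add_apply, Int.cast_add] using h2 _ (hr t ht)
    have h4 := m5 (fun t => c0 (β c t)) (fun t => c0 (β (s • c) t)) (fun t => uc G q (β c t))
      (fun t => uc G q (β (s • c) t)) t0 δ ω (s • ω) (2 * κ) h1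
      (fun t ht => by rw [h3 t ht, a2]) fun t ht h' => by rw [h3 t (hmono t ht), uc_smul, h']
    rwa [Nat.cast_mul, Nat.cast_ofNat, mul_div_mul_left _ _ two_ne_zero] at h4

end Pool.Agent.Work.MP_9d1ffa_al.G2
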