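import Pool.Agent.Work.MP_9d1ffa_al.G2.Sp

/-! Tropical convexity of `X a`. -/

namespace Pool.Agent.Work.MP_9d1ffa_al.G2

open Real Topology

variable {K : Type} [Field K] {a : AbsoluteValue K ℝ}

theorem Cv_nr {f : V K → ℝ} (c : X a) (h1 : ∀ j, f (ee j) ≤ 1) (h2 : ∀ y, c.1 y ≤ f y) :
    nr f = 1 :=
  le_antisymm (max_le (h1 0) (h1 1)) (c.2.2.ge.trans (max_le_max (h2 _) (h2 _)))

theorem Cv_ee (c : X a) (j : Fin 2) : c.1 (ee j) ≤ 1 := (X.le_g0 c _).trans (g0_ee j).le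

theorem Cv_max {s t : ℝ} (s0 : 0 ≤ s) (s1 : s ≤ 1) (t0 : 0 ≤ t) (t1 : t ≤ 1) (h : s = 1 ∨ t = 1)
    (c c' : X a) : (IsSn a (fun y => max (s * c.1 y) (t * c'.1 y)) ∧
      nr (fun y => max (s * c.1 y) (t * c'.1 y)) = 1) ∧
      ∀ y, min (c.1 y) (c'.1 y) ≤ max (s * c.1 y) (t * c'.1 y) ∧
        max (s * c.1 y) (t * c'.1 y) ≤ max (c.1 y) (c'.1 y) := by
  have k : ∀ y, max (s * c.1 y) (t * c'.1 y) ≤ max (c.1 y) (c'.1 y) := fun y =>
    max_le_max (mul_le_of_le_one_left (c.2.1.nn y) s1) (mul_le_of_le_one_left (c'.2.1.nn y) t1)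
  have k1 : ∀ j, max (s * c.1 (ee j)) (t * c'.1 (ee j)) ≤ 1 := fun j =>
    (k _).trans (max_le (Cv_ee c j) (Cv_ee c' j))
  refine ⟨⟨(c.2.1.const_mul s0).sup (c'.2.1.const_mul t0), ?_⟩, fun y => ⟨?_, k y⟩⟩
  · rcases h with rfl | rfl
    · exact Cv_nr c k1 fun y => le_max_of_le_left (one_mul _).ge
    · exact Cv_nr c' k1 fun y => le_max_of_le_right (one_mul _).ge
  · rcases h with rfl | rfl
    · exact (min_le_left _ _).trans (le_max_of_le_left (one_mul _).ge)
    · exact (min_le_right _ _).trans (le_max_of_le_right (one_mul _).ge)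

theorem Cv_sup {ι : Type} [Fintype ι] (ne : (Finset.univ : Finset ι).Nonempty) (v : ι → X a)
    {w : ι → ℝ} (h0 : ∀ j, 0 ≤ w j) (h1 : ∀ j, w j ≤ 1) {i : ι} (hi : w i = 1) :
    IsSn a (fun y => Finset.univ.sup' ne fun j => w j * (v j).1 y) ∧
      nr (fun y => Finset.univ.sup' ne fun j => w j * (v j).1 y) = 1 := by
  have k : ∀ j y, w j * (v j).1 y ≤ Finset.univ.sup' ne fun j => w j * (v j).1 y := fun j y =>
    Finset.le_sup' (fun j => w j * (v j).1 y) (Finset.mem_univ j)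
  refine ⟨⟨fun y => (mul_nonneg (h0 i) ((v i).2.1.nn y)).trans (k i y), fun t y => ?_,
    fun y z => Finset.sup'_le _ _ fun j _ => ?_⟩, Cv_nr (v i) (fun e => Finset.sup'_le _ _
      fun j _ => mul_le_one₀ (h1 j) ((v j).2.1.nn _) (Cv_ee _ _)) fun y => ?_⟩
  · rw [Finset.mul₀_sup' (a.nonneg t)]
    refine Finset.sup'_congr _ rfl fun j _ => ?_
    rw [(v j).2.1.sm, mul_left_comm]
  · exact (((v j).2.1.const_mul (h0 j)).ad y z).trans (max_le_max (k j y) (k j z))
  · simpa only [hi, one_mul] using k i y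

/-- `sg (t, c, c') y = max (min 1 (2 - 2 t) * c y) (min 1 (2 t) * c' y)`; one of the two
coefficients is `1`, both lie in `[0, 1]`. -/
theorem exists_seg (a : AbsoluteValue K ℝ) :
    ∃ sg : C(unitInterval × X a × X a, X a), (∀ c c', sg (0, c, c') = c) ∧
      (∀ c c', sg (1, c, c') = c') ∧
      ∀ t c c' y, min (c.1 y) (c'.1 y) ≤ (sg (t, c, c')).1 y ∧
        (sg (t, c, c')).1 y ≤ max (c.1 y) (c'.1 y) := by
  have k := fun (t : unitInterval) => Cv_max (a := a) (s := min 1 (2 - 2 * t)) (t := min 1 (2 * t))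
    (le_min zero_le_one (by linarith [t.2.2])) (min_le_left _ _)
    (le_min zero_le_one (by linarith [t.2.1])) (min_le_left _ _)
    ((le_total (2 * t : ℝ) 1).imp (fun h => min_eq_left (by linarith)) min_eq_left)
  refine ⟨⟨fun p => ⟨_, (k p.1 p.2.1 p.2.2).1⟩, Continuous.subtype_mk (continuous_pi fun y => ?_) _⟩,
    fun c c' => Subtype.ext (funext fun y => ?_), fun c c' => Subtype.ext (funext fun y => ?_),
    fun t c c' y => (k t c c').2 y⟩
  · have e := X.cont_eval (a := a) y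
    exact (Continuous.mul (by fun_prop) (e.comp continuous_snd.fst)).max
      (Continuous.mul (by fun_prop) (e.comp continuous_snd.snd))
  · simp [c.2.1.nn y]
  · simp [c'.2.1.nn y]

/-- `p μ y = ⨆ j, μ j / (⨆ j, μ j) * v j y` (finite suprema; `ι` is nonempty as soon as the simplex
has a point, and the case of empty `ι` is trivial since the simplex is empty). -/
theorem exists_comb {ι : Type} [Fintype ι] (v : ι → X a) :
    ∃ p : C(stdSimplex ℝ ι, X a), ∀ (μ : stdSimplex ℝ ι) (y : V K) (lo hi : ℝ),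
      (∀ j, μ.1 j ≠ 0 → lo ≤ (v j).1 y ∧ (v j).1 y ≤ hi) → lo ≤ (p μ).1 y ∧ (p μ).1 y ≤ hi := by
  rcases isEmpty_or_nonempty ι with hι | hι
  · have : IsEmpty (stdSimplex ℝ ι) := ⟨fun μ => by simpa using μ.2.2⟩
    exact ⟨⟨isEmptyElim, continuous_of_discreteTopology⟩, isEmptyElim⟩
  have ne : (Finset.univ : Finset ι).Nonempty := Finset.univ_nonempty
  let M : stdSimplex ℝ ι → ℝ := fun μ => Finset.univ.sup' ne fun j => μ.1 j
  have m1 : ∀ μ j, μ.1 j ≤ M μ := fun μ j => Finset.le_sup' (fun j => μ.1 j) (Finset.mem_univ j)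
  have m0 : ∀ μ, 0 < M μ := fun μ => by
    by_contra h
    have := Finset.sum_nonpos (s := Finset.univ) fun j _ => (m1 μ j).trans (not_lt.1 h)
    linarith [μ.2.2]
  have m2 : ∀ μ, ∃ i, μ.1 i / M μ = 1 := fun μ => by
    obtain ⟨i, -, e⟩ := Finset.exists_mem_eq_sup' ne fun j => μ.1 j
    exact ⟨i, by rw [← e]; exact div_self (m0 μ).ne'⟩
  choose i hi using m2
  have w0 : ∀ (μ : stdSimplex ℝ ι) j, 0 ≤ μ.1 j / M μ := fun μ j =>
    div_nonneg (μ.2.1 j) (m0 μ).le
  have w1 : ∀ (μ : stdSimplex ℝ ι) j, μ.1 j / M μ ≤ 1 := fun μ j =>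
    (div_le_one (m0 μ)).2 (m1 μ j)
  have c0 : ∀ j, Continuous fun μ : stdSimplex ℝ ι => μ.1 j := fun j =>
    (continuous_apply j).comp continuous_subtype_val
  have c1 : Continuous M := Continuous.finset_sup'_apply ne fun j _ => c0 j
  refine ⟨⟨fun μ => ⟨_, Cv_sup ne v (w0 μ) (w1 μ) (hi μ)⟩, Continuous.subtype_mk
    (continuous_pi fun y => Continuous.finset_sup'_apply ne fun j _ =>
      ((c0 j).div c1 fun μ => (m0 μ).ne').mul continuous_const) _⟩, fun μ y lo hi' h => ?_⟩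
  have b := h (i μ) fun e => by simpa [e] using hi μ
  refine ⟨b.1.trans (le_trans ?_ (Finset.le_sup' (fun j => μ.1 j / M μ * (v j).1 y)
    (Finset.mem_univ (i μ)))), Finset.sup'_le ne _ fun j _ => ?_⟩
  · rw [hi μ, one_mul]
  · by_cases e : μ.1 j = 0
    · rw [e, zero_div, zero_mul]
      exact ((v _).2.1.nn y).trans b.2
    · exact (mul_le_of_le_one_left ((v j).2.1.nn y) (w1 μ j)).trans (h j e).2

/-- Uniform closeness. The product is compact (`X.compactSpace`). For instance: the compact set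
`{(c, c') | δ ≤ dist c c'}` is covered by the open sets
`{(c, c') | 1 / (n + 1) < |(c i).1 y - (c' i).1 y|}` indexed by `(i, y, n)`; take a finite
subcover. -/
theorem unif {I : Type} (av : I → AbsoluteValue K ℝ) (d : (∀ i, X (av i)) × (∀ i, X (av i)) → ℝ)
    (hd : Continuous d) (h0 : ∀ c, d (c, c) = 0) {δ : ℝ} (hδ : 0 < δ) :
    ∃ (Φ : Finset (V K)) (ξ : ℝ), 0 < ξ ∧ ∀ c c' : ∀ i, X (av i),
      (∀ i, ∀ y ∈ Φ, |(c i).1 y - (c' i).1 y| ≤ ξ) → d (c, c') ≤ δ := by
  classical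
  have := fun i => X.compactSpace (a := av i)
  obtain ⟨t, ht⟩ := (isClosed_le continuous_const hd : IsClosed {p | δ ≤ d p}).isCompact
    |>.elim_finite_subcover (fun u : I × V K × ℕ =>
      {p | 1 / ((u.2.2 : ℝ) + 1) < |(p.1 u.1).1 u.2.1 - (p.2 u.1).1 u.2.1|})
      (fun u => isOpen_lt continuous_const
        (((X.cont_eval u.2.1).comp ((continuous_apply u.1).comp continuous_fst)).sub
          ((X.cont_eval u.2.1).comp ((continuous_apply u.1).comp continuous_snd))).abs)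
      (fun p hp => by
        by_contra k
        have e : p.1 = p.2 := funext fun i => Subtype.ext (funext fun y => by
          by_contra q
          obtain ⟨n, hn⟩ := exists_nat_one_div_lt (abs_pos.2 (sub_ne_zero.2 q))
          exact k (Set.mem_iUnion.2 ⟨(i, y, n), hn⟩))
        have : δ ≤ d (p.1, p.2) := hp
        rw [← e, h0] at this
        exact this.not_gt hδ)
  refine ⟨t.image fun u => u.2.1, 1 / ((t.sup fun u => u.2.2 : ℕ) + 1), by positivity,
    fun c c' h => ?_⟩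
  by_contra k
  obtain ⟨u, hu, q⟩ := Set.mem_iUnion₂.1 (ht (show δ ≤ d (c, c') from (not_le.1 k).le))
  refine (lt_of_lt_of_le q (h u.1 u.2.1 (Finset.mem_image_of_mem _ hu))).not_ge ?_
  gcongr
  exact Finset.le_sup (f := fun u : I × V K × ℕ => u.2.2) hu

end Pool.Agent.Work.MP_9d1ffa_al.G2
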