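import Pool.Agent.Work.MP_9d1ffa_al.G2.SnB

/-! Weights of a norm on classes of discrete norms. -/

namespace Pool.Agent.Work.MP_9d1ffa_al.G2

open Real

variable {K : Type} [Field K] {a : AbsoluteValue K ℝ}
variable {G : Type} [Group G] [DistribMulAction G (V K)] [SMulCommClass G K (V K)]

/-- Evaluate at `ee 0`, where `ν` is positive. -/
theorem wtS_le {Q : ℕ} (hQ : 0 < Q) {B : V K → ℝ} {C : Cls K} {l : ℝ} (h : l ∈ wtS Q B C) :
    l ≤ 1 := by
  obtain ⟨ν, -, hν, t, ht, h⟩ := h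
  obtain ⟨n, hn⟩ := hν (ee 0) (ee_ne 0)
  have hpos : 0 < t * ν (ee 0) := mul_pos ht (hn ▸ exp_pos _)
  have h1 : 1 * (t * ν (ee 0)) ≤ exp ((1 - l) / Q) * (t * ν (ee 0)) := by
    rw [one_mul]
    exact (h _).1.trans (h _).2
  have h2 := one_le_exp_iff.1 (le_of_mul_le_mul_right h1 hpos)
  have hQ' : (0 : ℝ) < Q := Nat.cast_pos.2 hQ
  have h3 := (le_div_iff₀ hQ').1 h2
  linarith

theorem Wt_bdd {Q : ℕ} (hQ : 0 < Q) (B : V K → ℝ) (C : Cls K) :
    BddAbove (insert 0 (wtS Q B C)) := by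
  refine ⟨1, fun l hl => ?_⟩
  rcases hl with rfl | hl
  · exact zero_le_one
  · exact wtS_le hQ hl

theorem wt_nonneg {Q : ℕ} (hQ : 0 < Q) (B : V K → ℝ) (C : Cls K) : 0 ≤ wt Q B C := by
  exact le_csSup (Wt_bdd hQ B C) (Set.mem_insert _ _)

theorem Wt_le {Q : ℕ} {B : V K → ℝ} {C : Cls K} {r : ℝ} (h0 : 0 ≤ r)
    (h : ∀ l ∈ wtS Q B C, l ≤ r) : wt Q B C ≤ r := by
  refine csSup_le (Set.insert_nonempty _ _) fun l hl => ?_
  rcases hl with rfl | hl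
  · exact h0
  · exact h l hl

theorem wt_le_one {Q : ℕ} (hQ : 0 < Q) (B : V K → ℝ) (C : Cls K) : wt Q B C ≤ 1 := by
  exact Wt_le zero_le_one fun l hl => wtS_le hQ hl

theorem le_wt {Q : ℕ} (hQ : 0 < Q) {B : V K → ℝ} {C : Cls K} {l : ℝ} (h : l ∈ wtS Q B C) :
    l ≤ wt Q B C := by
  exact le_csSup (Wt_bdd hQ B C) (Set.mem_insert_of_mem _ h)

/-- If `l ∈ wtS Q B C` via `ν, t` then `l - 2 Q η ∈ wtS Q B' (g • C)` via `mv g ν` and
`t * exp (-η) / u`. -/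
theorem wt_mv {Q : ℕ} (hQ : 0 < Q) {B B' : V K → ℝ} (g : G) {u η : ℝ} (hu : 0 < u) (hη : 0 ≤ η)
    (h : ∀ y, mv g B y ≤ exp η * (u * B' y) ∧ u * B' y ≤ exp η * mv g B y) (C : Cls K) :
    wt Q B C ≤ wt Q B' (g • C) + 2 * Q * η := by
  have hQ' : (0 : ℝ) < Q := Nat.cast_pos.2 hQ
  have h0 : 0 ≤ 2 * (Q : ℝ) * η := by positivity
  refine Wt_le (add_nonneg (wt_nonneg hQ _ _) h0) fun l hl => ?_
  obtain ⟨ν, rfl, hν, t, ht, hl⟩ := hl
  have hmem : l - 2 * Q * η ∈ wtS Q B' (g • cl ν) := by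
    refine ⟨mv g ν, smul_cl g ν, fun y hy => hν _ fun h1 => hy ?_, t * exp (-η) / u,
      by positivity, fun y => ⟨?_, ?_⟩⟩
    · have h2 := congrArg (fun z => g • z) h1
      simpa using h2
    · have h1 : t * mv g ν y ≤ exp η * (u * B' y) := (hl (g⁻¹ • y)).1.trans (h y).1
      have h2 : exp (-η) * exp η = 1 := by rw [← exp_add, neg_add_cancel, exp_zero]
      have h3 : exp (-η) / u * (t * mv g ν y) ≤ exp (-η) / u * (exp η * (u * B' y)) :=
        mul_le_mul_of_nonneg_left h1 (by positivity)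
      calc t * exp (-η) / u * mv g ν y = exp (-η) / u * (t * mv g ν y) := by ring
        _ ≤ exp (-η) / u * (exp η * (u * B' y)) := h3
        _ = (exp (-η) * exp η) * B' y := by field_simp
        _ = B' y := by rw [h2, one_mul]
    · have h1 : u * B' y ≤ exp η * (exp ((1 - l) / Q) * (t * mv g ν y)) :=
        (h y).2.trans (mul_le_mul_of_nonneg_left (hl (g⁻¹ • y)).2 (exp_pos η).le)
      have h2 : exp ((1 - (l - 2 * Q * η)) / Q) * exp (-η) = exp η * exp ((1 - l) / Q) := by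
        rw [← exp_add, ← exp_add]
        refine congrArg exp ?_
        field_simp
        ring
      refine le_of_mul_le_mul_left ?_ hu
      calc u * B' y ≤ exp η * (exp ((1 - l) / Q) * (t * mv g ν y)) := h1
        _ = (exp ((1 - (l - 2 * Q * η)) / Q) * exp (-η)) * (t * mv g ν y) := by
          rw [h2]
          ring
        _ = u * (exp ((1 - (l - 2 * Q * η)) / Q) * (t * exp (-η) / u * mv g ν y)) := by
          field_simp
  have h1 := le_wt hQ hmem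
  linarith

theorem wt_pert {Q : ℕ} (hQ : 0 < Q) {B B' : V K → ℝ} {η : ℝ} (hη : 0 ≤ η)
    (h : ∀ y, B y ≤ exp η * B' y ∧ B' y ≤ exp η * B y) (C : Cls K) :
    wt Q B C ≤ wt Q B' C + 2 * Q * η := by
  have h1 := wt_mv hQ (1 : Kˣ) (B := B) (B' := B') one_pos hη
    (fun y => by rw [mv_one, one_mul]; exact h y) C
  rwa [one_smul] at h1

theorem Wt_form (ha : Pl a) {x : V K} (hx : x ≠ 0) {y : V K} (hy : y ≠ 0) :
    ∃ n₂ : ℤ, (∀ D : ℝ, bt a x D y = exp (n₂ - D)) ∨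
      ∃ n₁ : ℤ, ∀ D : ℝ, bt a x D y = exp (max (n₁ : ℝ) (n₂ - D)) := by
  obtain ⟨n₀, h₀⟩ := g0_exp ha hx
  obtain ⟨n₂, h₂⟩ := g0_exp ha hy
  have h2 : ∀ D : ℝ, exp (-D) * g0 a y = exp (n₂ - D) := fun D => by
    rw [h₂, ← exp_add]
    refine congrArg exp ?_
    ring
  refine ⟨n₂, ?_⟩
  by_cases hd : dt x y = 0
  · refine Or.inl fun D => ?_
    unfold bt
    rw [hd, h2, map_zero, zero_div]
    exact max_eq_right (exp_pos _).le
  · obtain ⟨n₁, h₁⟩ := ha.val _ hd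
    refine Or.inr ⟨n₁ - n₀, fun D => ?_⟩
    unfold bt
    rw [h2, h₁, h₀, ← exp_sub, exp_monotone.map_max]
    push_cast
    rfl

theorem bt_disc (ha : Pl a) {Q : ℕ} (hQ : 0 < Q) {x : V K} (hx : x ≠ 0) (j : ℤ) :
    Disc Q (bt a x (j / Q)) := by
  have hQ' : (Q : ℝ) ≠ 0 := (Nat.cast_pos.2 hQ).ne'
  intro y hy
  obtain ⟨n₂, h | ⟨n₁, h⟩⟩ := Wt_form ha hx hy
  · refine ⟨Q * n₂ - j, ?_⟩
    rw [h]
    refine congrArg exp ?_
    push_cast
    field_simp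
  · rw [h]
    rcases max_choice (n₁ : ℝ) (n₂ - j / Q) with h1 | h1
    · refine ⟨Q * n₁, ?_⟩
      rw [h1]
      refine congrArg exp ?_
      push_cast
      field_simp
    · refine ⟨Q * n₂ - j, ?_⟩
      rw [h1]
      refine congrArg exp ?_
      push_cast
      field_simp

theorem Wt_floor {Q : ℕ} (hQ : 0 < Q) {t l β : ℝ} (ht : 0 < t) (hl : 0 < l) {n : ℤ}
    (h1 : t * exp (n / Q) ≤ exp β) (h2 : exp β ≤ exp ((1 - l) / Q) * (t * exp (n / Q))) :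
    ⌊Q * (β - Real.log t)⌋ = n := by
  have hQ' : (0 : ℝ) < Q := Nat.cast_pos.2 hQ
  rw [← exp_log ht, ← exp_add] at h1
  rw [← exp_log ht, ← exp_add, ← exp_add] at h2
  have h3 := mul_le_mul_of_nonneg_left (exp_le_exp.1 h1) hQ'.le
  have h4 := mul_le_mul_of_nonneg_left (exp_le_exp.1 h2) hQ'.le
  have e1 : (Q : ℝ) * (Real.log t + n / Q) = Q * Real.log t + n := by field_simp
  have e2 : (Q : ℝ) * ((1 - l) / Q + (Real.log t + n / Q)) = 1 - l + (Q * Real.log t + n) := by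
    field_simp
  rw [e1] at h3
  rw [e2] at h4
  rw [Int.floor_eq_iff, mul_sub]
  constructor <;> linarith

theorem Wt_floor_int (Q : ℕ) (n : ℤ) (v : ℝ) : ⌊(Q : ℝ) * (n + v)⌋ = Q * n + ⌊Q * v⌋ := by
  have h : (Q : ℝ) * (n + v) = ((Q * n : ℤ) : ℝ) + Q * v := by
    push_cast
    ring
  rw [h, Int.floor_intCast_add]

/-- Rounding. There is `l > 0` in `wtS`, with data `ν, t`. For `y ≠ 0`, `ν y = exp (n / Q)` and
`n ≤ Q * (log (B y) - log t) < n + 1`, so `n = ⌊Q * (log (B y) - log t)⌋`; also `ν 0 = 0`. Now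
`B y = max (exp n1) (exp (n2 - D))` with integers `n1, n2` (the first entry is `0` if `dt x y = 0`),
the floor is monotone and `⌊Q * n1 + v⌋ = Q * n1 + ⌊v⌋`. With `p = ⌊-Q log t⌋`,
`p' = ⌊-Q log t - Q D⌋` we get `ν = exp (p / Q) * bt a x ((p - p') / Q)` and
`p - p' ∈ {⌊Q D⌋, ⌊Q D⌋ + 1}`. -/
theorem wt_supp (ha : Pl a) {Q : ℕ} (hQ : 0 < Q) {x : V K} (hx : x ≠ 0) {D : ℝ} (hD : 0 ≤ D)
    {C : Cls K} (h : wt Q (bt a x D) C ≠ 0) :
    C = cl (bt a x ((⌊Q * D⌋₊ : ℝ) / Q)) ∨ C = cl (bt a x (((⌊Q * D⌋₊ : ℝ) + 1) / Q)) := by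
  have hQ' : (0 : ℝ) < Q := Nat.cast_pos.2 hQ
  obtain ⟨l, hl, hl0⟩ : ∃ l ∈ wtS Q (bt a x D) C, 0 < l := by
    by_contra hc
    refine h (le_antisymm (Wt_le le_rfl fun l hl => ?_) (wt_nonneg hQ _ _))
    exact not_lt.1 fun h0 => hc ⟨l, hl, h0⟩
  obtain ⟨ν, rfl, hν, t, ht, hl⟩ := hl
  obtain ⟨p, hp⟩ : ∃ p : ℤ, p = ⌊Q * (-Real.log t)⌋ := ⟨_, rfl⟩
  obtain ⟨p', hp'⟩ : ∃ p' : ℤ, p' = ⌊Q * (-D - Real.log t)⌋ := ⟨_, rfl⟩
  have hνe : ν = fun y => exp (p / Q) * bt a x (((p - p' : ℤ) : ℝ) / Q) y := by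
    funext y
    by_cases hy : y = 0
    · subst hy
      have h1 := hl 0
      rw [(bt_isSn ha x D).zero] at h1
      rw [(bt_isSn ha x _).zero, mul_zero]
      have h2 : t * ν 0 = 0 :=
        le_antisymm h1.1 (nonneg_of_mul_nonneg_right h1.2 (exp_pos _))
      exact (mul_eq_zero.1 h2).resolve_left ht.ne'
    · obtain ⟨n, hn⟩ := hν y hy
      have h1 := hl y
      rw [hn] at h1 ⊢
      have f2 : ∀ n₂ : ℤ, ⌊(Q : ℝ) * (n₂ - D - Real.log t)⌋ = Q * n₂ + p' := fun n₂ => by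
        rw [hp', ← Wt_floor_int]
        refine congrArg Int.floor ?_
        ring
      have f1 : ∀ n₁ : ℤ, ⌊(Q : ℝ) * (n₁ - Real.log t)⌋ = Q * n₁ + p := fun n₁ => by
        rw [hp, ← Wt_floor_int, sub_eq_add_neg]
      obtain ⟨n₂, hf | ⟨n₁, hf⟩⟩ := Wt_form ha hx hy
      · rw [hf] at h1 ⊢
        have h2 := Wt_floor hQ ht hl0 h1.1 h1.2
        rw [f2] at h2
        rw [← h2, ← exp_add]
        refine congrArg exp ?_
        push_cast
        field_simp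
        ring
      · rw [hf] at h1 ⊢
        have h2 := Wt_floor hQ ht hl0 h1.1 h1.2
        rw [← max_sub_sub_right, mul_max_of_nonneg _ _ hQ'.le, Int.floor_mono.map_max, f1,
          f2] at h2
        rw [← h2, ← exp_add]
        refine congrArg exp ?_
        push_cast
        rw [← max_div_div_right hQ'.le, ← max_add_add_left]
        refine congrArg₂ max ?_ ?_
        · field_simp
          ring
        · field_simp
          ring
  have hC : cl ν = cl (bt a x (((p - p' : ℤ) : ℝ) / Q)) := by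
    rw [hνe]
    exact cl_mul _ (exp_pos _)
  have hQD : 0 ≤ Q * D := mul_nonneg hQ'.le hD
  have m1 := Nat.floor_le hQD
  have m2 := Nat.lt_floor_add_one (Q * D)
  have a1 : p' ≤ p - (⌊Q * D⌋₊ : ℤ) := by
    rw [hp, hp', ← Int.floor_sub_intCast]
    refine Int.floor_mono ?_
    push_cast
    linarith
  have a2 : p - ((⌊Q * D⌋₊ : ℤ) + 1) ≤ p' := by
    rw [hp, hp', ← Int.floor_sub_intCast]
    refine Int.floor_mono ?_
    push_cast
    linarith
  rw [hC]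
  rcases (by omega : p - p' = (⌊Q * D⌋₊ : ℤ) ∨ p - p' = (⌊Q * D⌋₊ : ℤ) + 1) with h1 | h1
  · left
    rw [h1]
    push_cast
    rfl
  · right
    rw [h1]
    push_cast
    rfl

theorem Wt_bt_le (x : V K) {D E : ℝ} (h : E ≤ D) (y : V K) : bt a x D y ≤ bt a x E y :=
  max_le_max le_rfl
    (mul_le_mul_of_nonneg_right (exp_le_exp.2 (neg_le_neg h)) (g0_nonneg y))

theorem Wt_bt_ge (x : V K) {D E : ℝ} (h : E ≤ D) (y : V K) :
    bt a x E y ≤ exp (D - E) * bt a x D y := by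
  unfold bt
  rw [mul_max_of_nonneg _ _ (exp_pos _).le]
  refine max_le_max (le_mul_of_one_le_left (div_nonneg (a.nonneg _) (g0_nonneg x))
    (one_le_exp (sub_nonneg.2 h))) (le_of_eq ?_)
  rw [← mul_assoc, ← exp_add]
  refine congrArg (fun z => exp z * g0 a y) ?_
  ring

/-- With `f = Q D - ⌊Q D⌋`: `1 - f ∈ wtS` for the first class (`t = exp (-f / Q)`), and `f ∈ wtS`
for the second class (`t = 1`). -/
theorem wt_big (ha : Pl a) {Q : ℕ} (hQ : 0 < Q) {x : V K} (hx : x ≠ 0) {D : ℝ} (hD : 0 ≤ D) :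
    1 / 2 ≤ wt Q (bt a x D) (cl (bt a x ((⌊Q * D⌋₊ : ℝ) / Q))) ∨
      1 / 2 ≤ wt Q (bt a x D) (cl (bt a x (((⌊Q * D⌋₊ : ℝ) + 1) / Q))) := by
  have hQ' : (0 : ℝ) < Q := Nat.cast_pos.2 hQ
  have hQD : 0 ≤ Q * D := mul_nonneg hQ'.le hD
  have m1 := Nat.floor_le hQD
  have m2 := Nat.lt_floor_add_one (Q * D)
  obtain ⟨m, hm⟩ : ∃ m : ℕ, m = ⌊Q * D⌋₊ := ⟨_, rfl⟩
  rw [← hm] at m1 m2 ⊢
  have l1 : (m : ℝ) / Q ≤ D := by
    rw [div_le_iff₀ hQ']
    linarith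
  have l2 : D ≤ ((m : ℝ) + 1) / Q := by
    rw [le_div_iff₀ hQ']
    linarith
  have d1 : Disc Q (bt a x ((m : ℝ) / Q)) := by simpa using bt_disc ha hQ hx (m : ℤ)
  have d2 : Disc Q (bt a x (((m : ℝ) + 1) / Q)) := by
    simpa using bt_disc ha hQ hx ((m : ℤ) + 1)
  have w1 : 1 - (Q * D - m) ∈ wtS Q (bt a x D) (cl (bt a x ((m : ℝ) / Q))) := by
    have e0 : exp (-(D - m / Q)) * exp (D - m / Q) = 1 := by
      rw [← exp_add, neg_add_cancel, exp_zero]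
    refine ⟨_, rfl, d1, exp (-(D - m / Q)), exp_pos _, fun y => ⟨?_, ?_⟩⟩
    · refine (mul_le_mul_of_nonneg_left (Wt_bt_ge x l1 y) (exp_pos _).le).trans (le_of_eq ?_)
      rw [← mul_assoc, e0, one_mul]
    · have e1 : (1 - (1 - (Q * D - m))) / (Q : ℝ) = D - m / Q := by
        field_simp
        ring
      rw [e1, ← mul_assoc, mul_comm (exp _), e0, one_mul]
      exact Wt_bt_le x l1 y
  have w2 : Q * D - m ∈ wtS Q (bt a x D) (cl (bt a x (((m : ℝ) + 1) / Q))) := by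
    refine ⟨_, rfl, d2, 1, one_pos, fun y => ⟨?_, ?_⟩⟩
    · rw [one_mul]
      exact Wt_bt_le x l2 y
    · have e1 : (1 - (Q * D - m)) / (Q : ℝ) = ((m : ℝ) + 1) / Q - D := by
        field_simp
        ring
      rw [e1, one_mul]
      exact Wt_bt_ge x l2 y
  have v1 := le_wt hQ w1
  have v2 := le_wt hQ w2
  rcases le_total (Q * D - m) (1 / 2) with h | h
  · left
    linarith
  · right
    linarith

end Pool.Agent.Work.MP_9d1ffa_al.G2
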