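import Pool.Agent.Work.MP_9d1ffa_al.G2.Sp
import Pool.Agent.Work.MP_9d1ffa_al.G2.Wt

/-! The depth `DD` and continuity of truncations and weights. -/

namespace Pool.Agent.Work.MP_9d1ffa_al.G2

open Real Topology Filter

variable {K : Type} [Field K] {a : AbsoluteValue K ℝ}

theorem Dd_inf_le {Φ : Finset (V K)} (c : V K → ℝ) {x : V K} (hx : x ∈ Φ) :
    (⨅ x : Φ, c x / g0 a x) ≤ c x / g0 a x :=
  ciInf_le (f := fun x : Φ => c x / g0 a x) (Finite.bddBelow_range _) ⟨x, hx⟩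

theorem Dd_pos {Φ : Finset (V K)} (hΦ : (0 : V K) ∉ Φ) {x : V K} (hx : x ∈ Φ) : 0 < g0 a x :=
  g0_pos fun h => hΦ (h ▸ hx)

theorem exp_neg_DD (T : ℝ) (Φ : Finset (V K)) (c : V K → ℝ) :
    exp (-DD a T Φ c) = max (exp (-T)) (⨅ x : Φ, c x / g0 a x) := by
  rw [DD, neg_neg, exp_log (lt_max_of_lt_left (exp_pos _))]

theorem DD_le (T : ℝ) (Φ : Finset (V K)) (c : V K → ℝ) : DD a T Φ c ≤ T := by
  refine neg_le_neg_iff.1 (exp_le_exp.1 ?_)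
  rw [exp_neg_DD]
  exact le_max_left _ _

theorem DD_nonneg {T : ℝ} (hT : 0 ≤ T) {Φ : Finset (V K)} (hΦ : Ok Φ) (c : X a) :
    0 ≤ DD a T Φ c.1 := by
  refine neg_nonpos.1 (exp_le_one_iff.1 ?_)
  rw [exp_neg_DD]
  exact max_le (exp_le_one_iff.2 (neg_nonpos.2 hT)) ((Dd_inf_le _ hΦ.e0).trans
    ((div_le_one (Dd_pos hΦ.nz hΦ.e0)).2 (X.le_g0 c _)))

theorem DD_ex (T : ℝ) {Φ : Finset (V K)} (hΦ : Ok Φ) (c : V K → ℝ) :
    ∃ x ∈ Φ, c x ≤ exp (-DD a T Φ c) * g0 a x := by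
  have : Nonempty Φ := ⟨⟨_, hΦ.e0⟩⟩
  obtain ⟨x, hx⟩ := exists_eq_ciInf_of_finite (f := fun x : Φ => c x / g0 a x)
  refine ⟨x, x.2, (div_le_iff₀ (Dd_pos hΦ.nz x.2)).1 ?_⟩
  rw [exp_neg_DD]
  exact hx.le.trans (le_max_right _ _)

theorem le_DD {T : ℝ} {Φ : Finset (V K)} (hΦ : Ok Φ) {c : V K → ℝ} {x : V K} (hx : x ∈ Φ)
    {D : ℝ} (h : c x ≤ exp (-D) * g0 a x) (hD : D ≤ T) : D ≤ DD a T Φ c := by
  refine neg_le_neg_iff.1 (exp_le_exp.1 ?_)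
  rw [exp_neg_DD]
  exact max_le (exp_le_exp.2 (neg_le_neg hD))
    ((Dd_inf_le _ hx).trans ((div_le_iff₀ (Dd_pos hΦ.nz hx)).2 h))

theorem DD_agree {T : ℝ} {Φ : Finset (V K)} (hΦ : Ok Φ) {c : V K → ℝ} (h : DD a T Φ c < T)
    {x : V K} (hx : x ∈ Φ) : pt a c (DD a T Φ c) x = c x := by
  refine max_eq_left ((le_div_iff₀ (Dd_pos hΦ.nz hx)).1 ?_)
  have h1 := exp_lt_exp.2 (neg_lt_neg h)
  rw [exp_neg_DD] at h1 ⊢
  exact (max_eq_right (lt_max_iff.1 h1 |>.resolve_left (lt_irrefl _)).le).le.trans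
    (Dd_inf_le _ hx)

theorem DD_mono (T : ℝ) {Φ Φ' : Finset (V K)} (hΦ : Ok Φ) (hΦ' : Ok Φ') (h : Φ ⊆ Φ')
    (c : V K → ℝ) : DD a T Φ c ≤ DD a T Φ' c := by
  obtain ⟨x, hx, h1⟩ := DD_ex (a := a) T hΦ c
  exact le_DD hΦ' (h hx) h1 (DD_le T Φ c)

/-- A finite infimum of continuous functions (`Finset.inf'`, `Continuous.finset_inf'_apply` or
`continuous_iInf`-type lemmas for finite index types). -/
theorem DD_cont (T : ℝ) {Φ : Finset (V K)} (hΦ : Ok Φ) :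
    Continuous fun c : X a => DD a T Φ c.1 := by
  have : Nonempty Φ := ⟨⟨_, hΦ.e0⟩⟩
  have h : Continuous fun c : X a => ⨅ x : Φ, c.1 x / g0 a x := by
    simp only [← Finset.inf'_univ_eq_ciInf]
    exact Continuous.finset_inf'_apply _ fun x _ => (X.cont_eval _).div_const _
  exact ((continuous_const.max h).log fun c => (lt_max_of_lt_left (exp_pos _)).ne').neg

/-- `le_bt` with the vector of `DD_ex`, then `pt_eq_bt`. -/
theorem le_pt_DD (ha : Pl a) {T : ℝ} (hT : 0 ≤ T) {Φ : Finset (V K)} (hΦ : Ok Φ) (c : X a)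
    {c' : V K → ℝ} (hc' : IsSn a c') (h : ∀ x ∈ Φ, c' x ≤ c.1 x) (y : V K) :
    c' y ≤ pt a c.1 (DD a T Φ c.1) y := by
  obtain ⟨x, hx, h1⟩ := DD_ex (a := a) T hΦ c.1
  have h0 : x ≠ 0 := fun e => hΦ.nz (e ▸ hx)
  rw [pt_eq_bt ha c.2.1 c.2.2 h0 (DD_nonneg hT hΦ c) h1]
  exact le_bt ha hc' ((max_le_max (h _ hΦ.e0) (h _ hΦ.e1)).trans c.2.2.le) h0
    ((h x hx).trans h1) y

/-- Near `c`: `|D c' - D c| ≤ η` and `|c' x - c x| ≤ (exp η - 1) * exp (-T) * g0 a x` for all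
`x ∈ Φ`; then `pt_le_pt` in both directions. -/
theorem pt_close (ha : Pl a) {Φ : Finset (V K)} (hΦ : (0 : V K) ∉ Φ) {T : ℝ} {D : X a → ℝ}
    (hD : Continuous D) (h0 : ∀ c, 0 ≤ D c ∧ D c ≤ T)
    (hx : ∀ c : X a, ∃ x ∈ Φ, c.1 x ≤ exp (-D c) * g0 a x) (c : X a) {η : ℝ} (hη : 0 < η) :
    ∀ᶠ c' in 𝓝 c, ∀ y, pt a c'.1 (D c') y ≤ exp η * pt a c.1 (D c) y ∧
      pt a c.1 (D c) y ≤ exp η * pt a c'.1 (D c') y := by
  have key : ∀ c c' : X a, D c ≤ D c' + η →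
      (∀ x ∈ Φ, c'.1 x ≤ c.1 x + (exp η - 1) * (exp (-T) * g0 a x)) →
      ∀ y, pt a c'.1 (D c') y ≤ exp η * pt a c.1 (D c) y := fun c c' h1 h2 y => by
    obtain ⟨x, h3, h4⟩ := hx c
    refine pt_le_pt ha c.2.1 c.2.2 c'.2.1 c'.2.2 (fun e => hΦ (e ▸ h3)) (h0 c).1 (h0 c').1 hη.le
      h4 ?_ h1 y
    have h5 := mul_le_mul_of_nonneg_left (mul_le_mul_of_nonneg_right
      (exp_le_exp.2 (neg_le_neg (h0 c).2)) (g0_nonneg (a := a) x))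
      (sub_nonneg.2 (one_le_exp hη.le))
    linarith [h2 x h3]
  have h1 := Metric.tendsto_nhds.1 (hD.tendsto c) η hη
  have h2 : ∀ᶠ c' : X a in 𝓝 c, ∀ x ∈ Φ,
      dist (c'.1 x) (c.1 x) < (exp η - 1) * (exp (-T) * g0 a x) :=
    (eventually_all_finset Φ).2 fun x hx => Metric.tendsto_nhds.1 ((X.cont_eval x).tendsto c) _
      (mul_pos (sub_pos.2 (one_lt_exp_iff.2 hη)) (mul_pos (exp_pos _) (Dd_pos hΦ hx)))
  filter_upwards [h1, h2] with c' h1 h2 y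
  simp only [Real.dist_eq, abs_lt] at h1 h2
  exact ⟨key c c' (by linarith [h1.1]) (fun x hx => by linarith [(h2 x hx).2]) y,
    key c' c (by linarith [h1.2]) (fun x hx => by linarith [(h2 x hx).1]) y⟩

/-- `pt_close` and `wt_pert`. -/
theorem wt_cont (ha : Pl a) {Φ : Finset (V K)} (hΦ : (0 : V K) ∉ Φ) {T : ℝ} {D : X a → ℝ}
    (hD : Continuous D) (h0 : ∀ c, 0 ≤ D c ∧ D c ≤ T)
    (hx : ∀ c : X a, ∃ x ∈ Φ, c.1 x ≤ exp (-D c) * g0 a x) {Q : ℕ} (hQ : 0 < Q) (C : Cls K) :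
    Continuous fun c : X a => wt Q (pt a c.1 (D c)) C := by
  refine continuous_iff_continuousAt.2 fun c => Metric.tendsto_nhds.2 fun ε hε => ?_
  have hQ' : (0 : ℝ) < Q := Nat.cast_pos.2 hQ
  have hη : 0 < ε / (4 * Q) := by positivity
  have e : 2 * Q * (ε / (4 * Q)) = ε / 2 := by field_simp; ring
  filter_upwards [pt_close ha hΦ hD h0 hx c hη] with c' h
  have h1 := wt_pert hQ hη.le h C
  have h2 := wt_pert hQ hη.le (fun y => (h y).symm) C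
  rw [Real.dist_eq, abs_lt]
  constructor <;> linarith

end Pool.Agent.Work.MP_9d1ffa_al.G2
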