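import Pool.Agent.Work.MP_9d1ffa_al.G2.Dd

/-! Domination of `X a` by a finite graph. -/

namespace Pool.Agent.Work.MP_9d1ffa_al.G2

open Real Topology

variable {K : Type} [Field K] {a : AbsoluteValue K ℝ}

theorem DomA_exp_aux {D E : ℝ} (hD : 0 ≤ D) (h : D ≤ E) :
    0 ≤ exp (-D) - exp (-E) ∧ exp (-D) - exp (-E) ≤ E - D := by
  have h1 : exp (-E) = exp (-D) * exp (-(E - D)) := by
    rw [← exp_add]
    exact congrArg exp (by ring)
  have h2 : 1 - (E - D) ≤ exp (-(E - D)) := by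
    have := add_one_le_exp (-(E - D))
    linarith
  have h3 : exp (-D) ≤ 1 := exp_le_one_iff.2 (by linarith)
  have h4 : 0 < exp (-D) := exp_pos _
  have h5 : exp (-E) ≤ exp (-D) := exp_le_exp.2 (by linarith)
  refine ⟨by linarith, ?_⟩
  have h6 : exp (-D) * (1 - (E - D)) ≤ exp (-D) * exp (-(E - D)) :=
    mul_le_mul_of_nonneg_left h2 h4.le
  have h7 : exp (-D) * (E - D) ≤ 1 * (E - D) := mul_le_mul_of_nonneg_right h3 (by linarith)
  rw [h1]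
  linarith

theorem DomA_exp_lip {D E : ℝ} (hD : 0 ≤ D) (hE : 0 ≤ E) : |exp (-D) - exp (-E)| ≤ |D - E| := by
  rcases le_total D E with h | h
  · obtain ⟨h1, h2⟩ := DomA_exp_aux hD h
    rw [abs_of_nonneg h1, abs_of_nonpos (by linarith)]
    linarith
  · obtain ⟨h1, h2⟩ := DomA_exp_aux hE h
    rw [abs_of_nonpos (by linarith), abs_of_nonneg (by linarith)]
    linarith

/-- Two norms `bt` in the same direction at close depths. -/
theorem bt_sub_le (x : V K) {D E ζ : ℝ} (hD : 0 ≤ D) (hE : 0 ≤ E) (h : |D - E| ≤ ζ) (y : V K) :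
    |bt a x D y - bt a x E y| ≤ ζ * g0 a y := by
  have hg : 0 ≤ g0 a y := g0_nonneg y
  unfold bt
  rw [max_comm (a (dt x y) / g0 a x) (exp (-D) * g0 a y),
    max_comm (a (dt x y) / g0 a x) (exp (-E) * g0 a y)]
  refine (abs_max_sub_max_le_abs _ _ _).trans ?_
  rw [← sub_mul, abs_mul, abs_of_nonneg hg]
  exact mul_le_mul_of_nonneg_right ((DomA_exp_lip hD hE).trans h) hg

/-- On `Φ` the truncation at depth `DD` is close to `c` (`DD_agree`, `DD_le`). -/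
theorem pt_DD_sub_le {T : ℝ} {Φ : Finset (V K)} (hΦ : Ok Φ) (c : X a) {y : V K} (hy : y ∈ Φ) :
    |pt a c.1 (DD a T Φ c.1) y - c.1 y| ≤ exp (-T) * g0 a y := by
  have hg : 0 ≤ exp (-T) * g0 a y := mul_nonneg (exp_pos _).le (g0_nonneg y)
  rcases (DD_le (a := a) T Φ c.1).lt_or_eq with h | h
  · rw [DD_agree hΦ h hy, sub_self, abs_zero]
    exact hg
  · rw [h]
    have hc : 0 ≤ c.1 y := c.2.1.nn y
    unfold pt
    rcases le_total (c.1 y) (exp (-T) * g0 a y) with h1 | h1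
    · rw [max_eq_right h1, abs_of_nonneg (by linarith)]
      linarith
    · rw [max_eq_left h1, sub_self, abs_zero]
      exact hg

theorem DomA_ok (Φ : Finset (V K)) :
    ∃ Φ' : Finset (V K), Ok Φ' ∧ ∀ y ∈ Φ, y ≠ 0 → y ∈ Φ' := by
  classical
  refine ⟨(insert (ee 0) (insert (ee 1) Φ)).erase 0, ⟨Finset.notMem_erase _ _, ?_, ?_⟩, ?_⟩
  · exact Finset.mem_erase.2 ⟨ee_ne 0, Finset.mem_insert_self _ _⟩
  · exact Finset.mem_erase.2 ⟨ee_ne 1, Finset.mem_insert_of_mem (Finset.mem_insert_self _ _)⟩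
  · intro y hy h0
    exact Finset.mem_erase.2 ⟨h0, Finset.mem_insert_of_mem (Finset.mem_insert_of_mem hy)⟩

theorem DomA_Q (a : AbsoluteValue K ℝ) (Φ : Finset (V K)) {ξ : ℝ} (hξ : 0 < ξ) :
    ∃ Q : ℕ, 0 < Q ∧ ∀ y ∈ Φ, 1 / (Q : ℝ) * g0 a y + exp (-(Q : ℝ)) * g0 a y ≤ ξ := by
  have hM : 0 ≤ ∑ z ∈ Φ, g0 a z := Finset.sum_nonneg fun z _ => g0_nonneg z
  obtain ⟨Q, hQ⟩ := exists_nat_gt (2 * (∑ z ∈ Φ, g0 a z) / ξ)
  have hQ0 : (0 : ℝ) < Q := lt_of_le_of_lt (by positivity) hQ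
  refine ⟨Q, Nat.cast_pos.1 hQ0, fun y hy => ?_⟩
  have h1 : g0 a y ≤ ∑ z ∈ Φ, g0 a z :=
    Finset.single_le_sum (f := fun z => g0 a z) (fun z _ => g0_nonneg z) hy
  have h2 : exp (-(Q : ℝ)) ≤ 1 / (Q : ℝ) := by
    rw [exp_neg, one_div]
    refine inv_anti₀ hQ0 ?_
    have := add_one_le_exp (Q : ℝ)
    linarith
  have hg : 0 ≤ g0 a y := g0_nonneg y
  have h3 : exp (-(Q : ℝ)) * g0 a y ≤ 1 / (Q : ℝ) * g0 a y := mul_le_mul_of_nonneg_right h2 hg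
  have h4 : 2 * (∑ z ∈ Φ, g0 a z) < Q * ξ := (div_lt_iff₀ hξ).1 hQ
  have h5 : 1 / (Q : ℝ) * g0 a y ≤ ξ / 2 := by
    rw [one_div, inv_mul_le_iff₀ hQ0]
    linarith
  linarith

theorem DomA_floor {Q : ℕ} (hQ : 0 < Q) {D : ℝ} (hD : 0 ≤ D) :
    |(⌊Q * D⌋₊ : ℝ) / Q - D| ≤ 1 / Q ∧ |((⌊Q * D⌋₊ : ℝ) + 1) / Q - D| ≤ 1 / Q := by
  have hQ0 : (0 : ℝ) < Q := Nat.cast_pos.2 hQ
  have h1 : (⌊Q * D⌋₊ : ℝ) ≤ Q * D := Nat.floor_le (mul_nonneg hQ0.le hD)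
  have h2 : Q * D < (⌊Q * D⌋₊ : ℝ) + 1 := Nat.lt_floor_add_one _
  have key : ∀ r : ℝ, |r - Q * D| ≤ 1 → |r / Q - D| ≤ 1 / Q := by
    intro r hr
    have e : r / Q - D = (r - Q * D) / Q := by
      field_simp
    rw [e, abs_div, abs_of_pos hQ0]
    exact div_le_div_of_nonneg_right hr hQ0.le
  exact ⟨key _ (abs_le.2 ⟨by linarith, by linarith⟩), key _ (abs_le.2 ⟨by linarith, by linarith⟩)⟩

/-- The finite set of vertices. -/
theorem DomA_U (ha : Pl a) {Φ : Finset (V K)} (hΦ : Ok Φ) (Q N : ℕ) :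
    ∃ U : Finset (X a), ∀ x ∈ Φ, ∀ j : ℕ, j ≤ N → ∃ u ∈ U, u.1 = bt a x ((j : ℝ) / Q) := by
  classical
  let f : {x // x ∈ Φ} × ℕ → X a := fun p =>
    ⟨bt a p.1.1 ((p.2 : ℝ) / Q), bt_isSn ha _ _,
      nr_bt ha (fun h => hΦ.nz (h ▸ p.1.2)) (div_nonneg (Nat.cast_nonneg _) (Nat.cast_nonneg _))⟩
  refine ⟨(Φ.attach ×ˢ Finset.range (N + 1)).image f, fun x hx j hj => ⟨f (⟨x, hx⟩, j), ?_, rfl⟩⟩
  exact Finset.mem_image_of_mem f
    (Finset.mem_product.2 ⟨Finset.mem_attach _ _, Finset.mem_range.2 (Nat.lt_succ_of_le hj)⟩)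

/-- Replace `Φ` by `Φ' = (Φ ∪ {ee 0, ee 1}).erase 0` (at `0` all seminorms vanish). Choose naturals
`T, Q > 0` with `(exp (-T) + 1 / Q) * g0 a y ≤ ξ` on `Φ'`. The vertices are the elements of the
finite set `U` of points `⟨bt a x (j / Q), _⟩ : X a`, `x ∈ Φ'`, `j ≤ Q T + 1` (`bt_isSn`, `nr_bt`),
`ι = U`, `v` the inclusion. Put `B c = pt a c (DD a T Φ' c) = bt a x (DD ..)` (`DD_ex`, `pt_eq_bt`),
`w c u = wt Q (B c) (cl u)`, continuous by `wt_cont`; the sum over `U` is at least `1 / 2`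
(`wt_big`); `lam c u = w c u / ∑ u, w c u`. If `w c u ≠ 0` then `u` is one of two explicit points
(`wt_supp`, `cl_inj`), which are close to `c` on `Φ'`. -/
theorem dom_one (ha : Pl a) (Φ : Finset (V K)) {ξ : ℝ} (hξ : 0 < ξ) :
    ∃ (ι : Type) (_ : Fintype ι) (v : ι → X a) (lam : X a → ι → ℝ), Continuous lam ∧
      ∀ c, lam c ∈ stdSimplex ℝ ι ∧ (Function.support (lam c)).ncard ≤ 2 ∧
        ∀ j, lam c j ≠ 0 → ∀ y ∈ Φ, |(v j).1 y - c.1 y| ≤ ξ := by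
  obtain ⟨Φ', hΦ', hsub⟩ := DomA_ok Φ
  obtain ⟨Q, hQ, hQξ⟩ := DomA_Q a Φ' hξ
  obtain ⟨U, hU⟩ := DomA_U ha hΦ' Q (Q * Q + 1)
  have hQ0 : (0 : ℝ) < Q := Nat.cast_pos.2 hQ
  have hD0 : ∀ c : X a, 0 ≤ DD a Q Φ' c.1 ∧ DD a Q Φ' c.1 ≤ Q := fun c =>
    ⟨DD_nonneg hQ0.le hΦ' c, DD_le _ _ _⟩
  obtain ⟨w, hw⟩ : ∃ w : X a → U → ℝ,
      ∀ c u, w c u = wt Q (pt a c.1 (DD a Q Φ' c.1)) (cl u.1.1) := ⟨_, fun _ _ => rfl⟩
  have hwc : ∀ u, Continuous fun c => w c u := by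
    intro u
    have := wt_cont ha hΦ'.nz (DD_cont (a := a) Q hΦ') hD0 (fun c => DD_ex Q hΦ' c.1) hQ (cl u.1.1)
    simpa only [hw] using this
  have hw0 : ∀ c u, 0 ≤ w c u := fun c u => by
    rw [hw]
    exact wt_nonneg hQ _ _
  have main : ∀ c : X a, ∃ u1 u2 : U, (1 / 2 ≤ w c u1 ∨ 1 / 2 ≤ w c u2) ∧
      (∀ u, w c u ≠ 0 → u = u1 ∨ u = u2) ∧
      (∀ y ∈ Φ', |u1.1.1 y - c.1 y| ≤ ξ) ∧ ∀ y ∈ Φ', |u2.1.1 y - c.1 y| ≤ ξ := by
    intro c
    obtain ⟨x, hx, hcx⟩ := DD_ex (a := a) Q hΦ' c.1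
    have hx0 : x ≠ 0 := fun h => hΦ'.nz (h ▸ hx)
    obtain ⟨hD, hDQ⟩ := hD0 c
    have hpt := pt_eq_bt ha c.2.1 c.2.2 hx0 hD hcx
    have hcl : ∀ y ∈ Φ', |bt a x (DD a Q Φ' c.1) y - c.1 y| ≤ exp (-(Q : ℝ)) * g0 a y := by
      intro y hy
      rw [← hpt]
      exact pt_DD_sub_le hΦ' c hy
    have hw' : ∀ u : U, w c u = wt Q (bt a x (DD a Q Φ' c.1)) (cl u.1.1) := fun u => by
      rw [hw, hpt]
    generalize DD a Q Φ' c.1 = D at hD hDQ hcl hw'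
    have hn : ⌊Q * D⌋₊ ≤ Q * Q := by
      refine Nat.floor_le_of_le ?_
      push_cast
      exact mul_le_mul_of_nonneg_left hDQ hQ0.le
    obtain ⟨u1, hu1, e1⟩ := hU x hx ⌊Q * D⌋₊ (hn.trans (Nat.le_succ _))
    obtain ⟨u2, hu2, e2⟩ := hU x hx (⌊Q * D⌋₊ + 1) (Nat.succ_le_succ hn)
    rw [Nat.cast_succ] at e2
    obtain ⟨f1, f2⟩ := DomA_floor hQ hD
    have close : ∀ E : ℝ, 0 ≤ E → |E - D| ≤ 1 / Q → ∀ y ∈ Φ', |bt a x E y - c.1 y| ≤ ξ := by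
      intro E hE hED y hy
      have k1 := bt_sub_le (a := a) x hE hD hED y
      have k2 := hcl y hy
      have k3 := hQξ y hy
      have k4 := abs_sub_le (bt a x E y) (bt a x D y) (c.1 y)
      linarith
    refine ⟨⟨u1, hu1⟩, ⟨u2, hu2⟩, ?_, ?_, ?_, ?_⟩
    · rw [hw', hw']
      dsimp only
      rw [e1, e2]
      exact wt_big ha hQ hx0 hD
    · intro u hu
      rw [hw'] at hu
      rcases wt_supp ha hQ hx0 hD hu with h | h
      · left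
        rw [← e1] at h
        exact Subtype.ext (Subtype.ext (cl_inj u.1.2.2 u1.2.2 h))
      · right
        rw [← e2] at h
        exact Subtype.ext (Subtype.ext (cl_inj u.1.2.2 u2.2.2 h))
    · dsimp only
      rw [e1]
      exact close _ (by positivity) f1
    · dsimp only
      rw [e2]
      exact close _ (by positivity) f2
  have hS : ∀ c, 0 < ∑ u, w c u := by
    intro c
    obtain ⟨u1, u2, h, -⟩ := main c
    have k : ∀ u, w c u ≤ ∑ u, w c u := fun u =>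
      Finset.single_le_sum (f := fun u => w c u) (fun u _ => hw0 c u) (Finset.mem_univ u)
    rcases h with h | h
    · linarith [k u1]
    · linarith [k u2]
  refine ⟨U, inferInstance, fun u => u.1, fun c u => w c u / ∑ u, w c u, ?_, fun c => ?_⟩
  · refine continuous_pi fun u => (hwc u).div ?_ fun c => (hS c).ne'
    exact continuous_finsetSum _ fun u _ => hwc u
  obtain ⟨u1, u2, -, hsupp, c1, c2⟩ := main c
  have hne : ∀ u, w c u / ∑ u, w c u ≠ 0 → u = u1 ∨ u = u2 := fun u hu =>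
    hsupp u fun h => hu (by rw [h, zero_div])
  refine ⟨⟨fun u => div_nonneg (hw0 c u) (hS c).le, ?_⟩, ?_, ?_⟩
  · rw [← Finset.sum_div]
    exact div_self (hS c).ne'
  · have hsub2 : Function.support (fun u => w c u / ∑ u, w c u) ⊆ {u1, u2} := fun u hu => hne u hu
    refine (Set.ncard_le_ncard hsub2 (Set.toFinite _)).trans ?_
    refine (Set.ncard_insert_le _ _).trans ?_
    rw [Set.ncard_singleton]
  · intro u hu y hy
    by_cases h0 : y = 0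
    · rw [h0, u.1.2.1.zero, c.2.1.zero, sub_self, abs_zero]
      exact hξ.le
    · rcases hne u hu with h | h
      · rw [h]
        exact c1 y (hsub y hy h0)
      · rw [h]
        exact c2 y (hsub y hy h0)

end Pool.Agent.Work.MP_9d1ffa_al.G2
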