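import Pool.Agent.Work.MP_9d1ffa_al.G2.Defs
import Pool.Agent.Work.MP_9d1ffa_al.G2.Cv
import Pool.Agent.Work.MP_9d1ffa_al.G2.DomA

/-! The product of the spaces `X (av i)` is a transfer space. -/

namespace Pool.Agent.Work.MP_9d1ffa_al.G2

open Real Topology

variable {K : Type} [Field K] {I : Type} [Fintype I]

/-- A metric on the product. -/
noncomputable abbrev XM [Countable K] (av : I → AbsoluteValue K ℝ) : MetricSpace (∀ i, X (av i)) :=
  TopologicalSpace.metrizableSpaceMetric (∀ i, X (av i))

/-- Product of the partitions of `dom_one`: `ι = ∀ i, ι i`, transported to `Fin n` by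
`Fintype.equivFin`; `lam c j = ∏ i, lam i (c i) (j i)` (`Finset.prod_univ_sum`,
`Fintype.piFinset`); the support injects into the product of the supports. -/
theorem dom_prod (av : I → AbsoluteValue K ℝ) (ha : ∀ i, Pl (av i)) (Φ : Finset (V K)) {ξ : ℝ}
    (hξ : 0 < ξ) :
    ∃ (n : ℕ) (v : Fin n → ∀ i, X (av i)) (lam : (∀ i, X (av i)) → Fin n → ℝ), Continuous lam ∧
      ∀ c, lam c ∈ stdSimplex ℝ (Fin n) ∧
        (Function.support (lam c)).ncard ≤ 2 ^ Fintype.card I ∧
        ∀ j, lam c j ≠ 0 → ∀ i, ∀ y ∈ Φ, |(v j i).1 y - (c i).1 y| ≤ ξ := by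
  classical
  choose ι hι v lam hc hl using fun i => dom_one (ha i) Φ hξ
  let _ := hι
  let e : (∀ i, ι i) ≃ Fin (Fintype.card (∀ i, ι i)) := Fintype.equivFin _
  refine ⟨_, fun j i => v i (e.symm j i), fun c j => ∏ i, lam i (c i) (e.symm j i), ?_,
    fun c => ⟨⟨fun j => ?_, ?_⟩, ?_, ?_⟩⟩
  · exact continuous_pi fun j => continuous_finsetProd _ fun i _ =>
      (continuous_apply _).comp ((hc i).comp (continuous_apply i))
  · exact Finset.prod_nonneg fun i _ => (hl i (c i)).1.1 _
  · rw [Equiv.sum_comp e.symm (fun f => ∏ i, lam i (c i) (f i)), ← Fintype.piFinset_univ,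
      ← Finset.prod_univ_sum]
    exact Finset.prod_eq_one fun i _ => (hl i (c i)).1.2
  · let s : ∀ i, Finset (ι i) := fun i => (Function.support (lam i (c i))).toFinset
    have hs : ∀ i, (s i).card ≤ 2 := fun i => by
      have := (hl i (c i)).2.1
      rwa [Set.ncard_eq_toFinset_card'] at this
    have hsub : (Function.support fun j => ∏ i, lam i (c i) (e.symm j i)) ⊆
        ((Fintype.piFinset s).image e : Set _) := by
      intro j hj
      rw [Finset.mem_coe, Finset.mem_image]
      refine ⟨e.symm j, Fintype.mem_piFinset.2 fun i => ?_, e.apply_symm_apply j⟩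
      rw [Set.mem_toFinset]
      exact Finset.prod_ne_zero_iff.1 hj i (Finset.mem_univ i)
    calc (Function.support fun j => ∏ i, lam i (c i) (e.symm j i)).ncard
        ≤ (((Fintype.piFinset s).image e : Finset _) : Set _).ncard :=
          Set.ncard_le_ncard hsub (Finset.finite_toSet _)
      _ = ((Fintype.piFinset s).image e).card := Set.ncard_coe_finset _
      _ ≤ (Fintype.piFinset s).card := Finset.card_image_le
      _ = ∏ i, (s i).card := Fintype.card_piFinset s
      _ ≤ 2 ^ Fintype.card I := Finset.prod_le_pow_card _ _ _ fun i _ => hs i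
  · intro j hj i y hy
    exact (hl i (c i)).2.2 _ (Finset.prod_ne_zero_iff.1 hj i (Finset.mem_univ i)) y hy

/-- `exists_seg` in every coordinate contracts the product to a point
(`contractible_iff_id_nullhomotopic`, `X.nonempty`). -/
theorem prod_contractible (av : I → AbsoluteValue K ℝ) (ha : ∀ i, Pl (av i)) :
    ContractibleSpace (∀ i, X (av i)) := by
  choose sg h0 h1 _ using fun i => exists_seg (av i)
  obtain ⟨c0⟩ : Nonempty (∀ i, X (av i)) := ⟨fun i => (X.nonempty (ha i)).some⟩
  rw [contractible_iff_id_nullhomotopic]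
  refine ⟨c0, ⟨⟨⟨fun q i => sg i (q.1, q.2 i, c0 i), ?_⟩, fun c => ?_, fun c => ?_⟩⟩⟩
  · exact continuous_pi fun i => (sg i).continuous.comp (continuous_fst.prodMk
      (((continuous_apply i).comp continuous_snd).prodMk continuous_const))
  · funext i
    exact h0 i _ _
  · funext i
    exact h1 i _ _

/-- `letI := XM av`. Given `δ` take `Φ, ξ` from `unif` (with `d = dist`), `i = lam` from `dom_prod`,
`p μ i = p_i μ` from `exists_comb` for `j ↦ v j i`, `H (t, c) i = sg_i (t, p (lam c) i, c i)`. -/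
theorem transfer [Countable K] (av : I → AbsoluteValue K ℝ) (ha : ∀ i, Pl (av i)) {N : ℕ}
    (hN : 2 ^ Fintype.card I ≤ N + 1) : @IsTransfer N (∀ i, X (av i)) (XM av) := by
  have hK : ∀ i, CompactSpace (X (av i)) := fun i => X.compactSpace
  refine ⟨(inferInstance : CompactSpace (∀ i, X (av i))), prod_contractible av ha, fun δ hδ => ?_⟩
  obtain ⟨Φ, ξ, hξ, hu⟩ := unif av (fun q => @dist _ (XM av).toDist q.1 q.2)
    (@continuous_dist _ (XM av).toPseudoMetricSpace)
    (fun c => @dist_self _ (XM av).toPseudoMetricSpace c) hδ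
  obtain ⟨n, v, lam, hc, hl⟩ := dom_prod av ha Φ hξ
  choose sg h0 h1 hsg using fun i => exists_seg (av i)
  choose p hp using fun i => exists_comb (a := av i) (fun j : Fin n => v j i)
  let ii : C(∀ i, X (av i), Sk N n) :=
    ⟨fun c => ⟨lam c, (hl c).1, (hl c).2.1.trans hN⟩, hc.subtype_mk _⟩
  let pp : C(Sk N n, ∀ i, X (av i)) :=
    ⟨fun μ i => p i ⟨μ.1, μ.2.1⟩, continuous_pi fun i =>
      (p i).continuous.comp (continuous_subtype_val.subtype_mk _)⟩
  let H : (pp.comp ii).Homotopy (ContinuousMap.id _) :=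
    { toFun := fun q i => sg i (q.1, pp (ii q.2) i, q.2 i)
      continuous_toFun := continuous_pi fun i => (sg i).continuous.comp (continuous_fst.prodMk
        (((continuous_apply i).comp ((pp.comp ii).continuous.comp continuous_snd)).prodMk
          ((continuous_apply i).comp continuous_snd)))
      map_zero_left := fun c => funext fun i => h0 i _ _
      map_one_left := fun c => funext fun i => h1 i _ _ }
  refine ⟨n, ii, pp, H, fun t c => hu (H (t, c)) c fun i y hy => ?_⟩
  have h2 := hp i ⟨lam c, (hl c).1⟩ y ((c i).1 y - ξ) ((c i).1 y + ξ) fun j hj => by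
    have := abs_le.1 ((hl c).2.2 j hj i y hy)
    constructor <;> linarith [this.1, this.2]
  have h3 := hsg i t (p i ⟨lam c, (hl c).1⟩) (c i) y
  change |(sg i (t, p i ⟨lam c, (hl c).1⟩, c i)).1 y - (c i).1 y| ≤ ξ
  have h4 : (c i).1 y - ξ ≤ min ((p i ⟨lam c, (hl c).1⟩).1 y) ((c i).1 y) :=
    le_min h2.1 (by linarith)
  have h5 : max ((p i ⟨lam c, (hl c).1⟩).1 y) ((c i).1 y) ≤ (c i).1 y + ξ :=
    max_le h2.2 (by linarith)
  exact abs_le.2 ⟨by linarith [h3.1], by linarith [h3.2]⟩

end Pool.Agent.Work.MP_9d1ffa_al.G2
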