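import Pool.Agent.Work.MP_9d1ffa_al.G2.Dd

/-! The sets `Ph` and the slowly varying depth function. -/

namespace Pool.Agent.Work.MP_9d1ffa_al.G2

open Real Topology

variable {K : Type} [Field K] {a : AbsoluteValue K ℝ}
variable {G : Type} [Group G] [DistribMulAction G (V K)] [SMulCommClass G K (V K)]

theorem Ph_smul {S : Finset G} {s : G} (hs : s ∈ S) {n : ℕ} {x : V K} (hx : x ∈ Ph K S n) :
    s • x ∈ Ph K S (n + 1) := by
  classical
  rw [Ph]
  exact Finset.mem_image₂_of_mem hs hx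

theorem Ph_mono {S : Finset G} (h1 : (1 : G) ∈ S) {n n' : ℕ} (h : n ≤ n') :
    Ph K S n ⊆ Ph K S n' := by
  induction h with
  | refl => exact Finset.Subset.refl _
  | step _ ih =>
    intro x hx
    have := Ph_smul h1 (ih hx)
    rwa [one_smul] at this

theorem Ph_ok {S : Finset G} (h1 : (1 : G) ∈ S) (n : ℕ) : Ok (Ph K S n) := by
  classical
  have h0 : Ph K S 0 ⊆ Ph K S n := Ph_mono h1 (Nat.zero_le n)
  refine ⟨?_, h0 (by simp [Ph]), h0 (by simp [Ph])⟩
  clear h0
  induction n with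
  | zero =>
    simp only [Ph, Finset.mem_insert, Finset.mem_singleton, not_or]
    exact ⟨(ee_ne 0).symm, (ee_ne 1).symm⟩
  | succ n ih =>
    intro h
    rw [Ph] at h
    obtain ⟨s, -, x, hx, e⟩ := Finset.mem_image₂.1 h
    have : x = 0 := by
      have := congrArg (fun y => s⁻¹ • y) e
      simpa using this
    exact ih (this ▸ hx)

theorem Ph_card (S : Finset G) (n : ℕ) : (Ph K S n).card ≤ 2 * S.card ^ n := by
  classical
  induction n with
  | zero =>
    rw [Ph, pow_zero, mul_one]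
    exact Finset.card_le_two
  | succ n ih =>
    rw [Ph]
    refine (Finset.card_image₂_le _ _ _).trans ?_
    calc S.card * (Ph K S n).card ≤ S.card * (2 * S.card ^ n) := Nat.mul_le_mul_left _ ih
      _ = 2 * S.card ^ (n + 1) := by ring

/-- If `x ∈ Ph n` is deep for `s • c` (`DD_ex`) then `s⁻¹ • x ∈ Ph (n + 1)` is deep for `c`
(`al_mul_smul`, `al_le`, `le_DD`). -/
theorem DD_smul {S : Finset G} (h1 : (1 : G) ∈ S) {s : G} (hs : s⁻¹ ∈ S) {κ : ℕ} (hκ : Bd a κ s)
    (T : ℝ) (n : ℕ) (c : X a) :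
    DD a T (Ph K S n) (s • c).1 ≤ DD a T (Ph K S (n + 1)) c.1 + 2 * κ := by
  obtain ⟨x, hx, h⟩ := DD_ex (a := a) T (Ph_ok (K := K) h1 n) (s • c).1
  have hT := DD_le (a := a) T (Ph K S n) (s • c).1
  generalize DD a T (Ph K S n) (s • c).1 = D at h hT ⊢
  have hk : (0 : ℝ) ≤ κ := Nat.cast_nonneg κ
  have h2 : g0 a x ≤ exp κ * g0 a (s⁻¹ • x) := by
    have := (hκ (s⁻¹ • x)).1
    rwa [smul_inv_smul] at this
  have h3 : c.1 (s⁻¹ • x) ≤ exp (-(D - 2 * κ)) * g0 a (s⁻¹ • x) := by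
    rw [← al_mul_smul]
    calc al s c.1 * (s • c).1 x ≤ exp κ * (exp (-D) * (exp κ * g0 a (s⁻¹ • x))) :=
          mul_le_mul (al_le hκ c) (h.trans (mul_le_mul_of_nonneg_left h2 (exp_pos _).le))
            ((s • c).2.1.nn x) (exp_pos _).le
      _ = exp (-(D - 2 * κ)) * g0 a (s⁻¹ • x) := by
          rw [← mul_assoc, ← mul_assoc, ← exp_add, ← exp_add]
          congr 2
          ring
  have := le_DD (T := T) (Ph_ok h1 (n + 1)) (Ph_smul hs hx) h3 (by linarith)
  linarith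

/-- `chi c` is the minimum over `j ≤ T` of `DD a T (Ph (n + j)) c + (T - j)`
(`Finset.inf'` over `Finset.range (T + 1)`). If the minimum for `c` is attained at `j ≥ 1`, use the
term `j - 1` for `s • c` and `DD_smul`; if it is attained at `j = 0` then `chi c ≥ T`. -/
theorem exists_chi {S : Finset G} (h1 : (1 : G) ∈ S) (hS : ∀ s ∈ S, s⁻¹ ∈ S) {κ : ℕ}
    (hκ : ∀ s ∈ S, Bd a κ s) (T n : ℕ) :
    ∃ chi : X a → ℝ, Continuous chi ∧ (∀ c, DD a T (Ph K S n) c.1 ≤ chi c) ∧
      (∀ c, chi c ≤ DD a T (Ph K S (n + T)) c.1) ∧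
      ∀ s ∈ S, ∀ c, chi (s • c) ≤ chi c + (2 * κ + 1) := by
  have hne : (Finset.range (T + 1)).Nonempty := ⟨0, by simp⟩
  have hup : ∀ c : X a, (Finset.range (T + 1)).inf' hne
      (fun j => DD a T (Ph K S (n + j)) c.1 + ((T : ℝ) - j)) ≤ DD a T (Ph K S (n + T)) c.1 := by
    intro c
    refine (Finset.inf'_le _ (Finset.self_mem_range_succ T)).trans ?_
    simp
  refine ⟨fun c => (Finset.range (T + 1)).inf' hne
    fun j => DD a T (Ph K S (n + j)) c.1 + ((T : ℝ) - j), ?_, fun c => ?_, hup, fun s hs c => ?_⟩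
  · exact Continuous.finset_inf'_apply hne fun j _ =>
      (DD_cont (T : ℝ) (Ph_ok h1 (n + j))).add continuous_const
  · refine Finset.le_inf' _ _ fun j hj => ?_
    have h2 : (j : ℝ) ≤ T := by exact_mod_cast Nat.lt_succ_iff.1 (Finset.mem_range.1 hj)
    have := DD_mono (a := a) (T : ℝ) (Ph_ok h1 n) (Ph_ok h1 (n + j))
      (Ph_mono h1 (Nat.le_add_right n j)) c.1
    linarith
  · obtain ⟨j, hj, e⟩ := Finset.exists_mem_eq_inf' hne
      (fun j => DD a T (Ph K S (n + j)) c.1 + ((T : ℝ) - j))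
    have hk : (0 : ℝ) ≤ κ := Nat.cast_nonneg κ
    simp only [e]
    rcases j with _ | j
    · have h2 := DD_nonneg (Nat.cast_nonneg T) (Ph_ok (K := K) h1 (n + 0)) c
      have h3 := (hup (s • c)).trans (DD_le _ _ _)
      push_cast
      linarith
    · have hj' : j ∈ Finset.range (T + 1) :=
        Finset.mem_range.2 ((Nat.lt_succ_self j).trans (Finset.mem_range.1 hj))
      refine (Finset.inf'_le _ hj').trans ?_
      have := DD_smul h1 (hS s hs) (hκ s hs) (T : ℝ) (n + j) c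
      rw [add_assoc n j 1] at this
      push_cast
      linarith

/-- `w c = max 0 (min 1 ((T - chi c) / J))`. -/
theorem exists_w {S : Finset G} (h1 : (1 : G) ∈ S) (hS : ∀ s ∈ S, s⁻¹ ∈ S) {κ : ℕ}
    (hκ : ∀ s ∈ S, Bd a κ s) (T n : ℕ) {J : ℕ} (hJ : 0 < J) :
    ∃ w : X a → ℝ, Continuous w ∧ (∀ c, 0 ≤ w c ∧ w c ≤ 1) ∧
      (∀ s ∈ S, ∀ c, w c ≤ w (s • c) + (2 * κ + 1) / J) ∧
      (∀ c, 0 < w c → DD a T (Ph K S n) c.1 < T) ∧
      ∀ c, w c < 1 → (T : ℝ) - J < DD a T (Ph K S (n + T)) c.1 := by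
  obtain ⟨chi, c1, c2, c3, c4⟩ := exists_chi h1 hS hκ T n
  have hJ' : (0 : ℝ) < J := by exact_mod_cast hJ
  refine ⟨fun c => max 0 (min 1 ((T - chi c) / J)), ?_, fun c => ⟨le_max_left _ _, ?_⟩,
    fun s hs c => ?_, fun c h => ?_, fun c h => ?_⟩
  · exact continuous_const.max (continuous_const.min ((continuous_const.sub c1).div_const _))
  · exact max_le zero_le_one (min_le_left _ _)
  · have h0 : (0 : ℝ) ≤ (2 * κ + 1) / J := by positivity
    have h2 : (T - chi c) / J ≤ (T - chi (s • c)) / J + (2 * κ + 1) / J := by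
      rw [← add_div]
      exact div_le_div_of_nonneg_right (by linarith [c4 s hs c]) hJ'.le
    refine max_le (add_nonneg (le_max_left _ _) h0) ?_
    refine le_trans ?_ (add_le_add_left (le_max_right _ _) _)
    rw [← min_add_add_right]
    exact min_le_min (by linarith) h2
  · have h2 : 0 < (T - chi c) / J := by
      rcases lt_max_iff.1 h with h | h
      · exact absurd h (lt_irrefl _)
      · exact h.trans_le (min_le_right _ _)
    have := (div_pos_iff_of_pos_right hJ').1 h2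
    linarith [c2 c]
  · have h2 : (T - chi c) / J < 1 := by
      rcases min_lt_iff.1 ((le_max_right _ _).trans_lt h) with h | h
      · exact absurd h (lt_irrefl _)
      · exact h
    rw [div_lt_one hJ'] at h2
    linarith [c3 c]

end Pool.Agent.Work.MP_9d1ffa_al.G2
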