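import Pool.Agent.Work.MP_9d1ffa_al.G2.DpA

/-! The almost equivariant norm attached to a seminorm of bounded depth. -/

namespace Pool.Agent.Work.MP_9d1ffa_al.G2

open Real Topology

variable {K : Type} [Field K] {a : AbsoluteValue K ℝ}
variable {G : Type} [Group G] [DistribMulAction G (V K)] [SMulCommClass G K (V K)]

/-- The seminorm `ν z = al s c * pt a (s • c) D' (s • z)` (a multiple of `mv s⁻¹ ..`) agrees with
`c` on `Ph n` (`Ph_smul`, `DD_agree`, `al_mul_smul`); apply `le_pt_DD` and put `z = s⁻¹ • y`. -/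
theorem pt_step (ha : Pl a) {S : Finset G} (h1 : (1 : G) ∈ S) {s : G} (hs : s ∈ S) {T : ℝ}
    (hT : 0 ≤ T) (n : ℕ) (c : X a) (h : DD a T (Ph K S (n + 1)) (s • c).1 < T) (y : V K) :
    al s c.1 * pt a (s • c).1 (DD a T (Ph K S (n + 1)) (s • c).1) y ≤
      mv s (pt a c.1 (DD a T (Ph K S n) c.1)) y := by
  have hal := al_pos s c
  have hν : IsSn a fun z => al s c.1 *
      mv s⁻¹ (pt a (s • c).1 (DD a T (Ph K S (n + 1)) (s • c).1)) z :=
    (mv_isSn (pt_isSn ha (s • c).2.1 _) s⁻¹).const_mul hal.le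
  have key := le_pt_DD ha hT (Ph_ok h1 n) c hν (fun x hx => by
    have h2 := DD_agree (Ph_ok h1 (n + 1)) h (Ph_smul hs hx)
    simp only [mv, inv_inv]
    rw [h2, al_mul_smul, inv_smul_smul]) (s⁻¹ • y)
  simpa only [mv, inv_inv, smul_inv_smul] using key

theorem DpB_low (c : X a) {D D' u : ℝ} (hu : 0 ≤ u) (h : D ≤ D' + u) (z : V K) :
    exp (-u) * pt a c.1 D' z ≤ pt a c.1 D z := by
  have h0 : 0 < exp (-u) := exp_pos _
  have h1 : exp (-u) ≤ 1 := exp_le_one_iff.2 (by linarith)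
  have hc := c.2.1.nn z
  have hg : 0 ≤ g0 a z := g0_nonneg z
  simp only [pt]
  rw [mul_max_of_nonneg _ _ h0.le]
  refine max_le_max (by nlinarith) ?_
  rw [← mul_assoc, ← exp_add]
  exact mul_le_mul_of_nonneg_right (exp_le_exp.2 (by linarith)) hg

/-- With `m = E * T`, `D c` is the minimum over `n ≤ m` of `DD a T (Ph n) c + (m - n) / E`.
Then `exp (-(m - n) / E) * pt a c (DD a T (Ph n) c) ≤ pt a c (D c)` for all `n ≤ m`. Conversely
`pt a c' (D c') y` (`c' = s • c`) is `c' y` or `exp (-D c') * g0 a y`. First,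
`al s c * c' y = mv s c y`. Second, let the minimum for `c'` be attained at `n`. If `n = k + 1`, then
`exp (-D c') * g0 a y ≤ exp (-(m - n) / E) * pt a c' (DD .. n c') y`; use `pt_step` (`DD_mono` gives
the hypothesis) and `(m - k) / E = (m - n) / E + 1 / E`. If `n = 0` then `D c' ≥ T`, so
`exp (-D c') * g0 a y ≤ pt a c' (DD .. m c') y`, and this is the case `n = m ≥ 1`. -/
theorem exists_B (ha : Pl a) {S : Finset G} (h1 : (1 : G) ∈ S) {T E : ℕ} (hT : 0 < T)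
    (hE : 0 < E) :
    ∃ D : X a → ℝ, Continuous D ∧ (∀ c, 0 ≤ D c ∧ D c ≤ DD a T (Ph K S (E * T)) c.1) ∧
      ∀ s ∈ S, ∀ c : X a, DD a T (Ph K S (E * T)) (s • c).1 < T → ∀ y,
        al s c.1 * pt a (s • c).1 (D (s • c)) y ≤ exp (1 / E) * mv s (pt a c.1 (D c)) y := by
  have hE' : (0 : ℝ) < E := by exact_mod_cast hE
  have hT' : (0 : ℝ) ≤ T := Nat.cast_nonneg T
  obtain ⟨m, hm⟩ : ∃ m, m = E * T := ⟨_, rfl⟩
  have hm1 : 0 < m := hm ▸ Nat.mul_pos hE hT
  have hmE : (m : ℝ) / E = T := by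
    rw [hm, Nat.cast_mul, mul_div_cancel_left₀ _ hE'.ne']
  rw [← hm]
  have hne : (Finset.range (m + 1)).Nonempty := ⟨0, by simp⟩
  obtain ⟨f, hf⟩ : ∃ f : ℕ → X a → ℝ,
      ∀ n c, f n c = DD a T (Ph K S n) c.1 + ((m : ℝ) - n) / E := ⟨_, fun _ _ => rfl⟩
  have hfc : ∀ n, Continuous (f n) := fun n => by
    have : f n = fun c => DD a T (Ph K S n) c.1 + ((m : ℝ) - n) / E := funext (hf n)
    rw [this]
    exact (DD_cont _ (Ph_ok h1 n)).add continuous_const
  obtain ⟨D, hDc, hDle, hDex⟩ : ∃ D : X a → ℝ, Continuous D ∧ (∀ c n, n ≤ m → D c ≤ f n c) ∧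
      ∀ c, ∃ n, n ≤ m ∧ D c = f n c := by
    refine ⟨fun c => (Finset.range (m + 1)).inf' hne fun n => f n c,
      Continuous.finset_inf'_apply hne fun n _ => hfc n, fun c n hn => ?_, fun c => ?_⟩
    · exact Finset.inf'_le (fun n => f n c) (Finset.mem_range.2 (Nat.lt_succ_of_le hn))
    · obtain ⟨n, hn, h⟩ := Finset.exists_mem_eq_inf' hne fun n => f n c
      exact ⟨n, Nat.lt_succ_iff.1 (Finset.mem_range.1 hn), h⟩
  have hu : ∀ n : ℕ, n ≤ m → 0 ≤ ((m : ℝ) - n) / E := fun n hn =>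
    div_nonneg (sub_nonneg.2 (by exact_mod_cast hn)) hE'.le
  refine ⟨D, hDc, fun c => ⟨?_, ?_⟩, fun s hs c hlt y => ?_⟩
  · obtain ⟨n, hn, h⟩ := hDex c
    rw [h, hf]
    exact add_nonneg (DD_nonneg hT' (Ph_ok h1 n) c) (hu n hn)
  · have := hDle c m le_rfl
    rw [hf] at this
    simpa using this
  have hal := al_pos s c
  have he1 : 1 ≤ exp (1 / (E : ℝ)) := one_le_exp (by positivity)
  have hp0 : 0 ≤ pt a c.1 (D c) (s⁻¹ • y) := (c.2.1.nn _).trans (le_max_left _ _)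
  have main : ∀ k : ℕ, k + 1 ≤ m → f (k + 1) (s • c) ≤ D (s • c) →
      al s c.1 * (exp (-D (s • c)) * g0 a y) ≤ exp (1 / E) * pt a c.1 (D c) (s⁻¹ • y) := by
    intro k hk hle
    have h2 : DD a T (Ph K S (k + 1)) (s • c).1 < T :=
      (DD_mono _ (Ph_ok h1 _) (Ph_ok h1 _) (Ph_mono h1 hk) _).trans_lt hlt
    have h3 := pt_step ha h1 hs hT' k c h2 y
    have h4 := DpB_low c (hu k (by omega)) ((hDle c k (by omega)).trans_eq (hf k c)) (s⁻¹ • y)
    rw [hf] at hle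
    have h5 : exp (-D (s • c)) * g0 a y ≤ exp (-(((m : ℝ) - (k + 1 : ℕ)) / E)) *
        pt a (s • c).1 (DD a T (Ph K S (k + 1)) (s • c).1) y := by
      refine le_trans ?_ (mul_le_mul_of_nonneg_left (le_max_right _ _) (exp_pos _).le)
      rw [← mul_assoc, ← exp_add]
      exact mul_le_mul_of_nonneg_right (exp_le_exp.2 (by linarith)) (g0_nonneg y)
    have h6 : exp (-(((m : ℝ) - (k + 1 : ℕ)) / E)) =
        exp (1 / E) * exp (-(((m : ℝ) - k) / E)) := by
      rw [← exp_add]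
      congr 1
      push_cast
      ring
    calc al s c.1 * (exp (-D (s • c)) * g0 a y)
        ≤ al s c.1 * (exp (-(((m : ℝ) - (k + 1 : ℕ)) / E)) *
          pt a (s • c).1 (DD a T (Ph K S (k + 1)) (s • c).1) y) :=
          mul_le_mul_of_nonneg_left h5 hal.le
      _ = exp (-(((m : ℝ) - (k + 1 : ℕ)) / E)) * (al s c.1 *
          pt a (s • c).1 (DD a T (Ph K S (k + 1)) (s • c).1) y) := by ring
      _ ≤ exp (-(((m : ℝ) - (k + 1 : ℕ)) / E)) *
          pt a c.1 (DD a T (Ph K S k) c.1) (s⁻¹ • y) :=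
          mul_le_mul_of_nonneg_left h3 (exp_pos _).le
      _ = exp (1 / E) * (exp (-(((m : ℝ) - k) / E)) *
          pt a c.1 (DD a T (Ph K S k) c.1) (s⁻¹ • y)) := by rw [h6, mul_assoc]
      _ ≤ _ := mul_le_mul_of_nonneg_left h4 (exp_pos _).le
  change al s c.1 * max ((s • c).1 y) (exp (-D (s • c)) * g0 a y) ≤
    exp (1 / E) * pt a c.1 (D c) (s⁻¹ • y)
  rw [mul_max_of_nonneg _ _ hal.le]
  refine max_le ?_ ?_
  · rw [al_mul_smul]
    exact (le_max_left _ _ : _ ≤ pt a c.1 (D c) (s⁻¹ • y)).trans (le_mul_of_one_le_left hp0 he1)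
  · obtain ⟨n, hn, h⟩ := hDex (s • c)
    rcases n with _ | k
    · obtain ⟨k, rfl⟩ : ∃ k, m = k + 1 := ⟨m - 1, by omega⟩
      refine main k le_rfl ?_
      have h7 := DD_nonneg hT' (Ph_ok h1 0) (s • c)
      rw [h, hf, hf, sub_self, zero_div, Nat.cast_zero, sub_zero, hmE]
      linarith
    · exact main k hn h.ge

end Pool.Agent.Work.MP_9d1ffa_al.G2
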