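import Pool.Agent.Work.MP_9d1ffa_al.G2.SnB

/-! Estimates for traces. -/

namespace Pool.Agent.Work.MP_9d1ffa_al.G2

open Real

variable {K : Type} [Field K] {a : AbsoluteValue K ℝ}
variable {G : Type} [Group G] [DistribMulAction G (V K)] [SMulCommClass G K (V K)]

theorem TrA_lin (g : G) (l m : K) (x e : V K) : g • (l • x + m • e) = l • g • x + m • g • e := by
  rw [smul_add, smul_comm g, smul_comm g]

/-- Expand `x, y` with `vec_eq`. -/
theorem trc_mul_dt (g : G) (x y : V K) : trc K g * dt x y = dt (g • x) y + dt x (g • y) := by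
  rw [congrArg (g • ·) (vec_eq x), congrArg (g • ·) (vec_eq y)]
  simp only [TrA_lin, trc, dt, Pi.add_apply, Pi.smul_apply, smul_eq_mul]
  ring

/-- The trace in any basis. -/
theorem trc_eq {g : G} {x e : V K} (h : dt x e ≠ 0) {p q r s : K} (hx : g • x = p • x + r • e)
    (he : g • e = q • x + s • e) : trc K g = p + s := by
  refine mul_right_cancel₀ h ?_
  rw [trc_mul_dt, hx, he]
  simp only [dt, Pi.add_apply, Pi.smul_apply, smul_eq_mul]
  ring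

theorem trc_conj (hd : Det1 G K) (g h : G) : trc K (g * h * g⁻¹) = trc K h := by
  have e := trc_mul_dt (g * h * g⁻¹) (g • (ee 0 : V K)) (g • ee 1)
  simp only [mul_smul, inv_smul_smul, hd g] at e
  rw [← trc_mul_dt] at e
  exact mul_right_cancel₀ (by simp [dt, ee]) e

theorem TrA_ent {x e : V K} (hx : x ≠ 0) {E ρ : ℝ} {g : G}
    (hb : ∀ l m : K, bt a x E (l • x + m • e) = max (a m) (exp (-E) * (a l * g0 a x)))
    (h : ∀ y, bt a x E (g • y) ≤ ρ * bt a x E y) {p q r s : K} (h1 : g • x = p • x + r • e)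
    (h2 : g • e = q • x + s • e) : a (p - s) ≤ max (a p) (a s) → a p ≤ ρ ∧ a s ≤ ρ ∧
      a (p - s) ≤ ρ ∧ a q ≤ ρ * (exp E / g0 a x) ∧ a r ≤ ρ * (exp (-E) * g0 a x) := by
  intro h0
  have p0 := g0_pos (a := a) hx
  have e1 := h x
  have e2 := h e
  have b := hb 0 1
  simp only [zero_smul, one_smul, zero_add, map_one, map_zero, zero_mul, mul_zero,
    max_eq_left (zero_le_one' ℝ)] at b
  rw [h1, hb, bt_self, max_le_iff] at e1
  rw [h2, hb, b, mul_one, max_le_iff] at e2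
  have hp : a p ≤ ρ := le_of_mul_le_mul_right (by linarith [e1.2]) (mul_pos (exp_pos (-E)) p0)
  refine ⟨hp, e2.1, h0.trans (max_le hp e2.1), ?_, e1.1⟩
  rw [← mul_div_assoc, le_div_iff₀ p0, ← div_le_iff₀ (exp_pos E), div_eq_inv_mul, ← exp_neg]
  exact e2.2

theorem TrA_mul {x e : V K} {g h : G} {p q r s p' q' r' s' : K}
    (h1 : g • x = p • x + r • e ∧ g • e = q • x + s • e)
    (h2 : h • x = p' • x + r' • e ∧ h • e = q' • x + s' • e) :
    (g * h) • x = (p' * p + r' * q) • x + (p' * r + r' * s) • e ∧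
      (g * h) • e = (q' * p + s' * q) • x + (q' * r + s' * s) • e := by
  rw [mul_smul, mul_smul, h2.1, h2.2, TrA_lin, TrA_lin, h1.1, h1.2]
  constructor <;> module

theorem TrA_le {u v w : K} {U W Z T : ℝ} (h1 : a u ≤ U) (h2 : a v ≤ W) (h3 : a w ≤ Z)
    (e : U * W * Z = T) : a (u * v * w) ≤ T := by
  rw [map_mul, map_mul, ← e]
  have := (a.nonneg u).trans h1
  have := (a.nonneg v).trans h2
  gcongr

/-- Entries in the adapted basis of `bt_basis`: if `g • x = p • x + r • e`, `g • e = q • x + s • e`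
then `a p ≤ 1` and `a s ≤ 1`. -/
theorem trc_le_one (ha : Pl a) {x : V K} (hx : x ≠ 0) {D : ℝ} (hD : 0 ≤ D) {g : G}
    (h : ∀ y, bt a x D (g • y) ≤ bt a x D y) : a (trc K g) ≤ 1 := by
  obtain ⟨j, h1, h2, h3⟩ := bt_basis ha hx hD
  obtain ⟨p, r, e1⟩ := h2 (g • x)
  obtain ⟨q, s, e2⟩ := h2 (g • ee j)
  obtain ⟨a1, a2, -⟩ := TrA_ent hx (h3 D le_rfl) (ρ := 1) (by simpa using h) e1 e2 (ha.sub_le _ _)
  rw [trc_eq (a.ne_zero_iff.1 (h1 ▸ (g0_pos hx).ne')) e1 e2]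
  exact (ha.na _ _).trans (max_le a1 a2)

/-- In the adapted basis (`bt_basis`, with `E = t` and `E = t + L`) an element with bound `ρ` has
`a p ≤ ρ`, `a s ≤ ρ`, `a q * g0 a x ≤ ρ * exp t`, `a r ≤ ρ * exp (-(t + L)) * g0 a x`. With indices
`1, 2, 3` for `g, h, k`: `dl K g h k = (q1 r2 - q2 r1) (p3 - s3) + (p1 q2 + q1 s2 - p2 q1 - q2 s1) r3
+ (r1 p2 + s1 r2 - r2 p1 - s2 r1) q3`; every monomial is at most `ρ1 ρ2 ρ3 exp (-L)`. -/
theorem dl_small (ha : Pl a) {x : V K} (hx : x ≠ 0) {t L : ℝ} (ht : 0 ≤ t) (hL : 0 ≤ L)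
    {g h k : G} {ρ1 ρ2 ρ3 : ℝ}
    (hg : ∀ y, bt a x t (g • y) ≤ ρ1 * bt a x t y ∧
      bt a x (t + L) (g • y) ≤ ρ1 * bt a x (t + L) y)
    (hh : ∀ y, bt a x t (h • y) ≤ ρ2 * bt a x t y ∧
      bt a x (t + L) (h • y) ≤ ρ2 * bt a x (t + L) y)
    (hk : ∀ y, bt a x t (k • y) ≤ ρ3 * bt a x t y ∧
      bt a x (t + L) (k • y) ≤ ρ3 * bt a x (t + L) y) :
    a (dl K g h k) ≤ ρ1 * ρ2 * ρ3 * exp (-L) := by
  obtain ⟨j, h1, h2, h3⟩ := bt_basis ha hx ht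
  have key : ∀ {g : G} {ρ : ℝ}, (∀ y, bt a x t (g • y) ≤ ρ * bt a x t y ∧
      bt a x (t + L) (g • y) ≤ ρ * bt a x (t + L) y) → ∃ p q r s : K,
      (g • x = p • x + r • ee j ∧ g • ee j = q • x + s • ee j) ∧ a (p - s) ≤ ρ ∧
        a q ≤ ρ * (exp t / g0 a x) ∧ a r ≤ ρ * (exp (-(t + L)) * g0 a x) := by
    intro g ρ h
    obtain ⟨p, r, e1⟩ := h2 (g • x)
    obtain ⟨q, s, e2⟩ := h2 (g • ee j)
    have a1 := TrA_ent hx (h3 t le_rfl) (fun y => (h y).1) e1 e2 (ha.sub_le _ _)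
    have a2 := TrA_ent hx (h3 _ (by linarith)) (fun y => (h y).2) e1 e2 (ha.sub_le _ _)
    exact ⟨p, q, r, s, ⟨e1, e2⟩, a1.2.2.1, a1.2.2.2.1, a2.2.2.2.2⟩
  obtain ⟨p1, q1, r1, s1, e1, a1, b1, c1⟩ := key hg
  obtain ⟨p2, q2, r2, s2, e2, a2, b2, c2⟩ := key hh
  obtain ⟨p3, q3, r3, s3, e3, a3, b3, c3⟩ := key hk
  have p0 := g0_pos (a := a) hx
  have hd := a.ne_zero_iff.1 (h1 ▸ p0.ne')
  have t1 := TrA_mul (TrA_mul e1 e2) e3
  have t2 := TrA_mul (TrA_mul e2 e1) e3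
  have e : dl K g h k = (q1 * r2 * (p3 - s3) - q2 * r1 * (p3 - s3)) +
      (q2 * r3 * (p1 - s1) - q1 * r3 * (p2 - s2)) + (q3 * r1 * (p2 - s2) - q3 * r2 * (p1 - s1)) := by
    rw [dl, trc_eq hd t1.1 t1.2, trc_eq hd t2.1 t2.2]
    ring
  have z : exp (-L) = exp t / g0 a x * (exp (-(t + L)) * g0 a x) := by
    rw [mul_comm (exp _), ← mul_assoc, div_mul_cancel₀ _ p0.ne', ← exp_add]
    ring_nf
  rw [e, z]
  refine (ha.na _ _).trans (max_le ((ha.na _ _).trans (max_le ?_ ?_)) ?_) <;>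
    refine (ha.sub_le _ _).trans (max_le ?_ ?_)
  exacts [TrA_le b1 c2 a3 (by ring), TrA_le b2 c1 a3 (by ring), TrA_le b2 c3 a1 (by ring),
    TrA_le b1 c3 a2 (by ring), TrA_le b3 c1 a2 (by ring), TrA_le b3 c2 a1 (by ring)]

/-- `det_lemma` with `r = 0` (`near_refl`) and `trc_le_one`. -/
theorem stab_trc (ha : Pl a) (hd : Det1 G K) {x : V K} (hx : x ≠ 0) {D : ℝ} (hD : 0 ≤ D) {g : G}
    (h : g • cl (bt a x D) = cl (bt a x D)) : a (trc K g) ≤ 1 :=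
  trc_le_one ha hx hD fun y => by
    simpa using (det_lemma ha hd hx hD (r := 0) (g := g)
      (h.symm ▸ near_refl le_rfl (bt_isSn ha x D).nn) y).1

end Pool.Agent.Work.MP_9d1ffa_al.G2
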