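import Pool.Agent.Work.MP_9d1ffa_al.G2.DpB
import Pool.Agent.Work.MP_9d1ffa_al.G2.TrA

/-! Regime B: weights on classes of norms at one place. -/

namespace Pool.Agent.Work.MP_9d1ffa_al.G2

open Real Topology

variable {K : Type} [Field K] {a : AbsoluteValue K ℝ}
variable {G : Type} [Group G] [DistribMulAction G (V K)] [SMulCommClass G K (V K)]

/-- Put `T = T2 + J`, `Φ = Ph K S (E * T)`; `w` from `exists_w` with `n = E * T`, `D` from
`exists_B`, `W c C = w c * wt 1 (pt a c (D c)) C`, `A` the classes of `bt a x j`, `x ∈ Φ`,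
`j ≤ T + 1` natural. The vector `x` of `DD_ex` for `Φ` satisfies `c x ≤ exp (-D c) * g0 a x`, so
`pt a c (D c) = bt a x (D c)`; use `wt_supp`, `wt_big`, `wt_cont`, `stab_trc`. Last clause: trivial
if `w c = 0`; if `w (s • c) = 0` use `wt ≤ 1`; otherwise apply `exists_B` to `s, c` and to
`s⁻¹, s • c` (`al_inv`), then `wt_mv` with `u = al s c`, `η = 1 / E`. -/
theorem regB (ha : Pl a) (hd : Det1 G K) {S : Finset G} (h1 : (1 : G) ∈ S)
    (hS : ∀ s ∈ S, s⁻¹ ∈ S) {κ : ℕ} (hκ : ∀ s ∈ S, Bd a κ s) (T2 : ℕ) {J E : ℕ} (hJ : 0 < J)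
    (hE : 0 < E) :
    ∃ (w : X a → ℝ) (W : X a → Cls K → ℝ) (A : Set (Cls K)), Continuous w ∧
      (∀ c, 0 ≤ w c ∧ w c ≤ 1) ∧ (∀ s ∈ S, ∀ c, w c ≤ w (s • c) + (2 * κ + 1) / J) ∧
      (∀ c, w c < 1 → ∃ x ∈ Ph K S ((E + 1) * (T2 + J)), c.1 x < exp (-(T2 : ℝ)) * g0 a x) ∧
      A.Finite ∧ (∀ C ∈ A, ∀ g : G, g • C = C → a (trc K g) ≤ 1) ∧
      (∀ C, Continuous fun c => W c C) ∧ (∀ c C, 0 ≤ W c C) ∧ (∀ c C, W c C ≠ 0 → C ∈ A) ∧
      (∀ c, (Function.support (W c)).ncard ≤ 2) ∧ (∀ c, ∃ C, w c / 2 ≤ W c C) ∧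
      ∀ s ∈ S, ∀ c C, W c C ≤ W (s • c) (s • C) + ((2 * κ + 1) / J + 2 / E) := by
  classical
  have hT : 0 < T2 + J := by omega
  obtain ⟨w, hwc, hw01, hws, hwpos, hwlt⟩ := exists_w (a := a) h1 hS hκ (T2 + J) (E * (T2 + J)) hJ
  obtain ⟨D, hDc, hD0, hDs⟩ := exists_B ha h1 hT hE
  have hΦ := Ph_ok (K := K) h1 (E * (T2 + J))
  have hDT : ∀ c, 0 ≤ D c ∧ D c ≤ ((T2 + J : ℕ) : ℝ) := fun c =>
    ⟨(hD0 c).1, (hD0 c).2.trans (DD_le _ _ _)⟩
  have hx : ∀ c : X a, ∃ x ∈ Ph K S (E * (T2 + J)), c.1 x ≤ exp (-D c) * g0 a x := by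
    intro c
    obtain ⟨x, hx, h⟩ := DD_ex (a := a) ((T2 + J : ℕ) : ℝ) hΦ c.1
    exact ⟨x, hx, h.trans (mul_le_mul_of_nonneg_right
      (exp_le_exp.2 (neg_le_neg (hD0 c).2)) (g0_nonneg x))⟩
  have hb : ∀ c : X a, ∃ x ∈ Ph K S (E * (T2 + J)), x ≠ 0 ∧ pt a c.1 (D c) = bt a x (D c) := by
    intro c
    obtain ⟨x, hx, h⟩ := hx c
    have h0 : x ≠ 0 := fun e => hΦ.nz (e ▸ hx)
    exact ⟨x, hx, h0, pt_eq_bt ha c.2.1 c.2.2 h0 (hD0 c).1 h⟩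
  have hsupp : ∀ c : X a, ∃ x ∈ Ph K S (E * (T2 + J)), ∀ C, w c * wt 1 (pt a c.1 (D c)) C ≠ 0 →
      C = cl (bt a x (⌊D c⌋₊ : ℕ)) ∨ C = cl (bt a x (⌊D c⌋₊ + 1 : ℕ)) := by
    intro c
    obtain ⟨x, hx, h0, e⟩ := hb c
    refine ⟨x, hx, fun C hC => ?_⟩
    rw [e] at hC
    simpa using wt_supp ha one_pos h0 (hD0 c).1 (right_ne_zero_of_mul hC)
  have hε : (0 : ℝ) ≤ (2 * κ + 1) / J := by positivity
  have hE' : (0 : ℝ) ≤ 2 / E := by positivity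
  refine ⟨w, fun c C => w c * wt 1 (pt a c.1 (D c)) C,
    {C | ∃ x ∈ Ph K S (E * (T2 + J)), ∃ j : ℕ, j ≤ T2 + J + 1 ∧ C = cl (bt a x j)},
    hwc, hw01, hws, fun c hc => ?_, ?_, ?_, fun C => ?_, fun c C => ?_, fun c C hC => ?_,
    fun c => ?_, fun c => ?_, fun s hs c C => ?_⟩
  · have h2 := hwlt c hc
    rw [show E * (T2 + J) + (T2 + J) = (E + 1) * (T2 + J) by ring] at h2
    have hΦ' := Ph_ok (K := K) h1 ((E + 1) * (T2 + J))
    obtain ⟨x, hx, h⟩ := DD_ex (a := a) ((T2 + J : ℕ) : ℝ) hΦ' c.1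
    refine ⟨x, hx, h.trans_lt (mul_lt_mul_of_pos_right (exp_lt_exp.2 (neg_lt_neg ?_))
      (g0_pos fun e => hΦ'.nz (e ▸ hx)))⟩
    refine lt_of_eq_of_lt ?_ h2
    push_cast
    ring
  · refine (((Ph K S (E * (T2 + J))) ×ˢ Finset.range (T2 + J + 2)).finite_toSet.image
      fun z : V K × ℕ => cl (bt a z.1 z.2)).subset ?_
    rintro C ⟨x, hx, j, hj, rfl⟩
    exact ⟨(x, j), by simp [hx]; omega, rfl⟩
  · rintro C ⟨x, hx, j, -, rfl⟩ g hg
    exact stab_trc ha hd (fun e => hΦ.nz (e ▸ hx)) (Nat.cast_nonneg j) hg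
  · exact hwc.mul (wt_cont ha hΦ.nz hDc hDT hx one_pos C)
  · exact mul_nonneg (hw01 c).1 (wt_nonneg one_pos _ _)
  · obtain ⟨x, hx, h⟩ := hsupp c
    have h2 : ⌊D c⌋₊ ≤ T2 + J := Nat.floor_le_of_le (hDT c).2
    rcases h C hC with e | e
    · exact ⟨x, hx, _, by omega, e⟩
    · exact ⟨x, hx, _, by omega, e⟩
  · obtain ⟨x, -, h⟩ := hsupp c
    refine (Set.ncard_le_ncard (t := {cl (bt a x (⌊D c⌋₊ : ℕ)), cl (bt a x (⌊D c⌋₊ + 1 : ℕ))})
      (fun C hC => h C hC) (Set.toFinite _)).trans ?_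
    exact (Set.ncard_insert_le _ _).trans (by rw [Set.ncard_singleton])
  · obtain ⟨x, -, h0, e⟩ := hb c
    have h2 : ∃ C, 1 / 2 ≤ wt 1 (pt a c.1 (D c)) C := by
      rw [e]
      rcases wt_big ha one_pos h0 (hD0 c).1 with h | h
      · exact ⟨_, h⟩
      · exact ⟨_, h⟩
    obtain ⟨C, hC⟩ := h2
    refine ⟨C, ?_⟩
    have := mul_le_mul_of_nonneg_left hC (hw01 c).1
    linarith
  · have b0 := wt_nonneg one_pos (pt a c.1 (D c)) C
    have b1 := wt_le_one one_pos (pt a c.1 (D c)) C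
    have b2 := wt_nonneg one_pos (pt a (s • c).1 (D (s • c))) (s • C)
    have b3 := hws s hs c
    obtain ⟨w0, w1⟩ := hw01 c
    obtain ⟨w2, w3⟩ := hw01 (s • c)
    change w c * wt 1 (pt a c.1 (D c)) C ≤
      w (s • c) * wt 1 (pt a (s • c).1 (D (s • c))) (s • C) + _
    rcases w0.eq_or_lt with e | e
    · rw [← e, zero_mul]
      positivity
    rcases w2.eq_or_lt with e' | e'
    · rw [← e', zero_mul]
      nlinarith
    have k1 := hDs s hs c (hwpos _ e')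
    have k2 := hDs s⁻¹ (hS s hs) (s • c) (by rw [inv_smul_smul]; exact hwpos _ e)
    rw [inv_smul_smul] at k2
    have hal := al_pos s c
    have k3 := wt_mv one_pos s hal (η := 1 / E) (by positivity) (B := pt a c.1 (D c))
      (B' := pt a (s • c).1 (D (s • c))) (fun y => ⟨?_, k1 y⟩) C
    · have k4 : (2 : ℝ) * (1 : ℕ) * (1 / E) = 2 / E := by
        push_cast
        ring
      rw [k4] at k3
      nlinarith [mul_le_mul_of_nonneg_left k3 w2, mul_le_mul_of_nonneg_right b3 b0,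
        mul_le_mul_of_nonneg_left b1 hε, mul_le_mul_of_nonneg_right w3 hE']
    · have k5 := mul_le_mul_of_nonneg_left (k2 (s⁻¹ • y)) hal.le
      simp only [mv, inv_inv, smul_inv_smul] at k5 ⊢
      rw [← mul_assoc, mul_comm (al s c.1), al_inv, one_mul] at k5
      linarith

end Pool.Agent.Work.MP_9d1ffa_al.G2
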