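import Pool.Agent.Work.MP_9d1ffa_al.G2.Base

/-! From `SL` to `GL`. -/

namespace Pool.Agent.Work.MP_9d1ffa_al.G2

variable {P : (G : Type) → [Group G] → Prop}

/-- A positive integer killing all elements of order dividing a power of two times itself. -/
theorem GlR_kill (D : Type) [CommGroup D] [Group.FG D] :
    ∃ N : ℕ, N ≠ 0 ∧ ∀ x : D, x ^ (2 * N) = 1 → x ^ N = 1 := by
  classical
  obtain ⟨ι, j, _, _, p, hp, e, ⟨E⟩⟩ := CommGroup.equiv_free_prod_prod_multiplicative_zmod D
  have : ∀ i, NeZero (p i ^ e i) := fun i => ⟨pow_ne_zero _ (hp i).ne_zero⟩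
  refine ⟨Nat.card ((i : ι) → Multiplicative (ZMod (p i ^ e i))), Nat.card_pos.ne', ?_⟩
  intro x hx
  set N := Nat.card ((i : ι) → Multiplicative (ZMod (p i ^ e i))) with hN
  have hN0 : N ≠ 0 := Nat.card_pos.ne'
  apply E.injective
  have h1 : (E x) ^ (2 * N) = 1 := by rw [← map_pow, hx, map_one]
  rw [map_pow, map_one]
  refine Prod.ext ?_ ?_
  · funext k
    have h2 : ((E x).1 k) ^ (2 * N) = 1 := by
      have := congrArg (fun z => z.1 k) h1
      simpa using this
    have h3 : (E x).1 k = 1 := by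
      have h4 := congrArg Multiplicative.toAdd h2
      rw [toAdd_pow, toAdd_one, nsmul_eq_mul, mul_eq_zero] at h4
      rcases h4 with h4 | h4
      · exfalso
        have : (2 * N : ℕ) = 0 := by exact_mod_cast h4
        omega
      · exact Multiplicative.toAdd.injective (by simpa using h4)
    simp [h3]
  · exact pow_card_eq_one' (x := (E x).2)

/-- Square roots on a finite index subgroup. Let `N > 0` kill the torsion subgroup (it is finite:
`CommGroup.finite_of_fg_isMulTorsion`, or use the structure theorem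
`CommGroup.equiv_free_prod_prod_multiplicative_zmod`). `D0` is the subgroup of `2 N`-th powers, of
finite index since the quotient is finitely generated and torsion. Squaring is injective on `N`-th
powers and maps them onto `D0`. -/
theorem exists_sqrt (D : Type) [CommGroup D] [Group.FG D] :
    ∃ (D0 : Subgroup D) (σ : D0 →* D), D0.FiniteIndex ∧ ∀ d : D0, σ d ^ 2 = d := by
  classical
  obtain ⟨N, hN, hk⟩ := GlR_kill D
  have key : ∀ x y : D, x ^ (2 * N) = y ^ (2 * N) → x ^ N = y ^ N := by
    intro x y h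
    have h1 : (x / y) ^ (2 * N) = 1 := by rw [div_pow, h, div_self']
    have h2 := hk _ h1
    rw [div_pow] at h2
    exact div_eq_one.mp h2
  have hex : ∀ d : (powMonoidHom (α := D) (2 * N)).range, ∃ x : D, x ^ (2 * N) = d :=
    fun d => d.2
  choose r hr using hex
  refine ⟨(powMonoidHom (α := D) (2 * N)).range, MonoidHom.mk' (fun d => r d ^ N) ?_,
    Subgroup.finiteIndex_range_powMonoidHom_of_fg D (by omega), ?_⟩
  · intro a b
    rw [← mul_pow]
    apply key
    rw [mul_pow, hr, hr, hr]
    rfl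
  · intro d
    change (r d ^ N) ^ 2 = d
    rw [← pow_mul, mul_comm, hr]

/-- Rescaling by a multiplicative square root of the determinant. -/
theorem GlR_embed {K : Type} [Field K] {G : Type} [Group G] (ι : G →* GL (Fin 2) K)
    (hι : Function.Injective ι) (s : G →* Kˣ)
    (hs : ∀ g, s g ^ 2 = Matrix.GeneralLinearGroup.det (ι g)) :
    ∃ φ : G →* S2 K × Kˣ, Function.Injective φ := by
  have hd : ∀ g : G, Matrix.det (((s g)⁻¹ : Kˣ) • ((ι g : GL (Fin 2) K) :
      Matrix (Fin 2) (Fin 2) K)) = 1 := by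
    intro g
    have h1 := congrArg (fun u : Kˣ => (u : K)) (hs g)
    simp only [Units.val_pow_eq_pow_val, Matrix.GeneralLinearGroup.val_det_apply] at h1
    rw [Units.smul_def, Matrix.det_smul, ← h1, Fintype.card_fin, ← mul_pow, Units.inv_mul, one_pow]
  let ψ : G →* S2 K := MonoidHom.mk' (fun g => ⟨_, hd g⟩) (by
    intro a b
    apply Subtype.ext
    simp only [map_mul, Units.val_mul, Matrix.SpecialLinearGroup.coe_mul, Matrix.smul_mul,
      Matrix.mul_smul, smul_smul, mul_inv, mul_comm])
  refine ⟨ψ.prod s, fun a b hab => hι ?_⟩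
  have h1 : ψ a = ψ b := congrArg Prod.fst hab
  have h2 : s a = s b := congrArg Prod.snd hab
  have h3 : ((s a)⁻¹ : Kˣ) • ((ι a : GL (Fin 2) K) : Matrix (Fin 2) (Fin 2) K) =
      ((s b)⁻¹ : Kˣ) • ((ι b : GL (Fin 2) K) : Matrix (Fin 2) (Fin 2) K) :=
    congrArg Subtype.val h1
  rw [h2] at h3
  exact Units.ext (smul_left_cancel _ h3)

/-- `loc`: for a finitely generated `Γ` let `D` be the range of the determinant on `Γ`, `Γ0` the
preimage of `D0`, of finite index; `g ↦ ((σ (det g))⁻¹ • g, σ (det g))` is an injective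
homomorphism `Γ0 →* S2 K × Kˣ`. Use `prod`, `sol`, `inj`, `fin`. -/
theorem Closed.gl_of_sl (hP : Closed P) {K : Type} [Field K] (h : P (S2 K)) :
    P (GL (Fin 2) K) := by
  refine hP.loc _ fun Γ hΓ => ?_
  have : Group.FG Γ := (Group.fg_iff_subgroup_fg Γ).mpr hΓ
  let δ : Γ →* Kˣ := (Matrix.GeneralLinearGroup.det (n := Fin 2) (R := K)).comp Γ.subtype
  obtain ⟨D0, σ, hD0, hσ⟩ := exists_sqrt δ.range
  have hfi : (D0.comap δ.rangeRestrict).FiniteIndex := by
    refine ⟨?_⟩
    rw [Subgroup.index_comap_of_surjective _ δ.rangeRestrict_surjective]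
    exact hD0.index_ne_zero
  refine hP.fin _ (D0.comap δ.rangeRestrict) hfi ?_
  let τ : D0.comap δ.rangeRestrict →* D0 :=
    (δ.rangeRestrict.comp (D0.comap δ.rangeRestrict).subtype).codRestrict D0 fun g => g.2
  obtain ⟨φ, hφ⟩ := GlR_embed (Γ.subtype.comp (D0.comap δ.rangeRestrict).subtype)
    (Γ.subtype_injective.comp (D0.comap δ.rangeRestrict).subtype_injective)
    (δ.range.subtype.comp (σ.comp τ)) (by
      intro g
      have h1 := congrArg δ.range.subtype (hσ (τ g))
      rw [map_pow] at h1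
      exact h1)
  exact hP.inj _ _ φ hφ (hP.prod _ _ h (hP.sol _ (inferInstance : Group.IsSolvable Kˣ)))

end Pool.Agent.Work.MP_9d1ffa_al.G2
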