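import Pool.Agent.Work.MP_9d1ffa_al.G2.Base

/-! From fields to commutative rings. -/

namespace Pool.Agent.Work.MP_9d1ffa_al.G2

variable {P : (G : Type) → [Group G] → Prop}

/-- Induction on the finite index type (`Finite.induction_empty_option`, `MulEquiv.piOptionEquivProd`
or an explicit injective homomorphism to the product). -/
theorem Closed.pi (hP : Closed P) {ι : Type} [Finite ι] (G : ι → Type) [∀ i, Group (G i)]
    (h : ∀ i, P (G i)) : P (∀ i, G i) := by
  revert G
  refine Finite.induction_empty_option (P := fun ι => ∀ (G : ι → Type) [∀ i, Group (G i)],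
    (∀ i, P (G i)) → P (∀ i, G i)) ?_ ?_ ?_ ι
  · intro α β e ih G _ h
    refine hP.inj _ _ (MonoidHom.pi fun a => Pi.evalMonoidHom G (e a)) (fun x y hxy => ?_)
      (ih (fun a => G (e a)) fun a => h (e a))
    funext b
    obtain ⟨a, rfl⟩ := e.surjective b
    exact congrFun hxy a
  · intro G _ _
    exact hP.finite _
  · intro α _ ih G _ h
    refine hP.inj _ _ ((Pi.evalMonoidHom G none).prod
      (MonoidHom.pi fun a => Pi.evalMonoidHom G (some a))) (fun x y hxy => ?_)
      (hP.prod _ _ (h none) (ih (fun a => G (some a)) fun a => h (some a)))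
    funext b
    cases b with
    | none => exact congrArg Prod.fst hxy
    | some a => exact congrFun (congrArg Prod.snd hxy) a

/-- `ext`: the preimage of the cyclic subgroup `C` is solvable (`solvable_of_ker_le_range`) and has
finite index in the preimage of `H`. -/
theorem Closed.of_ker (hP : Closed P) {G Q : Type} [Group G] [Group Q] (φ : G →* Q) (hQ : P Q)
    (hk : IsSolvable φ.ker) : P G := by
  refine hP.ext G Q φ hQ ?_
  rintro H ⟨C, hC, hF⟩
  let ψ : H.comap φ →* H := φ.subgroupComap H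
  have hfin : (C.comap ψ).FiniteIndex := by
    refine ⟨?_⟩
    rw [Subgroup.index_comap]
    exact (inferInstance : (C.subgroupOf ψ.range).FiniteIndex).index_ne_zero
  refine hP.fin _ (C.comap ψ) hfin (hP.sol _ ?_)
  let χ : C.comap ψ →* C := ψ.subgroupComap C
  have h1 : Group.IsSolvable C := Group.isSolvable_of_comm fun a b => by
    obtain ⟨g, hg⟩ := IsCyclic.exists_generator (α := C)
    obtain ⟨m, rfl⟩ := hg a
    obtain ⟨n, rfl⟩ := hg b
    exact (Commute.zpow_zpow_self g m n).eq
  have h0 : Group.IsSolvable φ.ker := hk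
  let θ : χ.ker →* φ.ker := MonoidHom.codRestrict
    ((H.comap φ).subtype.comp ((C.comap ψ).subtype.comp χ.ker.subtype)) φ.ker fun x =>
      congrArg (fun y : C => ((y : H) : Q)) x.2
  have h2 : Group.IsSolvable χ.ker := Group.isSolvable_of_isSolvable_injective (f := θ)
    fun x y hxy => Subtype.ext (Subtype.ext (Subtype.ext (congrArg (fun z : φ.ker => (z : G)) hxy)))
  exact Group.isSolvable_of_ker_le_range χ.ker.subtype χ (Subgroup.range_subtype _).ge

theorem Rng_ker {R : Type} [CommRing R] (I : Ideal R) (g : GL (Fin 2) R) :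
    g ∈ (Matrix.GeneralLinearGroup.map (n := Fin 2) (Ideal.Quotient.mk I)).ker ↔
      ∀ i j, ((g : Matrix (Fin 2) (Fin 2) R) - 1) i j ∈ I := by
  rw [MonoidHom.mem_ker, Units.ext_iff, ← Matrix.ext_iff]
  refine forall_congr' fun i => forall_congr' fun j => ?_
  rw [Matrix.sub_apply, ← Ideal.Quotient.eq]
  refine Eq.congr rfl ?_
  rw [Units.val_one, Matrix.one_apply, Matrix.one_apply]
  split_ifs <;> simp

theorem Rng_mul {R : Type} [CommRing R] {I J : Ideal R} {a b : Matrix (Fin 2) (Fin 2) R}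
    (ha : ∀ i j, a i j ∈ I) (hb : ∀ i j, b i j ∈ J) (i j : Fin 2) : (a * b) i j ∈ I * J := by
  rw [Matrix.mul_apply]
  exact Ideal.sum_mem _ fun k _ => Ideal.mul_mem_mul (ha i k) (hb k j)

theorem Rng_comm {R : Type} [CommRing R] {I : Ideal R} {a b : GL (Fin 2) R}
    (ha : ∀ i j, ((a : Matrix (Fin 2) (Fin 2) R) - 1) i j ∈ I)
    (hb : ∀ i j, ((b : Matrix (Fin 2) (Fin 2) R) - 1) i j ∈ I) (i j : Fin 2) :
    (((a * b * a⁻¹ * b⁻¹ : GL (Fin 2) R) : Matrix (Fin 2) (Fin 2) R) - 1) i j ∈ I * I := by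
  have e : ((a * b * a⁻¹ * b⁻¹ : GL (Fin 2) R) : Matrix (Fin 2) (Fin 2) R) - 1 =
      (((a : Matrix (Fin 2) (Fin 2) R) - 1) * ((b : Matrix (Fin 2) (Fin 2) R) - 1) -
        ((b : Matrix (Fin 2) (Fin 2) R) - 1) * ((a : Matrix (Fin 2) (Fin 2) R) - 1)) *
          ((a⁻¹ * b⁻¹ : GL (Fin 2) R) : Matrix (Fin 2) (Fin 2) R) := by
    have e1 : ((b * a * (a⁻¹ * b⁻¹) : GL (Fin 2) R) : Matrix (Fin 2) (Fin 2) R) = 1 := by
      rw [show b * a * (a⁻¹ * b⁻¹) = 1 by group, Units.val_one]
    rw [Units.val_mul, Units.val_mul] at e1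
    rw [mul_assoc (a * b), Units.val_mul, Units.val_mul, ← e1, ← sub_mul, e1]
    congr 1
    noncomm_ring
  rw [e, Matrix.mul_apply]
  refine Ideal.sum_mem _ fun k _ => Ideal.mul_mem_right _ _ ?_
  rw [Matrix.sub_apply]
  exact sub_mem (Rng_mul ha hb i k) (Rng_mul hb ha i k)

/-- By induction the `j`-th derived subgroup consists of matrices congruent to `1` modulo
`N ^ (j + 1)`: `a b a⁻¹ b⁻¹ - 1 = ((a - 1) (b - 1) - (b - 1) (a - 1)) a⁻¹ b⁻¹`. -/
theorem solvable_congr {R : Type} [CommRing R] (N : Ideal R) (hN : IsNilpotent N)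
    (H : Subgroup (GL (Fin 2) R))
    (h : ∀ g ∈ H, ∀ i j, ((g : Matrix (Fin 2) (Fin 2) R) - 1) i j ∈ N) : IsSolvable H := by
  have key : ∀ m : ℕ, derivedSeries H m ≤ (Matrix.GeneralLinearGroup.map (n := Fin 2)
      (Ideal.Quotient.mk (N ^ (m + 1)))).ker.comap H.subtype := by
    intro m
    induction m with
    | zero =>
      intro g _
      rw [Subgroup.mem_comap, Rng_ker, zero_add, pow_one]
      exact h g g.2
    | succ m ih =>
      rw [derivedSeries_succ, Subgroup.commutator_le]
      intro a ha b hb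
      have h1 := ih ha
      have h2 := ih hb
      rw [Subgroup.mem_comap, Rng_ker] at h1 h2 ⊢
      intro i j
      have h3 := Rng_comm h1 h2 i j
      rw [← pow_add] at h3
      exact Ideal.pow_le_pow_right (by omega) h3
  obtain ⟨m, hm⟩ := hN
  refine Group.IsSolvable.mk ⟨m, eq_bot_iff.2 fun g hg => ?_⟩
  have h1 := key m hg
  rw [Subgroup.mem_comap, Rng_ker, pow_succ, hm, zero_mul] at h1
  refine Subgroup.mem_bot.2 (Subtype.ext (Units.ext (sub_eq_zero.1 ?_)))
  exact Matrix.ext fun i j => h1 i j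

theorem Rng_inj {R S : Type} [CommRing R] [CommRing S] (f : R →+* S) (hf : Function.Injective f) :
    Function.Injective (Matrix.GeneralLinearGroup.map (n := Fin 2) f) := fun _ _ hxy =>
  Units.ext (Matrix.ext fun i j => hf (congrArg (fun g : GL (Fin 2) S => g i j) hxy))

/-- Finitely many minimal primes (`minimalPrimes.finite_of_isNoetherianRing`), their intersection is
the nilradical (`Ideal.sInf_minimalPrimes`), which is nilpotent
(`IsNoetherianRing.isNilpotent_nilradical`); map to the product of the `GL (Fin 2)` of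
`FractionRing (R ⧸ p)` (`Matrix.GeneralLinearGroup.map`, `Pi.monoidHom`). -/
theorem Closed.gl_noeth (hP : Closed P) (h : ∀ (K : Type) [Field K], P (GL (Fin 2) K)) (R : Type)
    [CommRing R] [IsNoetherianRing R] : P (GL (Fin 2) R) := by
  have : Finite (minimalPrimes R) := (minimalPrimes.finite_of_isNoetherianRing R).to_subtype
  have : ∀ p : minimalPrimes R, p.1.IsPrime := fun p => Ideal.IsMinimalPrime.isPrime p.2
  let φ : GL (Fin 2) R →* ∀ p : minimalPrimes R, GL (Fin 2) (FractionRing (R ⧸ p.1)) :=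
    MonoidHom.pi fun p => (Matrix.GeneralLinearGroup.map
      (algebraMap (R ⧸ p.1) (FractionRing (R ⧸ p.1)))).comp
        (Matrix.GeneralLinearGroup.map (Ideal.Quotient.mk p.1))
  refine hP.of_ker φ (hP.pi _ fun p => h _) (solvable_congr (nilradical R)
    (IsNoetherianRing.isNilpotent_nilradical R) _ fun g hg i j => ?_)
  change _ ∈ (⊥ : Ideal R).radical
  rw [← Ideal.sInf_minimalPrimes, Submodule.mem_sInf]
  intro p hp
  refine (Rng_ker p g).1 ?_ i j
  have h1 := congrFun (MonoidHom.mem_ker.1 hg) ⟨p, hp⟩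
  exact Rng_inj _ (IsFractionRing.injective (R ⧸ p) (FractionRing (R ⧸ p)))
    (h1.trans (map_one _).symm)

/-- `loc`: a finitely generated subgroup lies in the image of `GL (Fin 2) A` for the finitely
generated `ℤ`-subalgebra `A` generated by the entries of the generators and of their inverses
(`Subalgebra.fg_adjoin_finset`, `isNoetherianRing_of_fg`); the map is injective. -/
theorem Closed.gl_ring (hP : Closed P) (h : ∀ (K : Type) [Field K], P (GL (Fin 2) K)) (R : Type)
    [CommRing R] : P (GL (Fin 2) R) := by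
  classical
  refine hP.loc _ fun H hH => ?_
  obtain ⟨S, rfl⟩ := hH
  let T : Finset R := S.biUnion fun s => Finset.univ.image (fun q : Fin 2 × Fin 2 => s q.1 q.2) ∪
    Finset.univ.image fun q : Fin 2 × Fin 2 => s⁻¹ q.1 q.2
  let A : Subalgebra ℤ R := Algebra.adjoin ℤ (T : Set R)
  have : IsNoetherianRing A := isNoetherianRing_of_fg (Subalgebra.fg_adjoin_finset T)
  let f : GL (Fin 2) A →* GL (Fin 2) R := Matrix.GeneralLinearGroup.map A.val.toRingHom
  have hf : Function.Injective f := Rng_inj _ Subtype.val_injective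
  have hle : Subgroup.closure (S : Set (GL (Fin 2) R)) ≤ f.range := by
    refine (Subgroup.closure_le _).2 fun s hs => ?_
    have h1 : ∀ i j, s i j ∈ A := fun i j => Algebra.subset_adjoin (Finset.mem_coe.2
      (Finset.mem_biUnion.2 ⟨s, hs, Finset.mem_union_left _
        (Finset.mem_image.2 ⟨(i, j), Finset.mem_univ _, rfl⟩)⟩))
    have h2 : ∀ i j, s⁻¹ i j ∈ A := fun i j => Algebra.subset_adjoin (Finset.mem_coe.2
      (Finset.mem_biUnion.2 ⟨s, hs, Finset.mem_union_right _
        (Finset.mem_image.2 ⟨(i, j), Finset.mem_univ _, rfl⟩)⟩))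
    have hm : Function.Injective (A.val.toRingHom.mapMatrix (m := Fin 2)) := fun x y hxy =>
      Matrix.ext fun i j => Subtype.ext (congrFun (congrFun hxy i) j)
    refine ⟨⟨Matrix.of fun i j => ⟨s i j, h1 i j⟩, Matrix.of fun i j => ⟨s⁻¹ i j, h2 i j⟩,
      hm ?_, hm ?_⟩, Units.ext rfl⟩
    · rw [map_mul, map_one]
      exact s.mul_inv
    · rw [map_mul, map_one]
      exact s.inv_mul
  exact hP.inj _ _ ((MonoidHom.ofInjective hf).symm.toMonoidHom.comp (Subgroup.inclusion hle))
    ((MonoidHom.ofInjective hf).symm.injective.comp (Subgroup.inclusion_injective hle))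
    (hP.gl_noeth h A)

end Pool.Agent.Work.MP_9d1ffa_al.G2
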