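import Pool.Agent.Work.MP_9d1ffa_al.G2.Ind
import Pool.Agent.Work.MP_9d1ffa_al.G2.PlB
import Pool.Agent.Work.MP_9d1ffa_al.G2.GlR
import Pool.Agent.Work.MP_9d1ffa_al.G2.Rng

/-! Induction on the transcendence degree and the final statement. -/

namespace Pool.Agent.Work.MP_9d1ffa_al.G2

open IntermediateField

variable {P : (G : Type) → [Group G] → Prop}

theorem Fin_map_inj {K Ω : Type} [Field K] [Field Ω] (f : K →+* Ω) :
    Function.Injective (Matrix.SpecialLinearGroup.map (n := Fin 2) f) := by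
  intro g h hgh
  refine Matrix.SpecialLinearGroup.ext _ _ fun i j => f.injective ?_
  exact congrArg (fun m : S2 Ω => m.1 i j) hgh

theorem Fin_int {k K Ω : Type} [Field k] [Field K] [Field Ω] [Algebra k K] [Algebra k Ω]
    (f : K →ₐ[k] Ω) (w x : K) (h : IsIntegral (Algebra.adjoin k {f w}) (f x)) :
    IsIntegral (Algebra.adjoin k {w}) x := by
  have hmap : (Algebra.adjoin k {w}).map f = Algebra.adjoin k {f w} := by
    rw [AlgHom.map_adjoin_singleton]
  let φ : Algebra.adjoin k {w} →+* Algebra.adjoin k {f w} :=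
    ((f : K →+* Ω).comp (Algebra.adjoin k {w}).val.toRingHom).codRestrict
      (Algebra.adjoin k {f w}) (fun a => by
        rw [← hmap]
        exact ⟨a.1, a.2, rfl⟩)
  have hφ : Function.Surjective φ := by
    intro b
    have hb : b.1 ∈ (Algebra.adjoin k {w}).map f := by rw [hmap]; exact b.2
    obtain ⟨a, ha, hab⟩ := hb
    exact ⟨⟨a, ha⟩, Subtype.ext hab⟩
  obtain ⟨p, hp, hp0⟩ := h
  obtain ⟨q, hq, -, hqm⟩ := Polynomial.lifts_and_natDegree_eq_and_monic
    ((Polynomial.mem_lifts p).2 (Polynomial.map_surjective φ hφ p)) hp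
  refine ⟨q, hqm, (f : K →+* Ω).injective ?_⟩
  rw [Polynomial.hom_eval₂, map_zero, ← hp0, ← hq, Polynomial.eval₂_map]
  rfl

open Classical in
/-- The finite set of entries of a finite set of matrices. -/
noncomputable def Fin_ent {Ω : Type} [Field Ω] (S : Finset (S2 Ω)) : Finset Ω :=
  (S ×ˢ (Finset.univ : Finset (Fin 2 × Fin 2))).image fun p => p.1.1 p.2.1 p.2.2

theorem Fin_mem_ent {Ω : Type} [Field Ω] {S : Finset (S2 Ω)} {s : S2 Ω} (hs : s ∈ S)
    (i j : Fin 2) : s.1 i j ∈ Fin_ent S := by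
  classical
  unfold Fin_ent
  exact Finset.mem_image.2 ⟨(s, i, j), by simp [hs], rfl⟩

theorem Fin_of_mem_ent {Ω : Type} [Field Ω] {S : Finset (S2 Ω)} {e : Ω} (he : e ∈ Fin_ent S) :
    ∃ s ∈ S, ∃ i j, s.1 i j = e := by
  classical
  unfold Fin_ent at he
  obtain ⟨p, hp, rfl⟩ := Finset.mem_image.1 he
  exact ⟨p.1, (Finset.mem_product.1 hp).1, p.2.1, p.2.2, rfl⟩

theorem Closed.Fin_range (hP : Closed P) {G Q : Type} [Group G] [Group Q] (φ : G →* Q)
    (hφ : Function.Injective φ) (h : P φ.range) : P G :=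
  hP.inj _ _ φ.rangeRestrict (MonoidHom.rangeRestrict_injective_iff.2 hφ) h

theorem Closed.Fin_base (hP : Closed P) {k K Ω : Type} [Field k] [Field K] [Field Ω] [Algebra k K]
    [Algebra k Ω] [IsAlgClosed Ω] (f : K →ₐ[k] Ω)
    (hk : ∀ H : Subgroup (S2 Ω), (∀ g ∈ H, ∀ i j, IsAlgebraic k (g.1 i j)) → P H)
    (H : Subgroup (S2 K)) (hH : ∀ g ∈ H, IsAlgebraic k g.1.trace) : P H := by
  let ψ : H →* S2 Ω := (Matrix.SpecialLinearGroup.map (n := Fin 2) (f : K →+* Ω)).comp H.subtype
  have hψ : Function.Injective ψ := (Fin_map_inj _).comp H.subtype_injective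
  refine hP.Fin_range ψ hψ ?_
  have htr : ∀ g ∈ ψ.range, IsAlgebraic k g.1.trace := by
    rintro _ ⟨g, rfl⟩
    have h1 : (ψ g).1.trace = f g.1.1.trace := by
      rw [Matrix.trace_fin_two, Matrix.trace_fin_two, map_add]
      rfl
    rw [h1]
    exact (hH g.1 g.2).algHom f
  rcases descent ψ.range htr with h | ⟨φ, hφ, ha⟩
  · exact hP.sol _ h
  · refine hP.Fin_range φ hφ (hk _ ?_)
    rintro _ ⟨g, rfl⟩
    exact ha g

/-- If `u` is algebraic over `k` the entries are algebraic over `k`. Otherwise `loc_sub`; `E` is the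
set of entries of the generators, `w` from `exists_integral_param`, `F = k⟮w⟯`, `K = adjoin F E`
(`IntermediateField.finiteDimensional_adjoin`); `places` for `AdjoinSimple.gen k w` (`gen_top`), `A`
the integral closure of `Algebra.adjoin k {w}` in `K`, `k1` the elements algebraic over `k`,
`eq_zero_of_lt_one`;
`closure_entries`, `exists_lift`, `places_ind`. For `hbase` map to `S2 Ω`
(`Matrix.SpecialLinearGroup.map`) and use `descent` and `hk`. -/
theorem Closed.step (hP : Closed P) {k Ω : Type} [Field k] [Field Ω] [Algebra k Ω] [IsAlgClosed Ω]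
    [Countable Ω]
    (hk : ∀ H : Subgroup (S2 Ω), (∀ g ∈ H, ∀ i j, IsAlgebraic k (g.1 i j)) → P H) (u : Ω)
    (H : Subgroup (S2 Ω)) (hH : ∀ g ∈ H, ∀ i j, IsAlgebraic k⟮u⟯ (g.1 i j)) : P H := by
  by_cases hu : IsAlgebraic k u
  · have : Algebra.IsAlgebraic k k⟮u⟯ := isAlgebraic_adjoin_simple hu.isIntegral
    exact hk H fun g hg i j => (hH g hg i j).restrictScalars k
  refine hP.loc_sub H fun S hS => ?_
  obtain ⟨w, hw, hE⟩ := exists_integral_param hu (Fin_ent S) (fun e he => by
    obtain ⟨s, hs, i, j, rfl⟩ := Fin_of_mem_ent he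
    exact hH s (hS s hs) i j)
  have hEF : ∀ e ∈ (Fin_ent S : Set Ω), IsIntegral k⟮w⟯ e := fun e he => by
    open scoped IntermediateField.algebraAdjoinAdjoin in
    exact (hE e he).tower_top
  let K : IntermediateField k⟮w⟯ Ω := IntermediateField.adjoin k⟮w⟯ (Fin_ent S : Set Ω)
  have : FiniteDimensional k⟮w⟯ K := finiteDimensional_adjoin hEF
  have hg : Transcendental k (AdjoinSimple.gen k w) := fun h =>
    hw (by simpa using h.algHom (k⟮w⟯).val)
  obtain ⟨I, _, av, ha, hk1, hZ⟩ := places (K := K) hg (gen_top w)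
  let f : K →ₐ[k] Ω := K.val.restrictScalars k
  let w' : K := algebraMap k⟮w⟯ K (AdjoinSimple.gen k w)
  have hw' : f w' = w := rfl
  let A : Subring K := (integralClosure (Algebra.adjoin k {w'}) K).toSubring
  have hent : ∀ g ∈ Subgroup.closure (S : Set (S2 Ω)), ∀ i j,
      g.1 i j ∈ A.map (f : K →+* Ω) := by
    refine closure_entries _ fun s hs i j => ?_
    have he := Fin_mem_ent hs i j
    refine ⟨⟨s.1 i j, subset_adjoin _ _ he⟩, ?_, rfl⟩
    refine Fin_int f w' _ ?_
    rw [hw']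
    exact hE _ he
  obtain ⟨φ, hφ, hφe⟩ := exists_lift (f : K →+* Ω) (Subgroup.closure (S : Set (S2 Ω)))
    (fun g hg i j => by
      obtain ⟨a, -, h⟩ := hent g hg i j
      exact ⟨a, h⟩)
  refine hP.Fin_range φ hφ ?_
  refine hP.places_ind ha A {x | IsAlgebraic k x} (fun x hx h => hZ x hx h)
    (fun x hx i h => eq_zero_of_lt_one (ha i) (hk1 i) hx h)
    (fun H' h' => hP.Fin_base f hk H' h') _ ?_
  rintro _ ⟨g, rfl⟩ i j
  obtain ⟨a, ha', h⟩ := hent g.1 g.2 i j
  have : a = (φ g).1 i j := (f : K →+* Ω).injective (h.trans (hφe g i j).symm)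
  exact this ▸ ha'

/-- For every finite `Y` there is a subfield `k ⊇ Y` satisfying the hypothesis `hk` of `step`
(induction on `Y`, `base`, `k⟮u⟯.toSubfield`); then `loc_sub` and `closure_entries`. -/
theorem Closed.s2_closed (hP : Closed P) (Ω : Type) [Field Ω] [IsAlgClosed Ω] [Countable Ω] :
    P (S2 Ω) := by
  classical
  have key : ∀ Y : Finset Ω, ∃ (k : Type) (_ : Field k) (_ : Algebra k Ω),
      (∀ y ∈ Y, y ∈ (algebraMap k Ω).range) ∧
      ∀ H : Subgroup (S2 Ω), (∀ g ∈ H, ∀ i j, IsAlgebraic k (g.1 i j)) → P H := by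
    intro Y
    induction Y using Finset.induction_on with
    | empty => exact ⟨(⊥ : Subfield Ω), inferInstance, inferInstance, by simp, hP.base⟩
    | insert u Y _ ih =>
      obtain ⟨k, _, _, hY, hk⟩ := ih
      refine ⟨k⟮u⟯, inferInstance, inferInstance, fun y hy => ?_, hP.step hk u⟩
      rcases Finset.mem_insert.1 hy with rfl | hy
      · exact ⟨AdjoinSimple.gen k y, rfl⟩
      · obtain ⟨c, rfl⟩ := hY y hy
        exact ⟨algebraMap k k⟮u⟯ c, rfl⟩
  refine hP.loc _ ?_
  rintro _ ⟨S, rfl⟩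
  obtain ⟨k, _, _, hY, hk⟩ := key (Fin_ent S)
  refine hk _ fun g hg i j => ?_
  obtain ⟨c, hc⟩ := closure_entries (algebraMap k Ω).range
    (fun s hs i j => hY _ (Fin_mem_ent hs i j)) g hg i j
  rw [← hc]
  exact isAlgebraic_algebraMap c

/-- `loc_sub`; the subfield generated by finitely many entries is countable
(`Subfield.cardinalMk_closure_le_max`), and so is its algebraic closure
(`Algebra.IsAlgebraic.cardinalMk_le_max`); `exists_lift`, `Matrix.SpecialLinearGroup.map`. -/
theorem Closed.s2_field (hP : Closed P) (K : Type) [Field K] : P (S2 K) := by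
  refine hP.loc _ ?_
  rintro _ ⟨S, rfl⟩
  let k : Subfield K := Subfield.closure (Fin_ent S : Set K)
  have hk : Cardinal.mk k ≤ Cardinal.aleph0 :=
    (Subfield.cardinalMk_closure_le_max _).trans
      (max_le (Finset.finite_toSet _).countable.le_aleph0 le_rfl)
  have : Countable (AlgebraicClosure k) := Cardinal.mk_le_aleph0_iff.1
    ((Algebra.IsAlgebraic.cardinalMk_le_max k (AlgebraicClosure k)).trans (max_le hk le_rfl))
  obtain ⟨φ, hφ, -⟩ := exists_lift k.subtype (Subgroup.closure (S : Set (S2 K)))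
    (closure_entries _ fun s hs i j =>
      ⟨⟨s.1 i j, Subfield.subset_closure (Fin_mem_ent hs i j)⟩, rfl⟩)
  exact hP.inj _ _ ((Matrix.SpecialLinearGroup.map (n := Fin 2)
    (algebraMap k (AlgebraicClosure k))).comp φ) ((Fin_map_inj _).comp hφ) (hP.s2_closed _)

theorem Closed.gl2 (hP : Closed P) (R : Type) [CommRing R] : P (GL (Fin 2) R) :=
  hP.gl_ring (fun K _ => hP.gl_of_sl (hP.s2_field K)) R

end Pool.Agent.Work.MP_9d1ffa_al.G2
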