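import Pool.Agent.Work.MP_9d1ffa_al.G2.Main
import Pool.Agent.Work.MP_9d1ffa_al.G2.Base

/-! Induction on the set of active places. -/

namespace Pool.Agent.Work.MP_9d1ffa_al.G2

variable {P : (G : Type) → [Group G] → Prop}

/-- Induction on `J : Finset I` (strong, or on the cardinality): every `H` with entries in `A` and
`av j (trace g) ≤ 1` for `j ∉ J`, `g ∈ H` is in `P`. For `J = ∅` use `hZ`, `hbase`. For nonempty `J`
apply `str_main` to the group `H` and the index type `J`: `dl K g h k` is a difference of two traces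
(`sub_trc`), lies in `A`, is at most `1` outside `J` (`Pl.sub_le`), so if it is `< 1` on `J` it lies
in `k1` and vanishes by `h0`. A member `H'` of `Fam` is solvable, or `H'.map H.subtype` satisfies
the hypothesis for `J.erase i` (`Subgroup.equivMapOfInjective`, `hP.inj`). -/
theorem Closed.places_ind (hP : Closed P) {K : Type} [Field K] [Countable K] {I : Type} [Fintype I]
    {av : I → AbsoluteValue K ℝ} (ha : ∀ i, Pl (av i)) (A : Subring K) (k1 : Set K)
    (hZ : ∀ x ∈ A, (∀ i, av i x ≤ 1) → x ∈ k1) (h0 : ∀ x ∈ k1, ∀ i, av i x < 1 → x = 0)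
    (hbase : ∀ H : Subgroup (S2 K), (∀ g ∈ H, g.1.trace ∈ k1) → P H) (H : Subgroup (S2 K))
    (hH : ∀ g ∈ H, ∀ i j, g.1 i j ∈ A) : P H := by
  classical
  have htr : ∀ H : Subgroup (S2 K), (∀ g ∈ H, ∀ i j, g.1 i j ∈ A) → ∀ g ∈ H, g.1.trace ∈ A :=
    fun H hH g hg => by
      rw [Matrix.trace_fin_two]
      exact A.add_mem (hH g hg 0 0) (hH g hg 1 1)
  have key : ∀ (n : ℕ) (J : Finset I), J.card = n → ∀ H : Subgroup (S2 K),
      (∀ g ∈ H, ∀ i j, g.1 i j ∈ A) → (∀ j, j ∉ J → ∀ g ∈ H, av j g.1.trace ≤ 1) → P H := by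
    intro n
    induction n with
    | zero =>
      intro J hJ H hH hout
      rw [Finset.card_eq_zero] at hJ
      subst hJ
      exact hbase H fun g hg => hZ _ (htr H hH g hg) fun i => hout i (Finset.notMem_empty i) g hg
    | succ n ih =>
      intro J hJ H hH hout
      obtain ⟨i0, hi0⟩ : J.Nonempty := Finset.card_pos.1 (by omega)
      have : Nonempty J := ⟨⟨i0, hi0⟩⟩
      refine hP.str H (Fam H fun i : J => av i.1) ?_
        (str_main (fun i : J => ha i.1) (sub_det1 H) fun g h k hlt => ?_)
      · rintro H' (hs | ⟨i, hi⟩)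
        · exact hP.sol _ hs
        · refine hP.inj _ (H'.map H.subtype)
            (Subgroup.equivMapOfInjective H' H.subtype H.subtype_injective).toMonoidHom
            (MulEquiv.injective _) (ih (J.erase i.1) ?_ _ ?_ ?_)
          · rw [Finset.card_erase_of_mem i.2, hJ, Nat.add_sub_cancel]
          · rintro _ ⟨g, -, rfl⟩
            exact hH _ g.2
          · rintro j hj _ ⟨g, hg, rfl⟩
            by_cases hji : j = i.1
            · have := hi g hg
              rw [sub_trc] at this
              rw [hji]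
              exact this
            · exact hout j (fun hjJ => hj (Finset.mem_erase.2 ⟨hji, hjJ⟩)) _ g.2
      · refine h0 _ (hZ _ ?_ fun i => ?_) i0 (hlt ⟨i0, hi0⟩)
        · rw [dl, sub_trc, sub_trc]
          exact A.sub_mem (htr H hH _ (g * h * k).2) (htr H hH _ (h * g * k).2)
        · by_cases hi : i ∈ J
          · exact (hlt ⟨i, hi⟩).le
          · rw [dl, sub_trc, sub_trc]
            exact ((ha i).sub_le _ _).trans
              (max_le (hout i hi _ (g * h * k).2) (hout i hi _ (h * g * k).2))
  exact key _ Finset.univ rfl H hH fun j hj => absurd (Finset.mem_univ j) hj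

end Pool.Agent.Work.MP_9d1ffa_al.G2
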