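import Pool.Agent.Work.MP_9d1ffa_al.G2.DomB
import Pool.Agent.Work.MP_9d1ffa_al.G2.DpC
import Pool.Agent.Work.MP_9d1ffa_al.G2.BxB
import Pool.Agent.Work.MP_9d1ffa_al.G2.Nrm

/-! Strict transfer reducibility. -/

namespace Pool.Agent.Work.MP_9d1ffa_al.G2

open Real Topology Filter

variable {K : Type} [Field K] {I : Type} [Fintype I]
variable {G : Type} [Group G] [DistribMulAction G (V K)] [SMulCommClass G K (V K)]

/-- Solvable subgroups and subgroups with bounded traces at some place. -/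
def Fam (G : Type) [Group G] [DistribMulAction G (V K)] (av : I → AbsoluteValue K ℝ) :
    Set (Subgroup G) := {H | IsSolvable H ∨ ∃ i, ∀ g ∈ H, av i (trc K g) ≤ 1}

theorem Main_conj {av : I → AbsoluteValue K ℝ} (hd : Det1 G K) :
    ∀ H ∈ Fam G av, ∀ g : G, H.map (MulAut.conj g).toMonoidHom ∈ Fam G av := by
  rintro H (h | ⟨i, h⟩) g
  · left
    haveI : Group.IsSolvable H := h
    exact Group.isSolvable_of_surjective
      (MonoidHom.subgroupMap_surjective (MulAut.conj g).toMonoidHom H)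
  · right
    refine ⟨i, ?_⟩
    rintro _ ⟨x, hx, rfl⟩
    have : (MulAut.conj g).toMonoidHom x = g * x * g⁻¹ := rfl
    rw [this, trc_conj hd]
    exact h x hx

theorem Main_nat (c : ℝ) {η : ℝ} (hη : 0 < η) : ∃ n : ℕ, 0 < n ∧ c / n ≤ η := by
  obtain ⟨n, hn⟩ := exists_nat_gt (c / η)
  refine ⟨n + 1, Nat.succ_pos n, ?_⟩
  have h1 : (0 : ℝ) < ((n + 1 : ℕ) : ℝ) := by positivity
  rw [div_le_iff₀ h1]
  rw [div_lt_iff₀ hη] at hn
  push_cast
  nlinarith

theorem Main_kappa {av : I → AbsoluteValue K ℝ} (ha : ∀ i, Pl (av i)) (S : Finset G) :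
    ∃ κ : ℕ, ∀ i, ∀ s ∈ S, Bd (av i) κ s := by
  choose f hf using fun (i : I) (s : G) => exists_Bd (ha i) s
  refine ⟨∑ i, ∑ s ∈ S, f i s, fun i s hs => (hf i s).mono ?_⟩
  calc f i s ≤ ∑ s ∈ S, f i s := Finset.single_le_sum (fun _ _ => Nat.zero_le _) hs
    _ ≤ ∑ i, ∑ s ∈ S, f i s :=
      Finset.single_le_sum (f := fun i => ∑ s ∈ S, f i s) (fun _ _ => Nat.zero_le _)
        (Finset.mem_univ i)

theorem Main_cont {Y : Type} [TopologicalSpace Y] {u W : Y → ℝ} (hu : Continuous u)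
    (h0 : ∀ y, 0 ≤ u y) (hW : ∀ y, 0 ≤ W y ∧ W y ≤ 1)
    (h : ∀ y, 0 < u y → ∀ᶠ y' in 𝓝 y, W y' = W y) : Continuous fun y => u y * W y := by
  refine continuous_iff_continuousAt.2 fun y => ?_
  rcases (h0 y).eq_or_lt with hy | hy
  · have h1 : Tendsto u (𝓝 y) (𝓝 0) := by
      have := hu.continuousAt (x := y)
      rwa [ContinuousAt, ← hy] at this
    rw [ContinuousAt, ← hy, zero_mul]
    refine squeeze_zero (fun y' => mul_nonneg (h0 y') (hW y').1) (fun y' => ?_) h1
    exact mul_le_of_le_one_right (h0 y') (hW y').2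
  · have h1 : ContinuousAt (fun y' => u y' * W y) y := (hu.mul continuous_const).continuousAt
    refine h1.congr ?_
    filter_upwards [h y hy] with y' hy'
    rw [hy']

theorem str_main [Countable K] [Nonempty I] [FaithfulSMul G (V K)] {av : I → AbsoluteValue K ℝ}
    (ha : ∀ i, Pl (av i)) (hd : Det1 G K)
    (hL : ∀ g h k : G, (∀ i, av i (dl K g h k) < 1) → dl K g h k = 0) : STR G (Fam G av) := by
  classical
  refine str_of_weights G _ (2 * Fintype.card I + 4 ^ Fintype.card I) (Main_conj hd) ?_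
  intro S h1 hS η hη
  obtain ⟨κ, hκ⟩ := Main_kappa ha S
  obtain ⟨J, hJ, hJη⟩ := Main_nat (2 * κ + 1) (half_pos hη)
  obtain ⟨E, hE, hEη⟩ := Main_nat 2 (half_pos hη)
  obtain ⟨q, hq, hqη⟩ := Main_nat κ (half_pos hη)
  obtain ⟨T, b, hb, hT⟩ := exists_par S.card E J (Fintype.card I) q (4 * κ + 1 + (4 * q + 1))
  choose w WB AB hwc hw01 hwp hwd hABf hABs hWBc hWB0 hWBA hWBn hWBb hWBp using
    fun i => regB (ha i) hd h1 hS (hκ i) T hJ hE
  have hb' : ((Ph K S ((E + 1) * (T + J))).card * (T + 1)) ^ Fintype.card I ≤ 2 ^ b :=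
    le_trans (Nat.pow_le_pow_left (Nat.mul_le_mul_right _ (Ph_card S _)) _) hb
  obtain ⟨ΩA, instA, AA, WA, hAAf, hAAs, hWA01, hWAb, hWAd⟩ :=
    regA ha hd hL (Ph_ok h1 ((E + 1) * (T + J))).nz (κ := κ) hq hb' hT
  have hne : (Finset.univ : Finset I).Nonempty := Finset.univ_nonempty
  let wA : (∀ i, X (av i)) → ℝ := fun c => 1 - Finset.univ.sup' hne fun i => w i (c i)
  have hle : ∀ (c : ∀ i, X (av i)) i, w i (c i) ≤ 1 - wA c := fun c i => by
    have := Finset.le_sup' (fun i => w i (c i)) (Finset.mem_univ i)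
    simp only [wA]
    linarith
  have hex : ∀ c : ∀ i, X (av i), ∃ i, wA c = 1 - w i (c i) := fun c => by
    obtain ⟨i, -, hi⟩ := Finset.exists_mem_eq_sup' hne fun i => w i (c i)
    exact ⟨i, by simp only [wA]; rw [hi]⟩
  have hwA0 : ∀ c, 0 ≤ wA c := fun c => by
    obtain ⟨i, hi⟩ := hex c
    have := (hw01 i (c i)).2
    linarith
  have hwA1 : ∀ c, wA c ≤ 1 := fun c => by
    obtain ⟨i, hi⟩ := hex c
    have := (hw01 i (c i)).1
    linarith
  have hwAc : Continuous wA :=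
    continuous_const.sub (Continuous.finset_sup'_apply hne fun i _ =>
      (hwc i).comp (continuous_apply i))
  have hdeep : ∀ c : ∀ i, X (av i), 0 < wA c → ∀ i, ∃ x ∈ Ph K S ((E + 1) * (T + J)),
      (c i).1 x < exp (-(T : ℝ)) * g0 (av i) x := fun c hc i =>
    hwd i (c i) (by have := hle c i; linarith)
  have hwAp : ∀ s ∈ S, ∀ c, wA c ≤ wA (s • c) + (2 * κ + 1) / J := fun s hs c => by
    obtain ⟨i, hi⟩ := hex (s • c)
    have h2 := hwp i s⁻¹ (hS s hs) (s • c i)
    rw [inv_smul_smul] at h2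
    have h3 := hle c i
    have h4 : (s • c) i = s • c i := rfl
    rw [h4] at hi
    linarith
  let W : (∀ i, X (av i)) → (Σ _ : I, Cls K) ⊕ ΩA → ℝ := fun c =>
    Sum.elim (fun p => WB p.1 (c p.1) p.2) fun ω => wA c * WA c ω
  let A : Set ((Σ _ : I, Cls K) ⊕ ΩA) :=
    (⋃ i, (fun C => Sum.inl ⟨i, C⟩) '' AB i) ∪ Sum.inr '' AA
  have hpos : ∀ c ω, wA c * WA c ω ≠ 0 → 0 < wA c ∧ WA c ω ≠ 0 := fun c ω h =>
    ⟨(hwA0 c).lt_of_ne (left_ne_zero_of_mul h).symm, right_ne_zero_of_mul h⟩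
  refine ⟨∀ i, X (av i), XM av, inferInstance, (Σ _ : I, Cls K) ⊕ ΩA, inferInstance, A, W,
    transfer av ha ?_, ?_, ?_, ?_, ?_, ?_, ?_, ?_, ?_, ?_⟩
  · have : 2 ^ Fintype.card I ≤ 4 ^ Fintype.card I := Nat.pow_le_pow_left (by norm_num) _
    omega
  · intro g
    exact continuous_pi fun i => (smul_cont g).comp (continuous_apply i)
  · exact (Set.finite_iUnion fun i => (hABf i).image _).union (hAAf.image _)
  · rintro ω (hω | ⟨ω, hω, rfl⟩)
    · obtain ⟨i, C, hC, rfl⟩ := Set.mem_iUnion.1 hω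
      refine Or.inr ⟨i, fun g hg => hABs i C hC g ?_⟩
      have h2 : (Sum.inl ⟨i, g • C⟩ : (Σ _ : I, Cls K) ⊕ ΩA) = Sum.inl ⟨i, C⟩ := hg
      exact eq_of_heq (Sigma.mk.inj (Sum.inl.inj h2)).2
    · left
      have h2 : MulAction.stabilizer G (Sum.inr ω : (Σ _ : I, Cls K) ⊕ ΩA) =
          MulAction.stabilizer G ω := by
        ext g
        exact ⟨fun h => Sum.inr.inj h, fun h => congrArg Sum.inr h⟩
      rw [h2]
      exact hAAs ω hω
  · rintro (⟨i, C⟩ | ω)
    · exact (hWBc i C).comp (continuous_apply i)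
    · refine Main_cont hwAc hwA0 (fun c => hWA01 c ω) fun c hc => ?_
      filter_upwards [(hWAd c (hdeep c hc)).2.2.1] with c' hc'
      rw [hc']
  · rintro c (⟨i, C⟩ | ω)
    · exact hWB0 i _ _
    · exact mul_nonneg (hwA0 c) (hWA01 c ω).1
  · rintro c (⟨i, C⟩ | ω) h
    · exact Or.inl (Set.mem_iUnion.2 ⟨i, C, hWBA i _ _ h, rfl⟩)
    · obtain ⟨h2, h3⟩ := hpos c ω h
      exact Or.inr ⟨ω, (hWAd c (hdeep c h2)).1 ω h3, rfl⟩
  · intro c
    have hfB : ∀ i, (Function.support (WB i (c i))).Finite := fun i =>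
      (hABf i).subset fun C hC => hWBA i _ _ hC
    have hA : (Function.support fun ω => wA c * WA c ω).Finite ∧
        (Function.support fun ω => wA c * WA c ω).ncard ≤ 4 ^ Fintype.card I := by
      rcases (hwA0 c).eq_or_lt with h | h
      · have : (Function.support fun ω => wA c * WA c ω) = ∅ := by
          ext ω
          simp [← h]
        rw [this]
        simp
      · obtain ⟨h2, h3, -⟩ := hWAd c (hdeep c h)
        have hf : (Function.support (WA c)).Finite := hAAf.subset h2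
        have hs : (Function.support fun ω => wA c * WA c ω) ⊆ Function.support (WA c) :=
          fun ω hω => (hpos c ω hω).2
        exact ⟨hf.subset hs, (Set.ncard_le_ncard hs hf).trans h3⟩
    have hsub : Function.support (W c) ⊆
        (⋃ i, (fun C => (Sum.inl ⟨i, C⟩ : (Σ _ : I, Cls K) ⊕ ΩA)) ''
          Function.support (WB i (c i))) ∪
          Sum.inr '' Function.support fun ω => wA c * WA c ω := by
      rintro (⟨i, C⟩ | ω) h
      · exact Or.inl (Set.mem_iUnion.2 ⟨i, C, h, rfl⟩)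
      · exact Or.inr ⟨ω, h, rfl⟩
    refine (Set.ncard_le_ncard hsub
      ((Set.finite_iUnion fun i => (hfB i).image _).union (hA.1.image _))).trans ?_
    refine (Set.ncard_union_le _ _).trans ?_
    have h2 := (Set.ncard_image_le (f := (Sum.inr : ΩA → (Σ _ : I, Cls K) ⊕ ΩA)) hA.1).trans hA.2
    have h3 := Set.ncard_iUnion_le_of_fintype fun i =>
      (fun C => (Sum.inl ⟨i, C⟩ : (Σ _ : I, Cls K) ⊕ ΩA)) '' Function.support (WB i (c i))
    have h4 : ∑ i, ((fun C => (Sum.inl ⟨i, C⟩ : (Σ _ : I, Cls K) ⊕ ΩA)) ''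
        Function.support (WB i (c i))).ncard ≤ ∑ _i : I, 2 :=
      Finset.sum_le_sum fun i _ => (Set.ncard_image_le (hfB i)).trans (hWBn i _)
    rw [Finset.sum_const, Finset.card_univ, smul_eq_mul] at h4
    omega
  · intro c
    obtain ⟨i, hi⟩ := hex c
    by_cases h : 1 / 2 ≤ wA c
    · obtain ⟨ω, hω⟩ := hWAb c
      refine ⟨Sum.inr ω, ?_⟩
      change 1 / 4 ≤ wA c * WA c ω
      nlinarith
    · obtain ⟨C, hC⟩ := hWBb i (c i)
      refine ⟨Sum.inl ⟨i, C⟩, ?_⟩
      change 1 / 4 ≤ WB i (c i) C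
      linarith
  · rintro s hs c (⟨i, C⟩ | ω)
    · have := hWBp i s hs (c i) C
      change WB i (c i) C ≤ WB i (s • c i) (s • C) + η
      linarith
    · change wA c * WA c ω ≤ wA (s • c) * WA (s • c) (s • ω) + η
      have h0 := mul_nonneg (hwA0 (s • c)) (hWA01 (s • c) (s • ω)).1
      rcases (hwA0 c).eq_or_lt with h | h
      · rw [← h, zero_mul]
        linarith
      · have h2 := (hWAd c (hdeep c h)).2.2.2 s (fun i => hκ i s hs) ω
        have h3 := hwAp s hs c
        have h4 := hWA01 c ω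
        have h5 := hwA0 (s • c)
        have h6 := hwA1 (s • c)
        have h7 : (0 : ℝ) ≤ κ / q := by positivity
        have h8 : (0 : ℝ) ≤ (2 * κ + 1) / J := by positivity
        calc wA c * WA c ω ≤ (wA (s • c) + (2 * κ + 1) / J) * WA c ω :=
              mul_le_mul_of_nonneg_right h3 h4.1
          _ = wA (s • c) * WA c ω + (2 * κ + 1) / J * WA c ω := by ring
          _ ≤ wA (s • c) * (WA (s • c) (s • ω) + κ / q) + (2 * κ + 1) / J * 1 :=
              add_le_add (mul_le_mul_of_nonneg_left h2 h5) (mul_le_mul_of_nonneg_left h4.2 h8)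
          _ = wA (s • c) * WA (s • c) (s • ω) + wA (s • c) * (κ / q) + (2 * κ + 1) / J := by ring
          _ ≤ wA (s • c) * WA (s • c) (s • ω) + η := by
              have := mul_le_of_le_one_left h7 h6
              linarith

end Pool.Agent.Work.MP_9d1ffa_al.G2
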