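import Pool.Agent.Work.MP_9d1ffa_al.G2.Fin

/-! A class of groups closed under the inheritance rules of the Farrell-Jones conjecture contains
the group of invertible two by two matrices over every commutative ring. -/

namespace Pool.Agent.Work.MP_9d1ffa_al.OldGLTwo

open Pool.Agent.Work.MP_9d1ffa_al.G2

theorem result (P : (G : Type) → [Group G] → Prop) (hP : Closed P) (R : Type) [CommRing R] :
    P (GL (Fin 2) R) :=
  hP.gl2 R

end Pool.Agent.Work.MP_9d1ffa_al.OldGLTwo
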