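import Pool.Agent.Work.MP_9d1ffa_al.G2.Sd

/-! Basic facts on seminorms on the plane. -/

namespace Pool.Agent.Work.MP_9d1ffa_al.G2

open Real

variable {K : Type} [Field K] {a : AbsoluteValue K ℝ}

theorem vec_eq (y : V K) : y = y 0 • (ee 0 : V K) + y 1 • (ee 1 : V K) := by
  funext i
  fin_cases i <;> simp [ee]

theorem ee_ne (j : Fin 2) : (ee j : V K) ≠ 0 := by
  intro h
  have := congrFun h j
  simp [ee] at this

theorem g0_nonneg (y : V K) : 0 ≤ g0 a y := by
  exact le_max_of_le_left (a.nonneg _)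

theorem g0_pos {y : V K} (hy : y ≠ 0) : 0 < g0 a y := by
  by_contra h
  have h0 : a (y 0) ≤ 0 := le_trans (le_max_left _ _) (not_lt.mp h)
  have h1 : a (y 1) ≤ 0 := le_trans (le_max_right _ _) (not_lt.mp h)
  apply hy
  funext i
  fin_cases i
  · exact a.eq_zero.mp (le_antisymm h0 (a.nonneg _))
  · exact a.eq_zero.mp (le_antisymm h1 (a.nonneg _))

theorem g0_ee (j : Fin 2) : g0 a (ee j) = 1 := by
  fin_cases j <;> simp [g0, ee]

theorem g0_isSn (ha : Pl a) : IsSn a (g0 a) := by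
  refine ⟨g0_nonneg, fun t y => ?_, fun y z => ?_⟩
  · simp only [g0, Pi.smul_apply, smul_eq_mul, map_mul]
    exact (mul_max_of_nonneg _ _ (a.nonneg t)).symm
  · simp only [g0, Pi.add_apply]
    refine max_le ((ha.na _ _).trans ?_) ((ha.na _ _).trans ?_)
    · exact max_le_max (le_max_left _ _) (le_max_left _ _)
    · exact max_le_max (le_max_right _ _) (le_max_right _ _)

theorem g0_exp (ha : Pl a) {y : V K} (hy : y ≠ 0) : ∃ n : ℤ, g0 a y = exp n := by
  have hp : 0 < g0 a y := g0_pos hy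
  rcases le_total (a (y 0)) (a (y 1)) with h | h
  · have e : g0 a y = a (y 1) := max_eq_right h
    rw [e] at hp ⊢
    exact ha.val _ (a.pos_iff.mp hp)
  · have e : g0 a y = a (y 0) := max_eq_left h
    rw [e] at hp ⊢
    exact ha.val _ (a.pos_iff.mp hp)

theorem IsSn.zero {c : V K → ℝ} (hc : IsSn a c) : c 0 = 0 := by
  have := hc.sm 0 0
  simpa using this

theorem IsSn.neg {c : V K → ℝ} (hc : IsSn a c) (y : V K) : c (-y) = c y := by
  have := hc.sm (-1) y
  simpa using this

/-- `y = (y + z) + -z`. -/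
theorem IsSn.add_eq {c : V K → ℝ} (hc : IsSn a c) {y z : V K} (h : c z < c y) :
    c (y + z) = c y := by
  have h1 : c (y + z) ≤ c y := (hc.ad y z).trans (max_le le_rfl h.le)
  have h2 : c y ≤ max (c (y + z)) (c z) := by
    have := hc.ad (y + z) (-z)
    rwa [hc.neg, add_neg_cancel_right] at this
  rcases le_max_iff.mp h2 with h3 | h3
  · exact le_antisymm h1 h3
  · exact absurd h3 (not_le.mpr h)

/-- Use `vec_eq`. -/
theorem IsSn.le_nr {c : V K → ℝ} (hc : IsSn a c) (y : V K) : c y ≤ nr c * g0 a y := by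
  have h := hc.ad (y 0 • ee 0) (y 1 • ee 1)
  rw [← vec_eq y, hc.sm, hc.sm] at h
  refine h.trans (max_le ?_ ?_)
  · rw [mul_comm]
    exact mul_le_mul (le_max_left _ _) (le_max_left _ _) (a.nonneg _)
      (le_max_of_le_left (hc.nn _))
  · rw [mul_comm]
    exact mul_le_mul (le_max_right _ _) (le_max_right _ _) (a.nonneg _)
      (le_max_of_le_left (hc.nn _))

theorem IsSn.const_mul {c : V K → ℝ} (hc : IsSn a c) {t : ℝ} (ht : 0 ≤ t) :
    IsSn a fun y => t * c y := by
  refine ⟨fun y => mul_nonneg ht (hc.nn y), fun s y => ?_, fun y z => ?_⟩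
  · rw [hc.sm]; ring
  · rw [← mul_max_of_nonneg _ _ ht]
    exact mul_le_mul_of_nonneg_left (hc.ad y z) ht

theorem IsSn.sup {c c' : V K → ℝ} (hc : IsSn a c) (hc' : IsSn a c') :
    IsSn a fun y => max (c y) (c' y) := by
  refine ⟨fun y => le_max_of_le_left (hc.nn y), fun s y => ?_, fun y z => ?_⟩
  · rw [hc.sm, hc'.sm, mul_max_of_nonneg _ _ (a.nonneg s)]
  · refine max_le ((hc.ad y z).trans ?_) ((hc'.ad y z).trans ?_)
    · exact max_le_max (le_max_left _ _) (le_max_left _ _)
    · exact max_le_max (le_max_right _ _) (le_max_right _ _)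

theorem Pl.sub_le (ha : Pl a) (x y : K) : a (x - y) ≤ max (a x) (a y) := by
  have := ha.na x (-y)
  rwa [a.map_neg, ← sub_eq_add_neg] at this

theorem a_dt_le (ha : Pl a) (x y : V K) : a (dt x y) ≤ g0 a x * g0 a y := by
  refine (ha.sub_le _ _).trans (max_le ?_ ?_)
  · rw [map_mul]
    exact mul_le_mul (le_max_left _ _) (le_max_right _ _) (a.nonneg _) (g0_nonneg _)
  · rw [map_mul]
    exact mul_le_mul (le_max_right _ _) (le_max_left _ _) (a.nonneg _) (g0_nonneg _)

/-- Adapted basis `x, ee j`. If `a (x 1) ≤ a (x 0)` take `j = 1`, `l = y 0 / x 0`,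
`m = dt x y / x 0`; otherwise `j = 0`, `l = y 1 / x 1`, `m = -dt x y / x 1`. For the last equation:
`≤` from `g0_isSn`; `≥`: `a l * g0 a x` is the absolute value of a coordinate of `y`, and
`a m * g0 a x = a (dt x y) ≤ g0 a x * g0 a y`. -/
theorem exists_basis (ha : Pl a) {x : V K} (hx : x ≠ 0) :
    ∃ j : Fin 2, a (dt x (ee j)) = g0 a x ∧ ∀ y : V K, ∃ l m : K, y = l • x + m • ee j ∧
      a m * g0 a x = a (dt x y) ∧ g0 a y = max (a l * g0 a x) (a m) := by
  have hp : 0 < g0 a x := g0_pos hx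
  have key : ∀ (j : Fin 2) (y : V K) (l m : K), y = l • x + m • ee j →
      a m * g0 a x = a (dt x y) → a l * g0 a x ≤ g0 a y →
      g0 a y = max (a l * g0 a x) (a m) := by
    intro j y l m hy hm hl
    refine le_antisymm ?_ (max_le hl ?_)
    · have h := (g0_isSn ha).ad (l • x) (m • ee j)
      rwa [← hy, (g0_isSn ha).sm, (g0_isSn ha).sm, g0_ee, mul_one] at h
    · have h := a_dt_le ha x y
      rw [← hm, mul_comm (g0 a x)] at h
      exact le_of_mul_le_mul_right h hp
  rcases le_total (a (x 1)) (a (x 0)) with h | h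
  · have e : g0 a x = a (x 0) := max_eq_left h
    have h0 : x 0 ≠ 0 := a.pos_iff.mp (e ▸ hp)
    refine ⟨1, by rw [e]; simp [dt, ee], fun y => ?_⟩
    have hy : y = (y 0 / x 0) • x + (dt x y / x 0) • ee 1 := by
      funext i
      fin_cases i
      · simp [ee, h0]
      · simp [ee, dt]; field_simp; ring
    have hm : a (dt x y / x 0) * g0 a x = a (dt x y) := by
      rw [e, ← map_mul, div_mul_cancel₀ _ h0]
    refine ⟨_, _, hy, hm, key 1 y _ _ hy hm ?_⟩
    rw [e, ← map_mul, div_mul_cancel₀ _ h0]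
    exact le_max_left _ _
  · have e : g0 a x = a (x 1) := max_eq_right h
    have h0 : x 1 ≠ 0 := a.pos_iff.mp (e ▸ hp)
    refine ⟨0, by rw [e]; simp [dt, ee], fun y => ?_⟩
    have hy : y = (y 1 / x 1) • x + (-dt x y / x 1) • ee 0 := by
      funext i
      fin_cases i
      · simp [ee, dt]; field_simp; ring
      · simp [ee, h0]
    have hm : a (-dt x y / x 1) * g0 a x = a (dt x y) := by
      rw [e, ← map_mul, div_mul_cancel₀ _ h0, a.map_neg]
    refine ⟨_, _, hy, hm, key 0 y _ _ hy hm ?_⟩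
    rw [e, ← map_mul, div_mul_cancel₀ _ h0]
    exact le_max_right _ _

theorem bt_isSn (ha : Pl a) (x : V K) (D : ℝ) : IsSn a (bt a x D) := by
  have h1 : IsSn a fun y => a (dt x y) := by
    refine ⟨fun y => a.nonneg _, fun t y => ?_, fun y z => ?_⟩
    · rw [← map_mul]
      congr 1
      simp only [dt, Pi.smul_apply, smul_eq_mul]; ring
    · have e : dt x (y + z) = dt x y + dt x z := by
        simp only [dt, Pi.add_apply]; ring
      rw [e]
      exact ha.na _ _
  have h2 := (h1.const_mul (inv_nonneg.mpr (g0_nonneg (a := a) x))).sup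
    ((g0_isSn ha).const_mul (exp_pos (-D)).le)
  have e : bt a x D = fun y => max ((g0 a x)⁻¹ * a (dt x y)) (exp (-D) * g0 a y) := by
    funext y
    rw [bt, div_eq_inv_mul]
  rw [e]
  exact h2

theorem pt_isSn (ha : Pl a) {c : V K → ℝ} (hc : IsSn a c) (D : ℝ) : IsSn a (pt a c D) := by
  exact hc.sup ((g0_isSn ha).const_mul (exp_pos (-D)).le)

theorem bt_pos (x : V K) (D : ℝ) {y : V K} (hy : y ≠ 0) : 0 < bt a x D y := by
  exact lt_max_of_lt_right (mul_pos (exp_pos _) (g0_pos hy))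

theorem bt_self (x : V K) (D : ℝ) : bt a x D x = exp (-D) * g0 a x := by
  have e : dt x x = 0 := by simp only [dt]; ring
  simp only [bt, e, map_zero, zero_div]
  exact max_eq_right (mul_nonneg (exp_pos _).le (g0_nonneg _))

theorem nr_bt (ha : Pl a) {x : V K} (hx : x ≠ 0) {D : ℝ} (hD : 0 ≤ D) : nr (bt a x D) = 1 := by
  have hp : 0 < g0 a x := g0_pos hx
  have he : exp (-D) ≤ 1 := exp_le_one_iff.mpr (neg_nonpos.mpr hD)
  have hle : ∀ j, bt a x D (ee j) ≤ 1 := by
    intro j
    refine max_le ?_ ?_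
    · rw [div_le_one hp]
      have := a_dt_le ha x (ee j)
      rwa [g0_ee, mul_one] at this
    · rwa [g0_ee, mul_one]
  obtain ⟨j, hj, -⟩ := exists_basis ha hx
  have hge : 1 ≤ bt a x D (ee j) := by
    refine le_max_of_le_left ?_
    rw [hj, div_self hp.ne']
  refine le_antisymm (max_le (hle 0) (hle 1)) (hge.trans ?_)
  fin_cases j
  · exact le_max_left _ _
  · exact le_max_right _ _

theorem nr_pt {c : V K → ℝ} (hc : nr c = 1) {D : ℝ} (hD : 0 ≤ D) : nr (pt a c D) = 1 := by
  have he : exp (-D) ≤ 1 := exp_le_one_iff.mpr (neg_nonpos.mpr hD)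
  have h0 : c (ee 0) ≤ 1 := hc ▸ le_max_left _ _
  have h1 : c (ee 1) ≤ 1 := hc ▸ le_max_right _ _
  simp only [nr, pt, g0_ee, mul_one] at hc ⊢
  refine le_antisymm (max_le (max_le h0 he) (max_le h1 he)) ?_
  rw [← hc]
  exact max_le_max (le_max_left _ _) (le_max_left _ _)

/-- The norm `bt` in the adapted basis of `exists_basis`. -/
theorem bt_basis (ha : Pl a) {x : V K} (hx : x ≠ 0) {D : ℝ} (hD : 0 ≤ D) :
    ∃ j : Fin 2, a (dt x (ee j)) = g0 a x ∧ (∀ y : V K, ∃ l m : K, y = l • x + m • ee j) ∧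
      ∀ (E : ℝ), D ≤ E → ∀ l m : K,
        bt a x E (l • x + m • ee j) = max (a m) (exp (-E) * (a l * g0 a x)) := by
  have hp : 0 < g0 a x := g0_pos hx
  obtain ⟨j, hj, hb⟩ := exists_basis ha hx
  refine ⟨j, hj, fun y => ?_, fun E hE l m => ?_⟩
  · obtain ⟨l, m, h, -⟩ := hb y
    exact ⟨l, m, h⟩
  have he : exp (-E) ≤ 1 := exp_le_one_iff.mpr (neg_nonpos.mpr (hD.trans hE))
  have hne : dt x (ee j) ≠ 0 := a.pos_iff.mp (hj ▸ hp)
  obtain ⟨l', m', h, -, hg⟩ := hb (l • x + m • ee j)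
  have hd : ∀ s t : K, dt x (s • x + t • ee j) = t * dt x (ee j) := by
    intro s t
    simp only [dt, Pi.add_apply, Pi.smul_apply, smul_eq_mul]; ring
  have hm : m = m' := by
    have := congrArg (dt x) h
    rw [hd, hd] at this
    exact mul_right_cancel₀ hne this
  subst hm
  have hl : l = l' := smul_left_injective K hx (add_right_cancel h)
  subst hl
  simp only [bt]
  rw [hd, map_mul, hj, mul_div_cancel_right₀ _ hp.ne', hg,
    mul_max_of_nonneg _ _ (exp_pos _).le]
  have h2 : exp (-E) * a m ≤ a m := mul_le_of_le_one_left (a.nonneg _) he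
  refine le_antisymm (max_le (le_max_left _ _) (max_le (le_max_right _ _)
    (h2.trans (le_max_left _ _)))) (max_le_max le_rfl (le_max_left _ _))

/-- MAX: `bt a x D` is the largest seminorm of size at most one that is small at `x`. -/
theorem le_bt (ha : Pl a) {c : V K → ℝ} (hc : IsSn a c) (h1 : nr c ≤ 1) {x : V K} (hx : x ≠ 0)
    {D : ℝ} (h : c x ≤ exp (-D) * g0 a x) (y : V K) : c y ≤ bt a x D y := by
  have hp : 0 < g0 a x := g0_pos hx
  obtain ⟨j, -, hb⟩ := exists_basis ha hx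
  obtain ⟨l, m, hy, hm, hg⟩ := hb y
  have h2 := hc.ad (l • x) (m • ee j)
  rw [← hy, hc.sm, hc.sm] at h2
  refine h2.trans (max_le (le_max_of_le_right ?_) (le_max_of_le_left ?_))
  · calc a l * c x ≤ a l * (exp (-D) * g0 a x) := mul_le_mul_of_nonneg_left h (a.nonneg _)
      _ = exp (-D) * (a l * g0 a x) := by ring
      _ ≤ exp (-D) * g0 a y :=
        mul_le_mul_of_nonneg_left (hg ▸ le_max_left _ _) (exp_pos _).le
  · have h3 : c (ee j) ≤ 1 := by
      have := hc.le_nr (ee j)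
      rw [g0_ee, mul_one] at this
      exact this.trans h1
    rw [← hm, mul_div_cancel_right₀ _ hp.ne']
    exact mul_le_of_le_one_right (a.nonneg _) h3

/-- LEMMA E. `≤` is `le_bt`. For `≥` write `y = l • x + m • ee j`; we need
`a m ≤ max (c y) (exp (-D) * g0 a y)`. Otherwise `a m > exp (-D) * g0 a y`, so `D > 0`
(as `a m ≤ g0 a y`), hence `c x < g0 a x`. This forces `c (ee j) = 1`: if `c (ee j) < 1`, write the
other basis vector in the basis `x, ee j` (its `g0` is `1`), its `c` is `< 1`, so `nr c < 1`.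
Then `c (m • ee j) = a m > c (l • x)` and `IsSn.add_eq` gives `c y = a m`. -/
theorem pt_eq_bt (ha : Pl a) {c : V K → ℝ} (hc : IsSn a c) (h1 : nr c = 1) {x : V K}
    (hx : x ≠ 0) {D : ℝ} (hD : 0 ≤ D) (h : c x ≤ exp (-D) * g0 a x) : pt a c D = bt a x D := by
  have hp : 0 < g0 a x := g0_pos hx
  funext y
  refine le_antisymm (max_le (le_bt ha hc h1.le hx h y) (le_max_right _ _))
    (max_le ?_ (le_max_right _ _))
  obtain ⟨j, -, hb⟩ := exists_basis ha hx
  obtain ⟨l, m, hy, hm, hg⟩ := hb y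
  rw [← hm, mul_div_cancel_right₀ _ hp.ne']
  by_contra hlt
  have hlt' : max (c y) (exp (-D) * g0 a y) < a m := not_le.mp hlt
  have hA : exp (-D) * g0 a y < a m := (le_max_right _ _).trans_lt hlt'
  have hmy : a m ≤ g0 a y := hg ▸ le_max_right _ _
  have he : exp (-D) < 1 := by
    by_contra h4
    have h5 : g0 a y ≤ exp (-D) * g0 a y := le_mul_of_one_le_left (g0_nonneg _) (not_lt.mp h4)
    linarith
  have hj1 : c (ee j) ≤ 1 := by
    have := hc.le_nr (ee j)
    rwa [g0_ee, mul_one, h1] at this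
  have hj : c (ee j) = 1 := by
    by_contra h4
    have h5 : c (ee j) < 1 := lt_of_le_of_ne hj1 h4
    have h6 : ∀ i, c (ee i) < 1 := by
      intro i
      obtain ⟨l', m', hy', -, hg'⟩ := hb (ee i)
      rw [g0_ee] at hg'
      have h7 := hc.ad (l' • x) (m' • ee j)
      rw [← hy', hc.sm, hc.sm] at h7
      refine h7.trans_lt (max_lt ?_ ?_)
      · calc a l' * c x ≤ a l' * (exp (-D) * g0 a x) :=
            mul_le_mul_of_nonneg_left h (a.nonneg _)
          _ = exp (-D) * (a l' * g0 a x) := by ring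
          _ ≤ exp (-D) := mul_le_of_le_one_right (exp_pos _).le (hg' ▸ le_max_left _ _)
          _ < 1 := he
      · exact (mul_le_of_le_one_left (hc.nn _) (hg' ▸ le_max_right _ _)).trans_lt h5
    exact absurd h1 (max_lt (h6 0) (h6 1)).ne
  have h8 : c (l • x) < c (m • ee j) := by
    rw [hc.sm, hc.sm, hj, mul_one]
    calc a l * c x ≤ a l * (exp (-D) * g0 a x) := mul_le_mul_of_nonneg_left h (a.nonneg _)
      _ = exp (-D) * (a l * g0 a x) := by ring
      _ ≤ exp (-D) * g0 a y :=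
        mul_le_mul_of_nonneg_left (hg ▸ le_max_left _ _) (exp_pos _).le
      _ < a m := hA
  have h9 := hc.add_eq h8
  rw [add_comm, ← hy, hc.sm, hj, mul_one] at h9
  exact absurd ((le_max_left _ _).trans_lt hlt') (by rw [h9]; exact lt_irrefl _)

/-- Apply `le_bt` to `exp (-η) * pt a c' D'` and rewrite with `pt_eq_bt`. -/
theorem pt_le_pt (ha : Pl a) {c c' : V K → ℝ} (hc : IsSn a c) (h1 : nr c = 1) (hc' : IsSn a c')
    (h1' : nr c' = 1) {x : V K} (hx : x ≠ 0) {D D' η : ℝ} (hD : 0 ≤ D) (hD' : 0 ≤ D')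
    (hη : 0 ≤ η) (h : c x ≤ exp (-D) * g0 a x) (h' : c' x ≤ exp η * (exp (-D) * g0 a x))
    (hDD : D ≤ D' + η) (y : V K) : pt a c' D' y ≤ exp η * pt a c D y := by
  have hs : IsSn a fun y => exp (-η) * pt a c' D' y :=
    (pt_isSn ha hc' D').const_mul (exp_pos _).le
  have he : exp (-η) ≤ 1 := exp_le_one_iff.mpr (neg_nonpos.mpr hη)
  have hee : exp η * exp (-η) = 1 := by rw [← exp_add]; simp
  have hn : nr (fun y => exp (-η) * pt a c' D' y) ≤ 1 := by
    have h2 := nr_pt (a := a) h1' hD'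
    simp only [nr] at h2 ⊢
    rw [← mul_max_of_nonneg _ _ (exp_pos _).le, h2, mul_one]
    exact he
  have hx' : exp (-η) * pt a c' D' x ≤ exp (-D) * g0 a x := by
    simp only [pt]
    rw [mul_max_of_nonneg _ _ (exp_pos _).le]
    refine max_le ?_ ?_
    · calc exp (-η) * c' x ≤ exp (-η) * (exp η * (exp (-D) * g0 a x)) :=
          mul_le_mul_of_nonneg_left h' (exp_pos _).le
        _ = exp η * exp (-η) * (exp (-D) * g0 a x) := by ring
        _ = exp (-D) * g0 a x := by rw [hee, one_mul]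
    · rw [← mul_assoc, ← exp_add]
      exact mul_le_mul_of_nonneg_right (exp_le_exp.mpr (by linarith)) (g0_nonneg _)
  have h3 := le_bt ha hs hn hx hx' y
  rw [← pt_eq_bt ha hc h1 hx hD h] at h3
  calc pt a c' D' y = exp η * (exp (-η) * pt a c' D' y) := by rw [← mul_assoc, hee, one_mul]
    _ ≤ exp η * pt a c D y := mul_le_mul_of_nonneg_left h3 (exp_pos _).le

end Pool.Agent.Work.MP_9d1ffa_al.G2
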