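import Pool.Agent.Work.MP_9d1ffa_al.G2.SnA

/-! Classes, the group action, the determinant lemma and the cone lemma. -/

namespace Pool.Agent.Work.MP_9d1ffa_al.G2

open Real

variable {K : Type} [Field K] {a : AbsoluteValue K ℝ}
variable {G : Type} [Group G] [DistribMulAction G (V K)] [SMulCommClass G K (V K)]

theorem mv_one (c : V K → ℝ) : mv (1 : G) c = c := by
  funext y
  simp only [mv, inv_one, one_smul]

theorem mv_mul (g h : G) (c : V K → ℝ) : mv (g * h) c = mv g (mv h c) := by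
  funext y
  simp only [mv, mul_inv_rev, mul_smul]

theorem mv_isSn {c : V K → ℝ} (hc : IsSn a c) (g : G) : IsSn a (mv g c) := by
  refine ⟨fun y => hc.nn _, fun t y => ?_, fun y z => ?_⟩
  · simp only [mv]
    rw [smul_comm, hc.sm]
  · simp only [mv]
    rw [smul_add]
    exact hc.ad _ _

theorem self_mem_cl (ν : V K → ℝ) : ν ∈ cl ν := by
  refine (mem_cl _ _).2 ⟨1, one_pos, ?_⟩
  funext y
  rw [one_mul]

theorem cl_mul (ν : V K → ℝ) {t : ℝ} (ht : 0 < t) : cl (fun y => t * ν y) = cl ν := by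
  refine cls_ext fun μ => ?_
  rw [mem_cl, mem_cl]
  constructor
  · rintro ⟨s, hs, rfl⟩
    refine ⟨s * t, mul_pos hs ht, ?_⟩
    funext y
    ring
  · rintro ⟨s, hs, rfl⟩
    refine ⟨s / t, div_pos hs ht, ?_⟩
    funext y
    field_simp

theorem smul_cl (g : G) (ν : V K → ℝ) : g • cl ν = cl (mv g ν) := by
  refine cls_ext fun μ => ?_
  rw [mem_smul_cls, mem_cl, mem_cl]
  constructor
  · rintro ⟨s, hs, h⟩
    refine ⟨s, hs, ?_⟩
    funext y
    have := congrFun h (g⁻¹ • y)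
    simpa only [mv, smul_inv_smul] using this
  · rintro ⟨s, hs, rfl⟩
    refine ⟨s, hs, ?_⟩
    funext y
    simp only [mv, inv_smul_smul]

theorem cl_inj {ν ν' : V K → ℝ} (h1 : nr ν = 1) (h1' : nr ν' = 1) (h : cl ν = cl ν') :
    ν = ν' := by
  have hm : ν ∈ cl ν' := h ▸ self_mem_cl ν
  obtain ⟨t, ht, rfl⟩ := (mem_cl _ _).1 hm
  have h2 : nr (fun y => t * ν' y) = t * nr ν' := by
    simp only [nr]
    rw [mul_max_of_nonneg _ _ ht.le]
  rw [h2, h1', mul_one] at h1
  funext y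
  rw [h1, one_mul]

theorem near_smul {r : ℝ} {C C' : Cls K} (h : Near r C C') (g : G) : Near r (g • C) (g • C') := by
  obtain ⟨ν, hν, ν', hν', hy⟩ := h
  refine ⟨mv g ν, ?_, mv g ν', ?_, fun y => hy _⟩
  · rw [mem_smul_cls]
    simpa only [mv, inv_smul_smul] using hν
  · rw [mem_smul_cls]
    simpa only [mv, inv_smul_smul] using hν'

theorem near_refl {r : ℝ} (hr : 0 ≤ r) {ν : V K → ℝ} (hν : ∀ y, 0 ≤ ν y) :
    Near r (cl ν) (cl ν) := by
  refine ⟨ν, self_mem_cl ν, ν, self_mem_cl ν, fun y => ⟨le_rfl, ?_⟩⟩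
  exact le_mul_of_one_le_left (hν y) (one_le_exp hr)

theorem SnB_pt_le {c : V K → ℝ} (hc : ∀ y, 0 ≤ c y) {s t t' : ℝ} (hs : 0 ≤ s) (h : t' ≤ t + s)
    (y : V K) : pt a c t y ≤ exp s * pt a c t' y := by
  simp only [pt]
  rw [mul_max_of_nonneg _ _ (exp_pos s).le]
  refine max_le_max (le_mul_of_one_le_left (hc y) (one_le_exp hs)) ?_
  rw [← mul_assoc, ← exp_add]
  exact mul_le_mul_of_nonneg_right (exp_le_exp.2 (by linarith)) (g0_nonneg y)

/-- If `t ≤ t'` use `pt a c t` and `exp r * pt a c t'`; otherwise `pt a c t ≤ pt a c t'`. -/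
theorem near_pt {r t t' : ℝ} (h : |t - t'| ≤ r) {c : V K → ℝ} (hc : ∀ y, 0 ≤ c y) :
    Near r (cl (pt a c t)) (cl (pt a c t')) := by
  have hr : 0 ≤ r := (abs_nonneg _).trans h
  obtain ⟨h1, h2⟩ := abs_le.1 h
  rcases le_total t t' with htt | htt
  · refine ⟨pt a c t, self_mem_cl _, fun y => exp r * pt a c t' y,
      (mem_cl _ _).2 ⟨exp r, exp_pos r, rfl⟩, fun y => ⟨?_, ?_⟩⟩
    · exact SnB_pt_le hc hr (by linarith) y
    · have := SnB_pt_le (a := a) hc (le_refl 0) (t := t') (t' := t) (by linarith) y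
      rw [exp_zero, one_mul] at this
      exact mul_le_mul_of_nonneg_left this (exp_pos r).le
  · refine ⟨pt a c t, self_mem_cl _, pt a c t', self_mem_cl _, fun y => ⟨?_, ?_⟩⟩
    · have := SnB_pt_le (a := a) hc (le_refl 0) (t := t) (t' := t') (by linarith) y
      rwa [exp_zero, one_mul] at this
    · exact SnB_pt_le hc hr (by linarith) y

theorem SnB_dt_expand (x e : V K) (l m l' m' : K) :
    dt (l • x + m • e) (l' • x + m' • e) = (l * m' - m * l') * dt x e := by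
  simp only [dt, Pi.add_apply, Pi.smul_apply, smul_eq_mul]
  ring

/-- Volume inequality in the adapted basis: expand `dt y z = (l m' - m l') * dt x (ee j)`. -/
theorem dt_le_bt (ha : Pl a) {x : V K} (hx : x ≠ 0) {D : ℝ} (hD : 0 ≤ D) (y z : V K) :
    a (dt y z) ≤ exp D * (bt a x D y * bt a x D z) := by
  obtain ⟨j, hj, hb, hE⟩ := bt_basis ha hx hD
  obtain ⟨l, m, rfl⟩ := hb y
  obtain ⟨l', m', rfl⟩ := hb z
  rw [hE D le_rfl, hE D le_rfl, SnB_dt_expand, map_mul, hj]
  have hg : 0 ≤ g0 a x := g0_nonneg x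
  have hee : exp D * exp (-D) = 1 := by rw [← exp_add, add_neg_cancel, exp_zero]
  have hn : ∀ u : K, 0 ≤ exp (-D) * (a u * g0 a x) := fun u =>
    mul_nonneg (exp_pos _).le (mul_nonneg (a.nonneg u) hg)
  have h1 : a (l * m') * g0 a x ≤ exp D * (max (a m) (exp (-D) * (a l * g0 a x)) *
      max (a m') (exp (-D) * (a l' * g0 a x))) := by
    calc a (l * m') * g0 a x = exp D * (exp (-D) * (a l * g0 a x) * a m') := by
          rw [map_mul, ← mul_assoc, ← mul_assoc, hee]; ring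
      _ ≤ _ := by
          refine mul_le_mul_of_nonneg_left ?_ (exp_pos D).le
          exact mul_le_mul (le_max_right _ _) (le_max_left _ _) (a.nonneg _)
            ((hn l).trans (le_max_right _ _))
  have h2 : a (m * l') * g0 a x ≤ exp D * (max (a m) (exp (-D) * (a l * g0 a x)) *
      max (a m') (exp (-D) * (a l' * g0 a x))) := by
    calc a (m * l') * g0 a x = exp D * (exp (-D) * (a l' * g0 a x) * a m) := by
          rw [map_mul, ← mul_assoc, ← mul_assoc, hee]; ring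
      _ = exp D * (a m * (exp (-D) * (a l' * g0 a x))) := by ring
      _ ≤ _ := by
          refine mul_le_mul_of_nonneg_left ?_ (exp_pos D).le
          exact mul_le_mul (le_max_left _ _) (le_max_right _ _) (hn l')
            ((hn l).trans (le_max_right _ _))
  refine (mul_le_mul_of_nonneg_right (ha.sub_le _ _) hg).trans ?_
  rw [max_mul_of_nonneg _ _ hg]
  exact max_le h1 h2

/-- Equality in `dt_le_bt` for `y = x`, `z = ee j` (`j` from `bt_basis`). -/
theorem exists_dt_eq_bt (ha : Pl a) {x : V K} (hx : x ≠ 0) {D : ℝ} (hD : 0 ≤ D) :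
    ∃ z : V K, z ≠ 0 ∧ a (dt x z) = exp D * (bt a x D x * bt a x D z) := by
  obtain ⟨j, hj, -, hE⟩ := bt_basis ha hx hD
  refine ⟨ee j, ee_ne j, ?_⟩
  have h1 := hE D le_rfl 0 1
  simp only [zero_smul, one_smul, zero_add, map_one, map_zero, zero_mul, mul_zero] at h1
  rw [h1, bt_self, hj, max_eq_left zero_le_one, mul_one, ← mul_assoc, ← exp_add, add_neg_cancel,
    exp_zero, one_mul]

/-- Determinant lemma. With `β = bt a x D` the hypothesis gives `u > 0` with
`β ≤ u * mv g β ≤ exp r * β`. Let `z` be as in `exists_dt_eq_bt`. First part: `dt_le_bt` for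
`g⁻¹ • x, g⁻¹ • z` and `u * β (g⁻¹ • y) ≤ exp r * β y` give `u ≤ exp r`, so
`β (g • y) ≤ u * β y ≤ exp r * β y`. Second part: `dt_le_bt` for `g • x, g • z` and
`β (g • y) ≤ u * β y` give `1 ≤ u`. -/
theorem det_lemma (ha : Pl a) (hd : Det1 G K) {x : V K} (hx : x ≠ 0) {D : ℝ} (hD : 0 ≤ D)
    {r : ℝ} {g : G} (h : Near r (cl (bt a x D)) (g • cl (bt a x D))) (y : V K) :
    bt a x D (g • y) ≤ exp r * bt a x D y ∧ bt a x D (g⁻¹ • y) ≤ exp r * bt a x D y := by
  rw [smul_cl] at h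
  obtain ⟨ν, hν, ν', hν', hy⟩ := h
  obtain ⟨t, ht, rfl⟩ := (mem_cl _ _).1 hν
  obtain ⟨t', ht', rfl⟩ := (mem_cl _ _).1 hν'
  simp only [mv] at hy
  obtain ⟨z, hz, hxz⟩ := exists_dt_eq_bt ha hx hD
  have hβ : ∀ w, 0 ≤ bt a x D w := (bt_isSn ha x D).nn
  have hx0 : 0 < bt a x D x := bt_pos x D hx
  have hz0 : 0 < bt a x D z := bt_pos x D hz
  set u := t' / t with hu
  have hu0 : 0 < u := div_pos ht' ht
  have hA : ∀ w, bt a x D w ≤ u * bt a x D (g⁻¹ • w) := fun w => by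
    have := (hy w).1
    rw [hu, div_mul_eq_mul_div, le_div_iff₀ ht]
    linarith
  have hB : ∀ w, u * bt a x D (g⁻¹ • w) ≤ exp r * bt a x D w := fun w => by
    have := (hy w).2
    rw [hu, div_mul_eq_mul_div, div_le_iff₀ ht]
    linarith
  have hA' : ∀ w, bt a x D (g • w) ≤ u * bt a x D w := fun w => by
    have := hA (g • w)
    rwa [inv_smul_smul] at this
  have hvol : ∀ k : G, bt a x D x * bt a x D z ≤ bt a x D (k • x) * bt a x D (k • z) := fun k => by
    have h1 := dt_le_bt ha hx hD (k • x) (k • z)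
    rw [hd k x z, hxz] at h1
    exact le_of_mul_le_mul_left h1 (exp_pos D)
  have hP : 0 < bt a x D x * bt a x D z := mul_pos hx0 hz0
  have hur : u ≤ exp r := by
    have h1 : (u * bt a x D (g⁻¹ • x)) * (u * bt a x D (g⁻¹ • z)) ≤
        (exp r * bt a x D x) * (exp r * bt a x D z) :=
      mul_le_mul (hB x) (hB z) (mul_nonneg hu0.le (hβ _)) (mul_nonneg (exp_pos r).le (hβ _))
    have h2 : u ^ 2 * (bt a x D x * bt a x D z) ≤ exp r ^ 2 * (bt a x D x * bt a x D z) := by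
      calc u ^ 2 * (bt a x D x * bt a x D z)
          ≤ u ^ 2 * (bt a x D (g⁻¹ • x) * bt a x D (g⁻¹ • z)) :=
            mul_le_mul_of_nonneg_left (hvol _) (sq_nonneg u)
        _ = (u * bt a x D (g⁻¹ • x)) * (u * bt a x D (g⁻¹ • z)) := by ring
        _ ≤ _ := h1
        _ = _ := by ring
    exact (pow_le_pow_iff_left₀ hu0.le (exp_pos r).le two_ne_zero).1
      (le_of_mul_le_mul_right h2 hP)
  have hu1 : 1 ≤ u := by
    have h1 : bt a x D (g • x) * bt a x D (g • z) ≤ (u * bt a x D x) * (u * bt a x D z) :=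
      mul_le_mul (hA' x) (hA' z) (hβ _) (mul_nonneg hu0.le (hβ _))
    have h2 : 1 ^ 2 * (bt a x D x * bt a x D z) ≤ u ^ 2 * (bt a x D x * bt a x D z) := by
      calc 1 ^ 2 * (bt a x D x * bt a x D z) = bt a x D x * bt a x D z := by ring
        _ ≤ _ := hvol g
        _ ≤ _ := h1
        _ = _ := by ring
    exact (pow_le_pow_iff_left₀ zero_le_one hu0.le two_ne_zero).1
      (le_of_mul_le_mul_right h2 hP)
  constructor
  · exact (hA' y).trans (mul_le_mul_of_nonneg_right hur (hβ y))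
  · exact (le_mul_of_one_le_left (hβ _) hu1).trans (hB y)

theorem Bd.mono {κ κ' : ℕ} {s : G} (h : Bd a κ s) (hκ : κ ≤ κ') : Bd a κ' s := by
  have he : exp (κ : ℝ) ≤ exp (κ' : ℝ) := exp_le_exp.2 (Nat.cast_le.2 hκ)
  exact fun y => ⟨(h y).1.trans (mul_le_mul_of_nonneg_right he (g0_nonneg y)),
    (h y).2.trans (mul_le_mul_of_nonneg_right he (g0_nonneg y))⟩

theorem Bd.inv {κ : ℕ} {s : G} (h : Bd a κ s) : Bd a κ s⁻¹ := by
  intro y
  rw [inv_inv]
  exact ⟨(h y).2, (h y).1⟩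

theorem Bd.one : Bd a 0 (1 : G) := by
  intro y
  simp only [inv_one, one_smul, Nat.cast_zero, exp_zero, one_mul, le_refl, and_self]

/-- `y ↦ g0 a (s • y)` is `mv s⁻¹ (g0 a)`, a seminorm; use `IsSn.le_nr`. -/
theorem exists_Bd (ha : Pl a) (s : G) : ∃ κ : ℕ, Bd a κ s := by
  obtain ⟨κ, hκ⟩ := exists_nat_ge (max (nr (mv s⁻¹ (g0 a))) (nr (mv s (g0 a))))
  have he : (κ : ℝ) ≤ exp κ := by linarith [add_one_le_exp (κ : ℝ)]
  refine ⟨κ, fun y => ⟨?_, ?_⟩⟩
  · have h1 := (mv_isSn (g0_isSn ha) s⁻¹).le_nr y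
    simp only [mv, inv_inv] at h1
    refine h1.trans (mul_le_mul_of_nonneg_right ?_ (g0_nonneg y))
    have h2 := (le_max_left _ _).trans (hκ.trans he)
    simpa only [mv, inv_inv] using h2
  · have h1 := (mv_isSn (g0_isSn ha) s).le_nr y
    exact h1.trans (mul_le_mul_of_nonneg_right ((le_max_right _ _).trans (hκ.trans he))
      (g0_nonneg y))

/-- Cone lemma. Write `z = l • x + m • ee j` (`exists_basis`); `a m ≤ exp (-τ) * g0 a z < g0 a z`
(for `z ≠ 0`), so `g0 a z = a l * g0 a x`. Further `g0 a (s • l • x) ≥ exp (-κ) * g0 a z` and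
`g0 a (s • m • ee j) ≤ exp κ * exp (-τ) * g0 a z`, which is smaller; `IsSn.add_eq`. -/
theorem cone (ha : Pl a) {κ : ℕ} {s : G} (hs : Bd a κ s) {x z : V K} (hx : x ≠ 0) {τ : ℝ}
    (hτ : 2 * (κ : ℝ) < τ) (h : a (dt x z) ≤ exp (-τ) * (g0 a x * g0 a z)) :
    g0 a (s • z) * g0 a x = g0 a (s • x) * g0 a z := by
  have hS := g0_isSn ha
  by_cases hz : z = 0
  · subst hz
    rw [smul_zero, hS.zero, zero_mul, mul_zero]
  obtain ⟨j, -, hb⟩ := exists_basis ha hx
  obtain ⟨l, m, hzz, hm, hg⟩ := hb z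
  have hx0 : 0 < g0 a x := g0_pos hx
  have hz0 : 0 < g0 a z := g0_pos hz
  have hκ0 : (0 : ℝ) ≤ κ := Nat.cast_nonneg κ
  have hm1 : a m ≤ exp (-τ) * g0 a z := by
    refine le_of_mul_le_mul_right ?_ hx0
    rw [hm]
    exact h.trans (le_of_eq (by ring))
  have hm2 : a m < g0 a z := by
    refine hm1.trans_lt ?_
    exact mul_lt_of_lt_one_left hz0 (exp_lt_one_iff.2 (by linarith))
  have hgz : g0 a z = a l * g0 a x := by
    rcases max_cases (a l * g0 a x) (a m) with h1 | h1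
    · rw [hg, h1.1]
    · rw [h1.1] at hg
      exact absurd hg hm2.ne'
  have hsx : g0 a x ≤ exp κ * g0 a (s • x) := by
    have := (hs (s • x)).2
    rwa [inv_smul_smul] at this
  have hse : g0 a (s • (ee j : V K)) ≤ exp κ := by
    have := (hs (ee j)).1
    rwa [g0_ee, mul_one] at this
  have hsz : s • z = l • (s • x) + m • (s • (ee j : V K)) := by
    rw [hzz, smul_add, smul_comm s l, smul_comm s m]
  have hlt : g0 a (m • (s • (ee j : V K))) < g0 a (l • (s • x)) := by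
    rw [hS.sm, hS.sm]
    refine lt_of_mul_lt_mul_left ?_ (exp_pos (κ : ℝ)).le
    have h1 : exp (κ : ℝ) * exp κ * exp (-τ) < 1 := by
      rw [← exp_add, ← exp_add]
      exact exp_lt_one_iff.2 (by linarith)
    calc exp (κ : ℝ) * (a m * g0 a (s • (ee j : V K)))
        ≤ exp (κ : ℝ) * ((exp (-τ) * g0 a z) * exp κ) := by
          refine mul_le_mul_of_nonneg_left ?_ (exp_pos _).le
          exact mul_le_mul hm1 hse (g0_nonneg _) (mul_nonneg (exp_pos _).le hz0.le)
      _ = (exp (κ : ℝ) * exp κ * exp (-τ)) * g0 a z := by ring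
      _ < g0 a z := mul_lt_of_lt_one_left hz0 h1
      _ = a l * g0 a x := hgz
      _ ≤ a l * (exp κ * g0 a (s • x)) := mul_le_mul_of_nonneg_left hsx (a.nonneg l)
      _ = _ := by ring
  rw [hsz, hS.add_eq hlt, hS.sm, hgz]
  ring

end Pool.Agent.Work.MP_9d1ffa_al.G2
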