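import Pool.Agent.Work.MP_9d1ffa_al.G2.TrA

/-! Solvability criteria. -/

namespace Pool.Agent.Work.MP_9d1ffa_al.G2

variable {K : Type} [Field K]
variable {G : Type} [Group G] [DistribMulAction G (V K)] [SMulCommClass G K (V K)]

theorem TrB_act (g : G) (y : V K) (i : Fin 2) :
    (g • y) i = y 0 * (g • (ee 0 : V K)) i + y 1 * (g • (ee 1 : V K)) i := by
  conv_lhs => rw [vec_eq y, smul_add, smul_comm g, smul_comm g]
  rfl

theorem TrB_trc (x y : G) : trc K (x * y) =
    (y • (ee 0 : V K)) 0 * (x • (ee 0 : V K)) 0 + (y • (ee 0 : V K)) 1 * (x • (ee 1 : V K)) 0 +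
      ((y • (ee 1 : V K)) 0 * (x • (ee 0 : V K)) 1 + (y • (ee 1 : V K)) 1 * (x • (ee 1 : V K)) 1) := by
  rw [trc, mul_smul, mul_smul, TrB_act x (y • ee 0), TrB_act x (y • ee 1)]

theorem TrB_ext {v w : V K} (h0 : v 0 = w 0) (h1 : v 1 = w 1) : v = w :=
  funext (Fin.forall_fin_two.2 ⟨h0, h1⟩)

theorem TrB_par {v w : V K} (hv : v ≠ 0) (h : dt v w = 0) : ∃ l : K, w = l • v := by
  rw [dt] at h
  by_cases h0 : v 0 = 0
  · have h1 : v 1 ≠ 0 := fun h1 => hv (TrB_ext h0 h1)
    refine ⟨w 1 / v 1, TrB_ext ?_ (div_mul_cancel₀ _ h1).symm⟩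
    change w 0 = w 1 / v 1 * v 0
    field_simp
    linear_combination -h
  · refine ⟨w 0 / v 0, TrB_ext (div_mul_cancel₀ _ h0).symm ?_⟩
    change w 1 = w 0 / v 0 * v 1
    field_simp
    linear_combination h

/-- `h ↦ l` is a homomorphism `H →* Kˣ`; an element `g` of its kernel fixes `v`, and for `e` with
`dt v e ≠ 0`, `g • e = e + b • v` (`dt v (g • e) = dt v e`), so elements of the kernel commute
(faithfulness). Then `isSolvable_of_comm`, `solvable_of_ker_le_range`. -/
theorem sol_line [FaithfulSMul G (V K)] (hd : Det1 G K) (H : Subgroup G) {v : V K} (hv : v ≠ 0)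
    (h : ∀ g ∈ H, ∃ l : K, g • v = l • v) : IsSolvable H := by
  choose l hl using fun g : H => h g g.2
  let φ : H →* K :=
    { toFun := l
      map_one' := smul_left_injective K hv ((hl 1).symm.trans ((one_smul G v).trans
        (one_smul K v).symm))
      map_mul' := fun a b => smul_left_injective K hv <| by
        change l (a * b) • v = (l a * l b) • v
        rw [← hl, Subgroup.coe_mul, mul_smul, hl b, smul_comm, hl a, smul_smul, mul_comm] }
  have key : ∀ a : φ.toHomUnits.ker, (a : G) • v = v ∧ ∀ y : V K, ∃ b : K,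
      (a : G) • y = y + b • v := by
    intro a
    have h1 : (a : G) • v = v := by
      rw [hl, show l a = 1 from congrArg Units.val a.2, one_smul]
    refine ⟨h1, fun y => ?_⟩
    have h2 := hd a v y
    rw [h1] at h2
    obtain ⟨b, hb⟩ := TrB_par (w := (a : G) • y - y) hv (by
      simp only [dt, Pi.sub_apply] at h2 ⊢
      linear_combination h2)
    exact ⟨b, by rw [← hb, add_sub_cancel]⟩
  have : Group.IsSolvable φ.toHomUnits.ker := Group.isSolvable_of_comm fun a b =>
    Subtype.ext (Subtype.ext (eq_of_smul_eq_smul fun y : V K => by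
      obtain ⟨s, hs⟩ := (key a).2 y
      obtain ⟨t, ht⟩ := (key b).2 y
      change ((a : G) * (b : G)) • y = ((b : G) * (a : G)) • y
      rw [mul_smul, mul_smul, hs, ht, smul_add, smul_add, hs, ht, smul_comm (a : G),
        smul_comm (b : G), (key a).1, (key b).1, add_right_comm]))
  exact Group.isSolvable_of_ker_le_range φ.toHomUnits.ker.subtype φ.toHomUnits
    (Subgroup.range_subtype _).ge

/-- If all elements of `H` commute the closure is commutative. Otherwise take `g, h ∈ H` with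
`C y = (g * h) • y - (h * g) • y` not identically zero. As a matrix, `C` has trace `0` and
determinant `-dl K g h (g * h) = 0` (for `2 × 2` matrices
`det (A - B) = det A + det B - tr A * tr B + tr (A * B)` and `tr (A * A) = tr A ^ 2 - 2 det A`), so
`C = (p q; r -p)` with `p ^ 2 + q r = 0`. Let `v` be a nonzero column of `C`. For `k ∈ H`,
`tr (C k) = dl K g h k = 0` gives `dt v (k • v) = 0`: for the column `v = (p, r)` and
`k = (k0 k1; k2 k3)`, `dt v (k • v) = p ^ 2 k2 + p r (k3 - k0) - r ^ 2 k1 = -r * tr (C k)`; for the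
column `(q, -p)` similarly. So `k • v` is a multiple of `v`; the elements with this property form a
subgroup; `sol_line`. -/
theorem sol_delta [FaithfulSMul G (V K)] (hd : Det1 G K) (H : Set G)
    (h1 : ∀ g ∈ H, ∀ h ∈ H, ∀ k ∈ H, dl K g h k = 0)
    (h2 : ∀ g ∈ H, ∀ h ∈ H, dl K g h (g * h) = 0) : IsSolvable (Subgroup.closure H) := by
  by_cases hc : ∀ g ∈ H, ∀ h ∈ H, g * h = h * g
  · exact Group.isSolvable_of_comm (Subgroup.closureCommGroupOfComm hc).mul_comm
  push Not at hc
  obtain ⟨g, hg, h, hh, hne⟩ := hc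
  have e1 := h1 g hg h hh
  have e2 := h2 g hg h hh
  have e3 : trc K (g * h) = trc K (h * g) := by
    rw [TrB_trc, TrB_trc]
    ring
  have e4 := (hd (g * h) (ee 0) (ee 1)).trans (hd (h * g) (ee 0) (ee 1)).symm
  simp only [dl] at e1 e2
  generalize g * h = A, h * g = B at hne e1 e2 e3 e4
  simp only [TrB_trc] at e1 e2
  simp only [trc] at e3
  simp only [dt] at e4
  obtain ⟨v, hv, hk⟩ : ∃ v : V K, v ≠ 0 ∧ ∀ k ∈ H, dt v (k • v) = 0 := by
    have e5 : ((A • (ee 0 : V K)) 0 - (B • (ee 0 : V K)) 0) ^ 2 +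
        ((A • (ee 1 : V K)) 0 - (B • (ee 1 : V K)) 0) *
          ((A • (ee 0 : V K)) 1 - (B • (ee 0 : V K)) 1) = 0 := by
      linear_combination e2 + e4 - ((A • (ee 1 : V K)) 1 + (B • (ee 0 : V K)) 0) * e3
    by_cases c0 : A • (ee 0 : V K) - B • (ee 0 : V K) = 0
    · refine ⟨A • (ee 1 : V K) - B • (ee 1 : V K), fun c1 => hne (eq_of_smul_eq_smul
        fun y : V K => funext fun i => ?_), fun k hk => ?_⟩
      · rw [TrB_act A, TrB_act B, sub_eq_zero.1 c0, sub_eq_zero.1 c1]
      · rw [dt, TrB_act k _ 0, TrB_act k _ 1]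
        simp only [Pi.sub_apply]
        linear_combination ((A • (ee 1 : V K)) 0 - (B • (ee 1 : V K)) 0) * e1 k hk -
          (k • (ee 1 : V K)) 0 * e5 - (((A • (ee 1 : V K)) 0 - (B • (ee 1 : V K)) 0) *
            (k • (ee 0 : V K)) 0 + ((A • (ee 1 : V K)) 1 - (B • (ee 1 : V K)) 1 -
              (A • (ee 0 : V K)) 0 + (B • (ee 0 : V K)) 0) * (k • (ee 1 : V K)) 0) * e3
    · refine ⟨_, c0, fun k hk => ?_⟩
      rw [dt, TrB_act k _ 0, TrB_act k _ 1]
      simp only [Pi.sub_apply]
      linear_combination (k • (ee 0 : V K)) 1 * e5 -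
        ((A • (ee 0 : V K)) 1 - (B • (ee 0 : V K)) 1) * e1 k hk +
          ((A • (ee 0 : V K)) 1 - (B • (ee 0 : V K)) 1) * (k • (ee 1 : V K)) 1 * e3
  refine sol_line hd _ hv fun k hk' => ?_
  induction hk' using Subgroup.closure_induction with
  | mem k hk' => exact TrB_par hv (hk k hk')
  | one => exact ⟨1, by rw [one_smul, one_smul]⟩
  | mul a b _ _ ha hb =>
    obtain ⟨s, hs⟩ := ha
    obtain ⟨t, ht⟩ := hb
    exact ⟨t * s, by rw [mul_smul, ht, smul_comm, hs, smul_smul]⟩
  | inv a _ ha =>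
    obtain ⟨s, hs⟩ := ha
    have h0 : s ≠ 0 := by
      rintro rfl
      rw [zero_smul, smul_eq_zero_iff_eq] at hs
      exact hv hs
    exact ⟨s⁻¹, by rw [inv_smul_eq_iff, smul_comm, hs, smul_smul, inv_mul_cancel₀ h0, one_smul]⟩

end Pool.Agent.Work.MP_9d1ffa_al.G2
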